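import Mathlib
import Pool.Agent.R333.SubR

/-!
# The subspace theorem along an ultrafilter
-/

set_option autoImplicit false

open Filter Topology Finset

namespace Pool.Agent.V5helper55.TB

/-- `z` has size at most `exp (c N)`, up to a factor `exp (o(N))`, along `U` -/
def Sz (U : Ultrafilter ℕ) (z : ℕ → ℝ) (c : ℝ) : Prop :=
  ∀ ε : ℝ, 0 < ε → ∀ᶠ N : ℕ in U, |z N| ≤ Real.exp ((c + ε) * (N : ℝ))

/-- the integers `D N` are `exp ((d + o(1)) N)` along `U` -/
def Eq (U : Ultrafilter ℕ) (D : ℕ → ℕ) (d : ℝ) : Prop :=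
  ∀ ε : ℝ, 0 < ε → ∀ᶠ N : ℕ in U, Real.exp ((d - ε) * (N : ℝ)) ≤ (D N : ℝ) ∧
    (D N : ℝ) ≤ Real.exp ((d + ε) * (N : ℝ))

/-- the subspace theorem along an ultrafilter -/
theorem ultra_sub {n : ℕ} (U : Ultrafilter ℕ) (hU : (U : Filter ℕ) ≤ atTop) {B : ℕ} (hB : 2 ≤ B)
    (κ : ℕ) (x : ℕ → Fin (n + 1) → ℤ) (D : ℕ → Fin (n + 1) → ℕ)
    (hD : ∀ᶠ N : ℕ in U, ∀ l, D N l ∣ B ^ (κ * N)) (hdiv : ∀ᶠ N : ℕ in U, ∀ l, (D N l : ℤ) ∣ x N l)
    (φ d : Fin (n + 1) → ℝ)
    (hx : ∀ l, ∀ ε : ℝ, 0 < ε → ∀ᶠ N : ℕ in U, |(x N l : ℝ)| ≤ D N l * Real.exp ((φ l + ε) * (N : ℝ)))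
    (hd : ∀ l, Eq U (fun N => D N l) (d l))
    (μ : Fin (n + 1) → ℝ) (hμ : ∀ l, IsAlgebraic ℚ (μ l)) (hμl : μ (Fin.last n) ≠ 0) (lam : ℝ)
    (hform : Sz U (fun N => ∑ l, μ l * x N l) lam)
    (hgain : ∑ l : Fin n, φ l.castSucc + lam - d (Fin.last n) < 0) :
    ∃ y : Fin (n + 1) → ℤ, y ≠ 0 ∧ ∀ᶠ N : ℕ in U, ∑ l, y l * x N l = 0 := by
  classical
  by_contra hcon
  push Not at hcon
  have hcon' : ∀ y : Fin (n + 1) → ℤ, y ≠ 0 → ∀ᶠ N : ℕ in U, ∑ l, y l * x N l ≠ 0 := by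
    intro y hy
    exact hcon y hy
  set g : ℝ := ∑ l : Fin n, φ l.castSucc + lam - d (Fin.last n) with hg
  set ε : ℝ := -g / (3 * n + 4) with hε
  have hn0 : (0 : ℝ) ≤ n := Nat.cast_nonneg n
  have hε0 : 0 < ε := by
    rw [hε]; apply div_pos <;> linarith
  have hεg : (3 * n + 4) * ε = -g := by
    rw [hε]; field_simp
  have hB0 : (0 : ℝ) < B := by exact_mod_cast (by omega : 0 < B)
  have hB1 : (1 : ℝ) < B := by exact_mod_cast (by omega : 1 < B)
  have hL : 0 < Real.log B := Real.log_pos hB1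
  -- the good set
  have hE : ∀ᶠ N : ℕ in U, (∀ l, D N l ∣ B ^ (κ * N)) ∧ (∀ l, (D N l : ℤ) ∣ x N l) ∧
      (∀ l, |(x N l : ℝ)| ≤ D N l * Real.exp ((φ l + ε) * (N : ℝ))) ∧
      (∀ l, Real.exp ((d l - ε) * (N : ℝ)) ≤ (D N l : ℝ) ∧
        (D N l : ℝ) ≤ Real.exp ((d l + ε) * (N : ℝ))) ∧
      |∑ l, μ l * x N l| ≤ Real.exp ((lam + ε) * (N : ℝ)) := by
    have h1 : ∀ᶠ N : ℕ in U, ∀ l, |(x N l : ℝ)| ≤ D N l * Real.exp ((φ l + ε) * (N : ℝ)) :=
      eventually_all.2 fun l => hx l ε hε0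
    have h2 : ∀ᶠ N : ℕ in U, ∀ l, Real.exp ((d l - ε) * (N : ℝ)) ≤ (D N l : ℝ) ∧
        (D N l : ℝ) ≤ Real.exp ((d l + ε) * (N : ℝ)) :=
      eventually_all.2 fun l => hd l ε hε0
    filter_upwards [hD, hdiv, h1, h2, hform ε hε0] with N a1 a2 a3 a4 a5
    exact ⟨a1, a2, a3, a4, a5⟩
  -- enumeration of the vectors
  have hne : Nonempty {y : Fin (n + 1) → ℤ // y ≠ 0} :=
    ⟨⟨fun _ => 1, fun h => by simpa using congrFun h 0⟩⟩
  obtain ⟨Y, hY⟩ := exists_surjective_nat {y : Fin (n + 1) → ℤ // y ≠ 0}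
  have hA : ∀ q : ℕ, ∃ N : ℕ, q ≤ N ∧ ((∀ l, D N l ∣ B ^ (κ * N)) ∧ (∀ l, (D N l : ℤ) ∣ x N l) ∧
      (∀ l, |(x N l : ℝ)| ≤ D N l * Real.exp ((φ l + ε) * (N : ℝ))) ∧
      (∀ l, Real.exp ((d l - ε) * (N : ℝ)) ≤ (D N l : ℝ) ∧
        (D N l : ℝ) ≤ Real.exp ((d l + ε) * (N : ℝ))) ∧
      |∑ l, μ l * x N l| ≤ Real.exp ((lam + ε) * (N : ℝ))) ∧
      ∀ i ∈ Finset.range (q + 1), ∑ l, (Y i).1 l * x N l ≠ 0 := by
    intro q
    have h1 : ∀ᶠ N : ℕ in U, ∀ i ∈ Finset.range (q + 1), ∑ l, (Y i).1 l * x N l ≠ 0 := by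
      rw [eventually_all_finset]
      intro i _
      exact hcon' _ (Y i).2
    have h2 : ∀ᶠ N : ℕ in U, q ≤ N := hU (eventually_ge_atTop q)
    obtain ⟨N, a1, a2, a3⟩ := (h2.and (hE.and h1)).exists
    exact ⟨N, a1, a2, a3⟩
  choose f hf1 hf2 hf3 using hA
  let P : ℕ → Prop := fun m => ∃ q, m = f q
  have hP : ∃ᶠ m in atTop, P m := by
    rw [frequently_atTop]
    intro a
    exact ⟨f a, hf1 a, a, rfl⟩
  let M : Matrix (Fin (n + 1)) (Fin (n + 1)) ℝ := fun l j =>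
    if l = Fin.last n then μ j else if l = j then 1 else 0
  have hMrow : ∀ m (l : Fin (n + 1)), ∑ j, M l j * (x m j : ℝ) =
      if l = Fin.last n then ∑ j, μ j * (x m j : ℝ) else (x m l : ℝ) := by
    intro m l
    by_cases h : l = Fin.last n
    · simp [M, h]
    · simp only [M, h, if_false]
      rw [Finset.sum_eq_single l]
      · simp
      · intro j _ hj
        rw [if_neg (Ne.symm hj), zero_mul]
      · intro h'
        exact absurd (Finset.mem_univ _) h'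
  let a : Fin (n + 1) → ℝ := fun l => if l = Fin.last n then (lam + ε) / Real.log B
    else (φ l + d l + 2 * ε) / Real.log B
  have hrp : ∀ (c : ℝ) (m : ℕ), (B : ℝ) ^ (c / Real.log B * (m : ℝ)) = Real.exp (c * m) := by
    intro c m
    rw [Real.rpow_def_of_pos hB0]
    congr 1
    field_simp
  obtain ⟨y, hy0, hy⟩ := Pool.Agent.R333.SubR.sub_real (n := n + 1) (by omega) B hB M
    (by
      intro i j
      simp only [M]
      split_ifs
      · exact hμ j
      · exact isAlgebraic_one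
      · exact isAlgebraic_zero)
    (by
      intro i j hij
      simp only [M]
      rw [if_neg (fun h => by rw [h] at hij; exact absurd hij (not_lt.2 (Fin.le_last j))),
        if_neg (ne_of_lt hij)])
    (by
      intro i
      simp only [M]
      split_ifs with h
      · rw [h]; exact hμl
      · exact one_ne_zero)
    P hP x
    (by
      rintro m ⟨q, rfl⟩ h0
      apply hf3 q 0 (by simp)
      simp [h0])
    D κ
    (by rintro m l ⟨q, rfl⟩; exact (hf2 q).1 l)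
    (by rintro m l ⟨q, rfl⟩; exact (hf2 q).2.1 l)
    a 1 one_pos
    (by
      rintro m l ⟨q, rfl⟩
      rw [hMrow]
      simp only [a]
      obtain ⟨_, _, h3, h4, h5⟩ := hf2 q
      by_cases h : l = Fin.last n
      · rw [if_pos h, if_pos h, hrp, one_mul]
        exact h5
      · rw [if_neg h, if_neg h, hrp, one_mul]
        refine (h3 l).trans ?_
        calc (D (f q) l : ℝ) * Real.exp ((φ l + ε) * (f q : ℝ))
            ≤ Real.exp ((d l + ε) * (f q : ℝ)) * Real.exp ((φ l + ε) * (f q : ℝ)) :=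
              mul_le_mul_of_nonneg_right (h4 l).2 (Real.exp_pos _).le
          _ = Real.exp ((φ l + d l + 2 * ε) * (f q : ℝ)) := by
              rw [← Real.exp_add]; congr 1; ring)
    (ε / Real.log B) (by positivity)
    (by
      rintro m ⟨q, rfl⟩
      obtain ⟨_, _, h3, h4, h5⟩ := hf2 q
      have h6 : ∀ l, (d l - ε) * (f q : ℝ) ≤ Real.log (D (f q) l) := by
        intro l
        rw [Real.le_log_iff_exp_le]
        · exact (h4 l).1
        · exact lt_of_lt_of_le (Real.exp_pos _) (h4 l).1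
      have h7 : ∑ l, (d l - ε) * (f q : ℝ) ≤ ∑ l, Real.log (D (f q) l) :=
        Finset.sum_le_sum fun l _ => h6 l
      refine le_trans ?_ h7
      have h8 : ∑ l, a l = (∑ l : Fin n, (φ l.castSucc + d l.castSucc + 2 * ε)) / Real.log B +
          (lam + ε) / Real.log B := by
        rw [Fin.sum_univ_castSucc]
        congr 1
        · rw [Finset.sum_div]
          refine Finset.sum_congr rfl fun l _ => ?_
          simp only [a]
          rw [if_neg (ne_of_lt (Fin.castSucc_lt_last l))]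
        · simp [a]
      have h9 : (∑ l, a l + ε / Real.log B) * (f q : ℝ) * Real.log B =
          ((∑ l : Fin n, (φ l.castSucc + d l.castSucc + 2 * ε)) + (lam + ε) + ε) * (f q : ℝ) := by
        rw [h8]
        field_simp
      rw [h9, ← Finset.sum_mul]
      refine mul_le_mul_of_nonneg_right ?_ (Nat.cast_nonneg _)
      rw [Fin.sum_univ_castSucc (f := fun l => d l - ε)]
      simp only [Finset.sum_add_distrib, Finset.sum_sub_distrib, Finset.sum_const,
        Finset.card_univ, Fintype.card_fin, nsmul_eq_mul]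
      have h10 : ∑ l : Fin n, φ l.castSucc + lam - d (Fin.last n) = -((3 * n + 4) * ε) := by
        rw [hεg, hg]; ring
      nlinarith [h10])
  obtain ⟨i, hi⟩ := hY ⟨y, hy0⟩
  obtain ⟨N, hN1, ⟨q, hq⟩, hN2⟩ := (frequently_atTop.1 hy)
    ((Finset.range i).sup f + 1)
  have hqi : i ≤ q := by
    by_contra hlt
    push Not at hlt
    have h1 : f q ≤ (Finset.range i).sup f := Finset.le_sup (f := f) (Finset.mem_range.2 hlt)
    omega
  apply hf3 q i (by simp; omega)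
  rw [hi, ← hq]
  exact hN2

end Pool.Agent.V5helper55.TB
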