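import Mathlib
import Pool.Agent.V5helper55.TB.Sub

/-!
# Small forms in almost `S`-units vanish
-/

set_option autoImplicit false

open Filter Topology Finset

namespace Pool.Agent.V5helper55.TB

/-- the subspace theorem along an ultrafilter, coordinates indexed by a finite set -/
theorem ultra_sub' {ι : Type} [DecidableEq ι] (U : Ultrafilter ℕ) (hU : (U : Filter ℕ) ≤ atTop)
    {B : ℕ} (hB : 2 ≤ B) (κ : ℕ) (T : ℕ → ι → ℤ) (D : ℕ → ι → ℕ)
    (hD : ∀ i, ∀ᶠ N : ℕ in U, D N i ∣ B ^ (κ * N))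
    (hdiv : ∀ i, ∀ᶠ N : ℕ in U, (D N i : ℤ) ∣ T N i)
    (φ d : ι → ℝ)
    (hT : ∀ i, ∀ ε : ℝ, 0 < ε → ∀ᶠ N : ℕ in U,
      |(T N i : ℝ)| ≤ D N i * Real.exp ((φ i + ε) * (N : ℝ)))
    (hd : ∀ i, Eq U (fun N => D N i) (d i)) (lam : ℝ)
    (J : Finset ι) (j : ι) (hj : j ∈ J) (hgain : ∑ i ∈ J.erase j, φ i + lam - d j < 0)
    (μ : ι → ℝ) (hμ : ∀ i, IsAlgebraic ℚ (μ i)) (hμj : μ j ≠ 0)
    (hform : Sz U (fun N => ∑ i ∈ J, μ i * T N i) lam) :
    ∃ y : ι → ℤ, (∃ i ∈ J, y i ≠ 0) ∧ ∀ᶠ N : ℕ in U, ∑ i ∈ J, y i * T N i = 0 := by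
  classical
  set n := (J.erase j).card with hn
  let e : Fin n ≃ (J.erase j) := (J.erase j).equivFin.symm
  let g : Fin (n + 1) → ι := Fin.snoc (fun k => (e k : ι)) j
  have hgl : g (Fin.last n) = j := by simp [g]
  have hgc : ∀ k : Fin n, g k.castSucc = e k := fun k => by simp [g]
  have hginj : Function.Injective g := by
    intro a b hab
    induction a using Fin.lastCases with
    | last =>
      induction b using Fin.lastCases with
      | last => rfl
      | cast b =>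
        rw [hgl, hgc] at hab
        exact absurd hab.symm (Finset.ne_of_mem_erase (e b).2)
    | cast a =>
      induction b using Fin.lastCases with
      | last =>
        rw [hgl, hgc] at hab
        exact absurd hab (Finset.ne_of_mem_erase (e a).2)
      | cast b =>
        rw [hgc, hgc] at hab
        rw [e.injective (Subtype.ext hab)]
  have hsumE : ∀ {M : Type} [AddCommMonoid M] (f : ι → M),
      ∑ i ∈ J.erase j, f i = ∑ k : Fin n, f (g k.castSucc) := by
    intro M _ f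
    rw [← Finset.sum_coe_sort (J.erase j) f]
    rw [← Equiv.sum_comp e]
    exact Finset.sum_congr rfl fun k _ => by rw [hgc]
  have hsumJ : ∀ {M : Type} [AddCommMonoid M] (f : ι → M),
      ∑ i ∈ J, f i = ∑ k : Fin (n + 1), f (g k) := by
    intro M _ f
    rw [Fin.sum_univ_castSucc, hgl, ← hsumE, Finset.sum_erase_add _ _ hj]
  obtain ⟨y, hy0, hy⟩ := ultra_sub U hU hB κ (fun N l => T N (g l)) (fun N l => D N (g l))
    (eventually_all.2 fun l => hD (g l)) (eventually_all.2 fun l => hdiv (g l))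
    (fun l => φ (g l)) (fun l => d (g l)) (fun l => hT (g l)) (fun l => hd (g l))
    (fun l => μ (g l)) (fun l => hμ (g l)) (by rw [hgl]; exact hμj) lam
    (by
      have h1 : (fun N : ℕ => ∑ l : Fin (n + 1), μ (g l) * (T N (g l) : ℝ)) =
          fun N : ℕ => ∑ i ∈ J, μ i * (T N i : ℝ) := by
        funext N
        rw [hsumJ (fun i => μ i * (T N i : ℝ))]
      rw [h1]
      exact hform)
    (by
      rw [hsumE φ] at hgain
      rw [hgl]
      exact hgain)
  refine ⟨Function.extend g y 0, ?_, ?_⟩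
  · obtain ⟨l, hl⟩ := Function.ne_iff.1 hy0
    refine ⟨g l, ?_, ?_⟩
    · induction l using Fin.lastCases with
      | last => rw [hgl]; exact hj
      | cast l => rw [hgc]; exact Finset.mem_of_mem_erase (e l).2
    · rw [hginj.extend_apply]; exact hl
  · filter_upwards [hy] with N hN
    rw [hsumJ (fun i => Function.extend g y 0 i * T N i)]
    rw [← hN]
    exact Finset.sum_congr rfl fun l _ => by rw [hginj.extend_apply]

/-- **Small linear forms with algebraic coefficients in almost `S`-units vanish.** -/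
theorem exact_zero {ι : Type} [DecidableEq ι] (U : Ultrafilter ℕ) (hU : (U : Filter ℕ) ≤ atTop)
    {B : ℕ} (hB : 2 ≤ B) (κ : ℕ) (T : ℕ → ι → ℤ) (D : ℕ → ι → ℕ)
    (hD : ∀ i, ∀ᶠ N : ℕ in U, D N i ∣ B ^ (κ * N))
    (hdiv : ∀ i, ∀ᶠ N : ℕ in U, (D N i : ℤ) ∣ T N i)
    (φ d : ι → ℝ)
    (hT : ∀ i, ∀ ε : ℝ, 0 < ε → ∀ᶠ N : ℕ in U,
      |(T N i : ℝ)| ≤ D N i * Real.exp ((φ i + ε) * (N : ℝ)))
    (hd : ∀ i, Eq U (fun N => D N i) (d i)) (lam : ℝ) (J : Finset ι) :
    (∀ I ⊆ J, I.Nonempty → ∃ j ∈ I, ∑ i ∈ I.erase j, φ i + lam - d j < 0) →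
    ∀ (μ : ι → ℝ), (∀ i, IsAlgebraic ℚ (μ i)) →
    (Sz U (fun N => ∑ i ∈ J, μ i * T N i) lam) →
    ∀ᶠ N : ℕ in U, ∑ i ∈ J, μ i * (T N i : ℝ) = 0 := by
  induction J using Finset.strongInduction with
  | H J ih =>
    intro hgain μ hμ hform
    rcases J.eq_empty_or_nonempty with rfl | hne
    · simp
    obtain ⟨j, hj, hjg⟩ := hgain J (Finset.Subset.refl J) hne
    -- dropping one index with coefficient zero
    have drop : ∀ i0 ∈ J, ∀ ν : ι → ℝ, (∀ i, IsAlgebraic ℚ (ν i)) → ν i0 = 0 →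
        (Sz U (fun N => ∑ i ∈ J, ν i * T N i) lam) →
        ∀ᶠ N : ℕ in U, ∑ i ∈ J, ν i * (T N i : ℝ) = 0 := by
      intro i0 hi0 ν hν hν0 hf
      have h1 : ∀ N : ℕ, ∑ i ∈ J, ν i * (T N i : ℝ) = ∑ i ∈ J.erase i0, ν i * (T N i : ℝ) := by
        intro N
        rw [← Finset.sum_erase_add _ _ hi0, hν0, zero_mul, add_zero]
      have h2 := ih (J.erase i0) (Finset.erase_ssubset hi0)
        (fun I hI hIn => hgain I (hI.trans (Finset.erase_subset _ _)) hIn) ν hν
        (by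
          have : (fun N : ℕ => ∑ i ∈ J.erase i0, ν i * (T N i : ℝ)) =
            fun N : ℕ => ∑ i ∈ J, ν i * (T N i : ℝ) := by funext N; rw [h1]
          rw [this]; exact hf)
      filter_upwards [h2] with N hN
      rw [h1, hN]
    by_cases hμj : μ j = 0
    · exact drop j hj μ hμ hμj hform
    obtain ⟨y, ⟨i0, hi0, hyi0⟩, hy⟩ := ultra_sub' U hU hB κ T D hD hdiv φ d hT hd lam J j hj hjg
      μ hμ hμj hform
    have hyR : (y i0 : ℝ) ≠ 0 := by exact_mod_cast hyi0
    let ν : ι → ℝ := fun i => μ i - μ i0 * (y i / y i0)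
    have hν : ∀ i, IsAlgebraic ℚ (ν i) := by
      intro i
      refine (hμ i).sub ((hμ i0).mul ?_)
      have : ((y i : ℝ) / y i0) = algebraMap ℚ ℝ ((y i : ℚ) / y i0) := by simp
      rw [this]
      exact isAlgebraic_algebraMap _
    have hν0 : ν i0 = 0 := by
      simp only [ν]
      rw [div_self hyR]; ring
    have heq : ∀ᶠ N : ℕ in U, ∑ i ∈ J, ν i * (T N i : ℝ) = ∑ i ∈ J, μ i * (T N i : ℝ) := by
      filter_upwards [hy] with N hN
      have h1 : ∑ i ∈ J, (y i : ℝ) * (T N i : ℝ) = 0 := by exact_mod_cast hN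
      have h2 : ∑ i ∈ J, ν i * (T N i : ℝ) = ∑ i ∈ J, μ i * (T N i : ℝ) -
          μ i0 / y i0 * ∑ i ∈ J, (y i : ℝ) * (T N i : ℝ) := by
        rw [Finset.mul_sum, ← Finset.sum_sub_distrib]
        refine Finset.sum_congr rfl fun i _ => ?_
        simp only [ν]
        ring
      rw [h2, h1, mul_zero, sub_zero]
    have h3 := drop i0 hi0 ν hν hν0 (by
      intro ε hε
      filter_upwards [hform ε hε, heq] with N hN1 hN2
      rw [hN2]; exact hN1)
    filter_upwards [h3, heq] with N hN1 hN2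
    rw [← hN2, hN1]

end Pool.Agent.V5helper55.TB
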