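import Mathlib
import Pool.Agent.V5helper55.TB.Ind

/-!
# Numbers with few almost `S`-unit terms, and linear relations between them
-/

set_option autoImplicit false

open Filter Topology Finset

namespace Pool.Agent.V5helper55.TB

section sizes

variable {U : Ultrafilter ℕ}

lemma ev_ge (hU : (U : Filter ℕ) ≤ atTop) (t : ℝ) : ∀ᶠ N : ℕ in U, t ≤ (N : ℝ) :=
  hU ((tendsto_natCast_atTop_atTop (R := ℝ)).eventually_ge_atTop t)

lemma Sz.mono {z : ℕ → ℝ} {c c' : ℝ} (h : Sz U z c) (hc : c ≤ c') : Sz U z c' := by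
  intro ε hε
  filter_upwards [h ε hε] with N hN
  exact hN.trans (Real.exp_le_exp.2 (mul_le_mul_of_nonneg_right (by linarith) (Nat.cast_nonneg _)))

lemma Sz.of_le {z w : ℕ → ℝ} {c : ℝ} (h : Sz U w c) (hz : ∀ᶠ N : ℕ in U, |z N| ≤ |w N|) :
    Sz U z c := by
  intro ε hε
  filter_upwards [h ε hε, hz] with N hN hN2
  exact hN2.trans hN

lemma Sz.const (hU : (U : Filter ℕ) ≤ atTop) (t : ℝ) : Sz U (fun _ => t) 0 := by
  intro ε hε
  filter_upwards [ev_ge hU (Real.log (|t| + 1) / ε)] with N hN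
  rw [div_le_iff₀ hε] at hN
  have h1 : |t| + 1 ≤ Real.exp ((0 + ε) * N) := by
    rw [← Real.log_le_iff_le_exp (by positivity)]
    linarith
  linarith

lemma Sz.mul {z w : ℕ → ℝ} {c c' : ℝ} (h : Sz U z c) (h' : Sz U w c') :
    Sz U (fun N => z N * w N) (c + c') := by
  intro ε hε
  filter_upwards [h (ε / 2) (by linarith), h' (ε / 2) (by linarith)] with N h1 h2
  rw [abs_mul]
  calc |z N| * |w N| ≤ Real.exp ((c + ε / 2) * N) * Real.exp ((c' + ε / 2) * N) :=
        mul_le_mul h1 h2 (abs_nonneg _) (Real.exp_pos _).le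
    _ = Real.exp ((c + c' + ε) * N) := by rw [← Real.exp_add]; congr 1; ring

lemma Sz.sum (hU : (U : Filter ℕ) ≤ atTop) {β : Type} (s : Finset β) {z : β → ℕ → ℝ} {c : ℝ}
    (h : ∀ r ∈ s, Sz U (z r) c) : Sz U (fun N => ∑ r ∈ s, z r N) c := by
  intro ε hε
  have h1 : ∀ᶠ N : ℕ in U, ∀ r ∈ s, |z r N| ≤ Real.exp ((c + ε / 2) * N) := by
    rw [eventually_all_finset]
    exact fun r hr => h r hr (ε / 2) (by linarith)
  filter_upwards [h1, Sz.const hU ((s.card : ℝ)) (ε / 2) (by linarith)] with N h2 h3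
  calc |∑ r ∈ s, z r N| ≤ ∑ r ∈ s, |z r N| := Finset.abs_sum_le_sum_abs _ _
    _ ≤ ∑ _r ∈ s, Real.exp ((c + ε / 2) * N) := Finset.sum_le_sum h2
    _ = s.card * Real.exp ((c + ε / 2) * N) := by rw [Finset.sum_const, nsmul_eq_mul]
    _ ≤ Real.exp ((0 + ε / 2) * N) * Real.exp ((c + ε / 2) * N) := by
        refine mul_le_mul_of_nonneg_right ?_ (Real.exp_pos _).le
        exact (le_abs_self _).trans h3
    _ = Real.exp ((c + ε) * N) := by rw [← Real.exp_add]; congr 1; ring

lemma Eq.toSz {D : ℕ → ℕ} {d : ℝ} (h : Eq U D d) : Sz U (fun N => (D N : ℝ)) d := by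
  intro ε hε
  filter_upwards [h ε hε] with N hN
  rw [abs_of_nonneg (Nat.cast_nonneg _)]
  exact hN.2

lemma Eq.inv {D : ℕ → ℕ} {d : ℝ} (h : Eq U D d) : Sz U (fun N => ((D N : ℝ))⁻¹) (-d) := by
  intro ε hε
  filter_upwards [h ε hε] with N hN
  have h0 : (0 : ℝ) < D N := lt_of_lt_of_le (Real.exp_pos _) hN.1
  rw [abs_of_nonneg (by positivity), inv_le_comm₀ h0 (Real.exp_pos _), ← Real.exp_neg]
  refine le_trans (le_of_eq ?_) hN.1
  congr 1; ring

lemma Eq.mul {D E : ℕ → ℕ} {d e : ℝ} (h : Eq U D d) (h' : Eq U E e) :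
    Eq U (fun N => D N * E N) (d + e) := by
  intro ε hε
  filter_upwards [h (ε / 2) (by linarith), h' (ε / 2) (by linarith)] with N h1 h2
  push_cast
  constructor
  · calc Real.exp ((d + e - ε) * N) = Real.exp ((d - ε / 2) * N) * Real.exp ((e - ε / 2) * N) := by
          rw [← Real.exp_add]; congr 1; ring
      _ ≤ D N * E N := mul_le_mul h1.1 h2.1 (Real.exp_pos _).le (Nat.cast_nonneg _)
  · calc (D N : ℝ) * E N ≤ Real.exp ((d + ε / 2) * N) * Real.exp ((e + ε / 2) * N) :=
          mul_le_mul h1.2 h2.2 (Nat.cast_nonneg _) (Real.exp_pos _).le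
      _ = Real.exp ((d + e + ε) * N) := by rw [← Real.exp_add]; congr 1; ring

lemma Eq.of_mul {D E F : ℕ → ℕ} {d f : ℝ} (h : Eq U D d) (h' : Eq U F f)
    (hF : ∀ᶠ N : ℕ in U, F N = D N * E N) : Eq U E (f - d) := by
  intro ε hε
  filter_upwards [h (ε / 2) (by linarith), h' (ε / 2) (by linarith), hF] with N h1 h2 h3
  have h0 : (0 : ℝ) < D N := lt_of_lt_of_le (Real.exp_pos _) h1.1
  have h4 : (F N : ℝ) = D N * E N := by exact_mod_cast h3
  have h5 : (E N : ℝ) = F N / D N := by rw [h4]; field_simp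
  rw [h5]
  constructor
  · rw [le_div_iff₀ h0]
    calc Real.exp ((f - d - ε) * N) * D N
        ≤ Real.exp ((f - d - ε) * N) * Real.exp ((d + ε / 2) * N) :=
          mul_le_mul_of_nonneg_left h1.2 (Real.exp_pos _).le
      _ = Real.exp ((f - ε / 2) * N) := by rw [← Real.exp_add]; congr 1; ring
      _ ≤ F N := h2.1
  · rw [div_le_iff₀ h0]
    calc (F N : ℝ) ≤ Real.exp ((f + ε / 2) * N) := h2.2
      _ = Real.exp ((f - d + ε) * N) * Real.exp ((d - ε / 2) * N) := by
          rw [← Real.exp_add]; congr 1; ring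
      _ ≤ Real.exp ((f - d + ε) * N) * D N :=
          mul_le_mul_of_nonneg_left h1.1 (Real.exp_pos _).le

lemma Eq.one : Eq U (fun _ => 1) 0 := by
  intro ε hε
  filter_upwards with N
  push_cast
  constructor
  · rw [Real.exp_le_one_iff]
    have : (0 : ℝ) ≤ N := Nat.cast_nonneg _
    nlinarith
  · rw [Real.one_le_exp_iff]
    positivity

lemma Eq.prod {β : Type} (s : Finset β) {D : β → ℕ → ℕ} {d : β → ℝ}
    (h : ∀ i ∈ s, Eq U (D i) (d i)) : Eq U (fun N => ∏ i ∈ s, D i N) (∑ i ∈ s, d i) := by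
  classical
  induction s using Finset.induction_on with
  | empty => simpa using (Eq.one (U := U))
  | insert a s ha ih =>
    simp only [Finset.prod_insert ha, Finset.sum_insert ha]
    exact (h a (Finset.mem_insert_self _ _)).mul
      (ih fun i hi => h i (Finset.mem_insert_of_mem hi))

lemma Eq.lt_of {b : ℕ} (hb : 2 ≤ b) {n V : ℕ → ℕ} {τ v : ℝ} (hU : (U : Filter ℕ) ≤ atTop)
    (h : Eq U (fun N => b ^ n N) τ) (h' : Eq U (fun N => b ^ V N) v) (hv : τ < v) :
    ∀ᶠ N : ℕ in U, n N < V N := by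
  filter_upwards [h ((v - τ) / 3) (by linarith), h' ((v - τ) / 3) (by linarith), ev_ge hU 1]
    with N h1 h2 h3
  have h4 : ((b ^ n N : ℕ) : ℝ) < ((b ^ V N : ℕ) : ℝ) := by
    refine lt_of_le_of_lt h1.2 (lt_of_lt_of_le ?_ h2.1)
    rw [Real.exp_lt_exp]
    apply mul_lt_mul_of_pos_right _ (by linarith)
    linarith
  have h5 : b ^ n N < b ^ V N := by exact_mod_cast h4
  exact (Nat.pow_lt_pow_iff_right (by omega)).1 h5

/-- a position at scale `R N` -/
noncomputable def pos (b : ℕ) (R : ℝ) (N : ℕ) : ℕ := ⌈R * N / Real.log b⌉₊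

lemma pos_eq (hU : (U : Filter ℕ) ≤ atTop) {b : ℕ} (hb : 2 ≤ b) {R : ℝ} (hR : 0 ≤ R) :
    Eq U (fun N => b ^ pos b R N) R := by
  intro ε hε
  have hb0 : (0 : ℝ) < b := by exact_mod_cast (by omega : 0 < b)
  have hL : 0 < Real.log b := Real.log_pos (by exact_mod_cast (by omega : 1 < b))
  filter_upwards [ev_ge hU (Real.log b / ε)] with N hN
  have hN0 : (0 : ℝ) ≤ N := Nat.cast_nonneg _
  rw [div_le_iff₀ hε] at hN
  have h1 : R * N / Real.log b ≤ pos b R N := Nat.le_ceil _
  have h2 : (pos b R N : ℝ) < R * N / Real.log b + 1 := Nat.ceil_lt_add_one (by positivity)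
  push_cast
  have h3 : (b : ℝ) ^ pos b R N = Real.exp (pos b R N * Real.log b) := by
    rw [← Real.rpow_natCast, Real.rpow_def_of_pos hb0]; congr 1; ring
  rw [h3]
  rw [div_le_iff₀ hL] at h1
  have h4 : (pos b R N : ℝ) * Real.log b < R * N + Real.log b := by
    have := mul_lt_mul_of_pos_right h2 hL
    have h5 : (R * N / Real.log b + 1) * Real.log b = R * N + Real.log b := by field_simp
    linarith
  constructor
  · rw [Real.exp_le_exp]; nlinarith
  · rw [Real.exp_le_exp]; nlinarith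

end sizes

/-- `x` is approximated, along `U`, up to `exp (- R N)` by
`(∑ r, u r / b ^ (n r)) / Q` with integers `Q, u r` of size `exp (o(N))`, except that `u 0` may have
the size `exp N`; `b ^ (n r) = exp ((τ r + o(1)) N)`. -/
structure Rep (U : Ultrafilter ℕ) (b : ℕ) (x R : ℝ) (K : ℕ) where
  /-- denominator -/
  Q : ℕ → ℕ
  /-- coefficients -/
  u : ℕ → Fin (K + 1) → ℤ
  /-- positions -/
  n : ℕ → Fin (K + 1) → ℕ
  /-- limit positions -/
  τ : Fin (K + 1) → ℝ
  hQ1 : ∀ N, 1 ≤ Q N
  hQ : Sz U (fun N => (Q N : ℝ)) 0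
  hu : ∀ r, Sz U (fun N => (u N r : ℝ)) (if r = 0 then 1 else 0)
  hn : ∀ r, Eq U (fun N => b ^ (n N r)) (τ r)
  hτ0 : τ 0 = 1
  hτ1 : ∀ r, 1 ≤ τ r
  hτR : ∀ r, τ r < R
  herr : Sz U (fun N => x - (∑ r, (u N r : ℝ) / (b : ℝ) ^ (n N r)) / Q N) (-R)

/-- the rational approximation -/
def Rep.val {U : Ultrafilter ℕ} {b : ℕ} {x R : ℝ} {K : ℕ} (p : Rep U b x R K) (N : ℕ) : ℚ :=
  (∑ r, (p.u N r : ℚ) / (b : ℚ) ^ (p.n N r)) / p.Q N

lemma Rep.val_cast {U : Ultrafilter ℕ} {b : ℕ} {x R : ℝ} {K : ℕ} (p : Rep U b x R K) (N : ℕ) :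
    ((p.val N : ℚ) : ℝ) = (∑ r, (p.u N r : ℝ) / (b : ℝ) ^ (p.n N r)) / p.Q N := by
  unfold Rep.val
  push_cast
  rfl

lemma Rep.err {U : Ultrafilter ℕ} {b : ℕ} {x R : ℝ} {K : ℕ} (p : Rep U b x R K) :
    Sz U (fun N => x - (p.val N : ℝ)) (-R) := by
  simp only [Rep.val_cast]
  exact p.herr

/-- **Linear relations with algebraic coefficients pass to the approximations.** -/
theorem rep_relation {U : Ultrafilter ℕ} (hU : (U : Filter ℕ) ≤ atTop) {k K : ℕ} (b : Fin k → ℕ)
    (hb : ∀ i, 2 ≤ b i) (x α : Fin k → ℝ) (hα : ∀ i, IsAlgebraic ℚ (α i)) {γ : ℝ}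
    (hγ : IsAlgebraic ℚ γ) (hrel : ∑ i, α i * x i = γ) {R : ℝ} (hR : (k : ℝ) < R)
    (p : ∀ i, Rep U (b i) (x i) R K) :
    ∀ᶠ N : ℕ in U, ∑ i, α i * ((p i).val N : ℝ) = γ := by
  classical
  have hR0 : 0 < R := lt_of_le_of_lt (Nat.cast_nonneg k) hR
  -- a common base
  set B : ℕ := 2 * ∏ i, b i with hB
  have hBpos : 0 < ∏ i, b i := Finset.prod_pos fun i _ => by have := hb i; omega
  have hB2 : 2 ≤ B := by omega
  set V : Fin k → ℕ → ℕ := fun i N => pos (b i) R N with hV
  have hVe : ∀ i, Eq U (fun N => b i ^ V i N) R := fun i => pos_eq hU (hb i) hR0.le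
  let W : ℕ → ℕ := fun N => ∏ i, b i ^ V i N
  have hWe : Eq U W (k * R) := by
    have := Eq.prod (U := U) Finset.univ (D := fun i N => b i ^ V i N) (d := fun _ => R)
      (fun i _ => hVe i)
    simpa using this
  let D : ℕ → Option (Fin k × Fin (K + 1)) → ℕ := fun N o => match o with
    | none => W N
    | some (i, r) => b i ^ (V i N - (p i).n N r) * ∏ j ∈ Finset.univ.erase i, b j ^ V j N
  let S : ℕ → Option (Fin k × Fin (K + 1)) → ℤ := fun N o => match o with
    | none => ∏ j, ((p j).Q N : ℤ)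
    | some (i, r) => (p i).u N r * ∏ j ∈ Finset.univ.erase i, ((p j).Q N : ℤ)
  let T : ℕ → Option (Fin k × Fin (K + 1)) → ℤ := fun N o => (D N o : ℤ) * S N o
  let φ : Option (Fin k × Fin (K + 1)) → ℝ := fun o => match o with
    | none => 0
    | some (_, r) => if r = 0 then 1 else 0
  let d : Option (Fin k × Fin (K + 1)) → ℝ := fun o => match o with
    | none => k * R
    | some (i, r) => k * R - (p i).τ r
  let μ : Option (Fin k × Fin (K + 1)) → ℝ := fun o => match o with
    | none => -γ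
    | some (i, _) => α i
  -- positions
  have hnV : ∀ i r, ∀ᶠ N : ℕ in U, (p i).n N r < V i N := fun i r =>
    Eq.lt_of (hb i) hU ((p i).hn r) (hVe i) ((p i).hτR r)
  have hDe : ∀ o, Eq U (fun N => D N o) (d o) := by
    rintro (_ | ⟨i, r⟩)
    · exact hWe
    · refine Eq.of_mul ((p i).hn r) hWe ?_
      filter_upwards [hnV i r] with N hN
      simp only [D, W]
      rw [← Finset.mul_prod_erase Finset.univ _ (Finset.mem_univ i), ← mul_assoc, ← pow_add]
      congr 2
      omega
  -- sizes of the free parts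
  have hQp : ∀ s : Finset (Fin k), Sz U (fun N => ((∏ j ∈ s, ((p j).Q N : ℤ) : ℤ) : ℝ)) 0 := by
    intro s
    induction s using Finset.induction_on with
    | empty => simpa using Sz.const hU 1
    | insert a s ha ih =>
      have h1 := ((p a).hQ).mul ih
      simp only [add_zero] at h1
      simp only [Finset.prod_insert ha, Int.cast_mul, Int.cast_natCast]
      exact h1
  have hSz : ∀ o, Sz U (fun N => (S N o : ℝ)) (φ o) := by
    rintro (_ | ⟨i, r⟩)
    · exact hQp Finset.univ
    · have h1 := ((p i).hu r).mul (hQp (Finset.univ.erase i))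
      simp only [S, Int.cast_mul]
      rw [add_zero] at h1
      exact h1
  -- the form
  have hrow : ∀ N, (∀ i r, (p i).n N r < V i N) → ∑ o, μ o * (T N o : ℝ) =
      (W N : ℝ) * (∏ j, ((p j).Q N : ℝ)) * (∑ i, α i * ((p i).val N : ℝ) - γ) := by
    intro N hN
    rw [Fintype.sum_option, Fintype.sum_prod_type]
    have h1 : ∀ i, ∑ r, μ (some (i, r)) * (T N (some (i, r)) : ℝ) =
        (W N : ℝ) * (∏ j, ((p j).Q N : ℝ)) * (α i * ((p i).val N : ℝ)) := by
      intro i
      have hb0 : (b i : ℝ) ≠ 0 := by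
        have := hb i
        exact_mod_cast (by omega : b i ≠ 0)
      have hQ0 : ((p i).Q N : ℝ) ≠ 0 := by
        have := (p i).hQ1 N
        exact_mod_cast (by omega : (p i).Q N ≠ 0)
      rw [Rep.val_cast]
      have h2 : ∀ r, μ (some (i, r)) * (T N (some (i, r)) : ℝ) =
          α i * ((W N : ℝ) * (∏ j ∈ Finset.univ.erase i, ((p j).Q N : ℝ))) *
            (((p i).u N r : ℝ) / (b i : ℝ) ^ ((p i).n N r)) := by
        intro r
        have h3 : (W N : ℝ) = (D N (some (i, r)) : ℝ) * (b i : ℝ) ^ ((p i).n N r) := by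
          have h4 : W N = D N (some (i, r)) * b i ^ ((p i).n N r) := by
            simp only [D, W]
            rw [← Finset.mul_prod_erase Finset.univ _ (Finset.mem_univ i), mul_right_comm,
              ← pow_add]
            congr 2
            have := hN i r
            omega
          exact_mod_cast h4
        rw [h3]
        simp only [μ, T, S]
        push_cast
        field_simp
      rw [Finset.sum_congr rfl fun r _ => h2 r, ← Finset.mul_sum,
        ← Finset.mul_prod_erase Finset.univ (fun j => ((p j).Q N : ℝ)) (Finset.mem_univ i)]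
      field_simp
    rw [Finset.sum_congr rfl fun i _ => h1 i, ← Finset.mul_sum]
    simp only [μ, T, S, D]
    push_cast
    ring
  have hnVall : ∀ᶠ N : ℕ in U, ∀ i r, (p i).n N r < V i N :=
    eventually_all.2 fun i => eventually_all.2 fun r => hnV i r
  -- smallness of the form
  have herr : Sz U (fun N => ∑ i, α i * ((p i).val N : ℝ) - γ) (-R) := by
    have h1 : Sz U (fun N => ∑ i ∈ (Finset.univ : Finset (Fin k)),
        (-(α i)) * (x i - ((p i).val N : ℝ))) (-R) := by
      refine Sz.sum hU _ fun i _ => ?_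
      have h2 := (Sz.const hU (-(α i))).mul (p i).err
      rw [zero_add] at h2
      exact h2
    have h3 : (fun N : ℕ => ∑ i, α i * ((p i).val N : ℝ) - γ) = fun N : ℕ =>
        ∑ i ∈ (Finset.univ : Finset (Fin k)), (-(α i)) * (x i - ((p i).val N : ℝ)) := by
      funext N
      rw [← hrel, ← Finset.sum_sub_distrib]
      exact Finset.sum_congr rfl fun i _ => by ring
    rw [h3]
    exact h1
  have hform : Sz U (fun N => ∑ o ∈ (Finset.univ : Finset (Option (Fin k × Fin (K + 1)))),
      μ o * (T N o : ℝ)) (k * R - R) := by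
    have h1 := ((Eq.toSz hWe).mul (hQp Finset.univ)).mul herr
    have h2 : (k : ℝ) * R + 0 + -R = k * R - R := by ring
    rw [h2] at h1
    refine h1.of_le ?_
    filter_upwards [hnVall] with N hN
    rw [hrow N hN]
    push_cast
    exact le_refl _
  -- positions are bounded by a multiple of N
  have hDdvd : ∀ o, ∀ᶠ N : ℕ in U, D N o ∣ B ^ ((⌈R / Real.log 2⌉₊ + 1) * N) := by
    have hVle : ∀ i, ∀ N : ℕ, 1 ≤ N → V i N ≤ (⌈R / Real.log 2⌉₊ + 1) * N := by
      intro i N hN1
      have hL2 : 0 < Real.log 2 := Real.log_pos (by norm_num)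
      have h1 : Real.log 2 ≤ Real.log (b i) := Real.log_le_log (by norm_num) (by exact_mod_cast hb i)
      have h2 : R * N / Real.log (b i) ≤ R * N / Real.log 2 :=
        div_le_div_of_nonneg_left (by positivity) hL2 h1
      have h3 : R / Real.log 2 ≤ ⌈R / Real.log 2⌉₊ := Nat.le_ceil _
      apply Nat.ceil_le.2
      refine h2.trans ?_
      push_cast
      have h4 : R * N / Real.log 2 = R / Real.log 2 * N := by ring
      rw [h4]
      have h5 : (0 : ℝ) ≤ N := Nat.cast_nonneg _
      nlinarith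
    have hWd : ∀ N : ℕ, 1 ≤ N → W N ∣ B ^ ((⌈R / Real.log 2⌉₊ + 1) * N) := by
      intro N hN1
      have h1 : W N ∣ ∏ i, b i ^ ((⌈R / Real.log 2⌉₊ + 1) * N) :=
        Finset.prod_dvd_prod_of_dvd _ _ fun i _ => pow_dvd_pow _ (hVle i N hN1)
      rw [Finset.prod_pow] at h1
      exact h1.trans (pow_dvd_pow_of_dvd (Dvd.intro_left _ rfl) _)
    rintro (_ | ⟨i, r⟩)
    · filter_upwards [ev_ge hU 1] with N hN
      exact hWd N (by exact_mod_cast hN)
    · filter_upwards [ev_ge hU 1, hnV i r] with N hN hN2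
      refine dvd_trans ?_ (hWd N (by exact_mod_cast hN))
      simp only [D, W]
      rw [← Finset.mul_prod_erase Finset.univ (fun i => b i ^ V i N) (Finset.mem_univ i)]
      exact Nat.mul_dvd_mul (pow_dvd_pow _ (Nat.sub_le _ _)) (dvd_refl _)
  have key := exact_zero U hU hB2 (⌈R / Real.log 2⌉₊ + 1) T D hDdvd
    (fun o => Eventually.of_forall fun N => Dvd.intro _ rfl) φ d
    (by
      intro o ε hε
      filter_upwards [hSz o ε hε] with N hN
      simp only [T]
      push_cast
      rw [abs_mul, abs_of_nonneg (Nat.cast_nonneg (D N o))]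
      exact mul_le_mul_of_nonneg_left hN (Nat.cast_nonneg _))
    hDe (k * R - R) Finset.univ
    (by
      intro I _ hI
      by_cases hcase : ∃ i : Fin k, some (i, (0 : Fin (K + 1))) ∈ I
      · obtain ⟨i, hi⟩ := hcase
        refine ⟨_, hi, ?_⟩
        have h1 : ∑ o ∈ I.erase (some (i, (0 : Fin (K + 1)))), φ o ≤ (k : ℝ) - 1 := by
          have h2 : ∑ o ∈ I.erase (some (i, (0 : Fin (K + 1)))), φ o ≤
              ∑ o ∈ (Finset.univ : Finset (Option (Fin k × Fin (K + 1)))).erase
                (some (i, (0 : Fin (K + 1)))), φ o := by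
            refine Finset.sum_le_sum_of_subset_of_nonneg
              (Finset.erase_subset_erase _ (Finset.subset_univ _)) ?_
            rintro (_ | ⟨j, r⟩) _ _
            · exact le_refl _
            · simp only [φ]; split_ifs <;> norm_num
          refine h2.trans (le_of_eq ?_)
          rw [Finset.sum_erase_eq_sub (Finset.mem_univ _), Fintype.sum_option,
            Fintype.sum_prod_type]
          simp [φ]
        have h3 : (p i).τ 0 = 1 := (p i).hτ0
        simp only [d, h3]
        linarith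
      · obtain ⟨j, hj⟩ := hI
        refine ⟨j, hj, ?_⟩
        have h1 : ∑ o ∈ I.erase j, φ o = 0 := by
          refine Finset.sum_eq_zero fun o ho => ?_
          rcases o with _ | ⟨i, r⟩
          · rfl
          · simp only [φ]
            rw [if_neg]
            rintro rfl
            exact hcase ⟨i, Finset.mem_of_mem_erase ho⟩
        rw [h1]
        rcases j with _ | ⟨i, r⟩
        · simp only [d]; linarith
        · simp only [d]
          have := (p i).hτR r
          linarith)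
    μ
    (by
      rintro (_ | ⟨i, r⟩)
      · exact hγ.neg
      · exact hα i)
    hform
  filter_upwards [key, hnVall] with N h1 h2
  rw [hrow N h2] at h1
  have hW0 : (W N : ℝ) ≠ 0 := by
    have : W N ≠ 0 := Finset.prod_ne_zero_iff.2 fun i _ => by
      have := hb i
      positivity
    exact_mod_cast this
  have hQ0 : (∏ j, ((p j).Q N : ℝ)) ≠ 0 := by
    refine Finset.prod_ne_zero_iff.2 fun i _ => ?_
    have := (p i).hQ1 N
    exact_mod_cast (by omega : (p i).Q N ≠ 0)
  have h3 := (mul_eq_zero.1 h1).resolve_left (mul_ne_zero hW0 hQ0)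
  linarith

end Pool.Agent.V5helper55.TB
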