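import Mathlib
import Pool.Agent.V5helper55.TB.Rep

/-!
# The last cluster of terms, and multiplicatively independent bases
-/

set_option autoImplicit false

open Filter Topology Finset

namespace Pool.Agent.V5helper55.TB

variable {U : Ultrafilter ℕ}

lemma Eq.sup {b : ℕ} {β : Type} (s : Finset β) (hs : s.Nonempty) {n : ℕ → β → ℕ}
    {τ : ℝ} (h : ∀ i ∈ s, Eq U (fun N => b ^ n N i) τ) :
    Eq U (fun N => b ^ (s.sup (n N))) τ := by
  intro ε hε
  have h1 : ∀ᶠ N : ℕ in U, ∀ i ∈ s, Real.exp ((τ - ε) * (N : ℝ)) ≤ ((b ^ n N i : ℕ) : ℝ) ∧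
      ((b ^ n N i : ℕ) : ℝ) ≤ Real.exp ((τ + ε) * (N : ℝ)) := by
    rw [eventually_all_finset]
    exact fun i hi => h i hi ε hε
  filter_upwards [h1] with N hN
  obtain ⟨i, hi, hie⟩ := Finset.exists_mem_eq_sup s hs (n N)
  rw [hie]
  exact hN i hi

lemma Sz.pow_sup {b : ℕ} (hU : (U : Filter ℕ) ≤ atTop) {β : Type} (s : Finset β)
    {n : ℕ → β → ℕ} {c : ℝ} (h : ∀ i ∈ s, Sz U (fun N => ((b ^ n N i : ℕ) : ℝ)) c) (hc : 0 ≤ c) :
    Sz U (fun N => ((b ^ (s.sup (n N)) : ℕ) : ℝ)) c := by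
  classical
  rcases s.eq_empty_or_nonempty with rfl | hs
  · have h1 := Sz.const hU (1 : ℝ)
    have h2 := h1.mono hc
    simpa using h2
  refine (Sz.sum hU s h).of_le (Eventually.of_forall fun N => ?_)
  obtain ⟨i, hi, hie⟩ := Finset.exists_mem_eq_sup s hs (n N)
  rw [hie, abs_of_nonneg (Nat.cast_nonneg _), abs_of_nonneg (Finset.sum_nonneg fun _ _ =>
    Nat.cast_nonneg _)]
  exact Finset.single_le_sum (f := fun i => ((b ^ n N i : ℕ) : ℝ)) (fun _ _ => Nat.cast_nonneg _) hi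

/-- **The last cluster.** -/
theorem cluster (hU : (U : Filter ℕ) ≤ atTop) {b : ℕ} (hb : 2 ≤ b) {x R : ℝ} {K : ℕ}
    (p : Rep U b x R K) (J : Finset (Fin (K + 1))) :
    (∃ (e : ℕ → ℕ) (A : ℕ → ℤ), Sz U (fun N => ((b ^ e N : ℕ) : ℝ)) 1 ∧
      ∀ᶠ N : ℕ in U, ∑ r ∈ J, (p.u N r : ℚ) / (b : ℚ) ^ (p.n N r) = A N / (b : ℚ) ^ e N) ∨
    (∃ (e s : ℕ → ℕ) (u G : ℕ → ℤ) (t θ : ℝ), 1 < t ∧ 0 < θ ∧ Eq U (fun N => b ^ e N) t ∧
      Eq U (fun N => b ^ s N) θ ∧ Sz U (fun N => (u N : ℝ)) 0 ∧ ∀ᶠ N : ℕ in U, u N ≠ 0 ∧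
      ∑ r ∈ J, (p.u N r : ℚ) / (b : ℚ) ^ (p.n N r) =
        (u N + (b : ℚ) ^ s N * G N) / (b : ℚ) ^ e N) := by
  classical
  have hb0 : (b : ℚ) ≠ 0 := by exact_mod_cast (by omega : b ≠ 0)
  induction J using Finset.strongInduction with
  | H J ih =>
  by_cases hcase : ∀ r ∈ J, p.τ r ≤ 1
  · left
    refine ⟨fun N => J.sup (p.n N), fun N => ∑ r ∈ J, p.u N r * (b : ℤ) ^ (J.sup (p.n N) - p.n N r),
      ?_, Eventually.of_forall fun N => ?_⟩
    · refine Sz.pow_sup hU J (fun r hr => ?_) zero_le_one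
      exact (Eq.toSz (p.hn r)).mono (hcase r hr)
    · push_cast
      rw [Finset.sum_div]
      refine Finset.sum_congr rfl fun r hr => ?_
      have h1 : p.n N r ≤ J.sup (p.n N) := Finset.le_sup hr
      rw [div_eq_div_iff (pow_ne_zero _ hb0) (pow_ne_zero _ hb0), mul_assoc, ← pow_add]
      congr 2
      omega
  push Not at hcase
  obtain ⟨r0, hr0, hr0τ⟩ := hcase
  obtain ⟨r1, hr1, hmax⟩ := Finset.exists_max_image J p.τ ⟨r0, hr0⟩
  set t : ℝ := p.τ r1 with ht
  have ht1 : 1 < t := lt_of_lt_of_le hr0τ (hmax r0 hr0)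
  set C : Finset (Fin (K + 1)) := J.filter fun r => p.τ r = t with hC
  have hCne : C.Nonempty := ⟨r1, by simp [hC, hr1, ht]⟩
  have hCJ : C ⊆ J := Finset.filter_subset _ _
  let e : ℕ → ℕ := fun N => C.sup (p.n N)
  let u : ℕ → ℤ := fun N => ∑ r ∈ C, p.u N r * (b : ℤ) ^ (e N - p.n N r)
  have he : Eq U (fun N => b ^ e N) t := Eq.sup C hCne fun r hr => by
    have : p.τ r = t := (Finset.mem_filter.1 hr).2
    rw [← this]
    exact p.hn r
  have hsumC : ∀ N, ∑ r ∈ C, (p.u N r : ℚ) / (b : ℚ) ^ (p.n N r) = u N / (b : ℚ) ^ e N := by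
    intro N
    simp only [u]
    push_cast
    rw [Finset.sum_div]
    refine Finset.sum_congr rfl fun r hr => ?_
    have h1 : p.n N r ≤ e N := Finset.le_sup hr
    rw [div_eq_div_iff (pow_ne_zero _ hb0) (pow_ne_zero _ hb0), mul_assoc, ← pow_add]
    congr 2
    omega
  have hsplit : ∀ N, ∑ r ∈ J, (p.u N r : ℚ) / (b : ℚ) ^ (p.n N r) =
      ∑ r ∈ J \ C, (p.u N r : ℚ) / (b : ℚ) ^ (p.n N r) + u N / (b : ℚ) ^ e N := by
    intro N
    rw [← hsumC, Finset.sum_sdiff hCJ]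
  by_cases hu0 : ∀ᶠ N : ℕ in U, u N = 0
  · -- the cluster is void
    have hss : J \ C ⊂ J := Finset.sdiff_ssubset hCJ hCne
    have heq : ∀ᶠ N : ℕ in U, ∑ r ∈ J, (p.u N r : ℚ) / (b : ℚ) ^ (p.n N r) =
        ∑ r ∈ J \ C, (p.u N r : ℚ) / (b : ℚ) ^ (p.n N r) := by
      filter_upwards [hu0] with N hN
      rw [hsplit, hN]
      simp
    rcases ih _ hss with ⟨e', A', h1, h2⟩ | ⟨e', s', u', G', t', θ', h1, h2, h3, h4, h5, h6⟩
    · left
      refine ⟨e', A', h1, ?_⟩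
      filter_upwards [h2, heq] with N h3 h4
      rw [h4, h3]
    · right
      refine ⟨e', s', u', G', t', θ', h1, h2, h3, h4, h5, ?_⟩
      filter_upwards [h6, heq] with N h7 h8
      exact ⟨h7.1, by rw [h8, h7.2]⟩
  · -- a nonzero last cluster
    have hu1 : ∀ᶠ N : ℕ in U, u N ≠ 0 := Ultrafilter.eventually_not.2 hu0
    right
    -- the gap to the other positions
    obtain ⟨t0, ht01, ht0t, ht0⟩ : ∃ t0 : ℝ, 1 ≤ t0 ∧ t0 < t ∧ ∀ r ∈ J \ C, p.τ r ≤ t0 := by
      rcases (J \ C).eq_empty_or_nonempty with h0 | hne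
      · exact ⟨1, le_refl _, ht1, by simp [h0]⟩
      · obtain ⟨r2, hr2, hm2⟩ := Finset.exists_max_image (J \ C) p.τ hne
        refine ⟨p.τ r2, p.hτ1 r2, ?_, hm2⟩
        have h1 := Finset.mem_sdiff.1 hr2
        refine lt_of_le_of_ne (hmax r2 h1.1) fun h => h1.2 ?_
        simp [hC, h1.1, h]
    set θ : ℝ := (t - t0) / 2 with hθ
    have hθ0 : 0 < θ := by rw [hθ]; linarith
    let s : ℕ → ℕ := fun N => pos b θ N
    have hs : Eq U (fun N => b ^ s N) θ := pos_eq hU hb hθ0.le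
    have hgap : ∀ᶠ N : ℕ in U, ∀ r ∈ J \ C, p.n N r + s N ≤ e N := by
      rw [eventually_all_finset]
      intro r hr
      have h1 : Eq U (fun N => b ^ (p.n N r + s N)) (p.τ r + θ) := by
        have := (p.hn r).mul hs
        simpa only [← pow_add] using this
      have h2 := Eq.lt_of hb hU h1 he (by have := ht0 r hr; rw [hθ]; linarith)
      filter_upwards [h2] with N hN
      exact hN.le
    refine ⟨e, s, u, fun N => ∑ r ∈ J \ C, p.u N r * (b : ℤ) ^ (e N - p.n N r - s N), t, θ, ht1,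
      hθ0, he, hs, ?_, ?_⟩
    · -- the size of `u`
      have h1 : Sz U (fun N => ∑ r ∈ C, (p.u N r : ℝ) * ((b ^ (e N - p.n N r) : ℕ) : ℝ)) 0 := by
        refine Sz.sum hU C fun r hr => ?_
        have hrt : p.τ r = t := (Finset.mem_filter.1 hr).2
        have hr0 : r ≠ 0 := by
          rintro rfl
          have := p.hτ0
          linarith
        have h2 := p.hu r
        rw [if_neg hr0] at h2
        have h3 : Eq U (fun N => b ^ (e N - p.n N r)) (t - t) := by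
          have h4 := p.hn r
          rw [hrt] at h4
          refine Eq.of_mul h4 he (Eventually.of_forall fun N => ?_)
          have h5 : p.n N r ≤ e N := Finset.le_sup hr
          rw [← pow_add]
          congr 1
          omega
        have h6 := h2.mul h3.toSz
        rw [sub_self, add_zero] at h6
        exact h6
      refine h1.of_le (Eventually.of_forall fun N => le_of_eq ?_)
      simp only [u]
      push_cast
      rfl
    · filter_upwards [hu1, hgap] with N h1 h2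
      refine ⟨h1, ?_⟩
      rw [hsplit]
      have h3 : ∑ r ∈ J \ C, (p.u N r : ℚ) / (b : ℚ) ^ (p.n N r) =
          (b : ℚ) ^ s N * ((∑ r ∈ J \ C, p.u N r * (b : ℤ) ^ (e N - p.n N r - s N) : ℤ) : ℚ) /
            (b : ℚ) ^ e N := by
        push_cast
        rw [Finset.mul_sum, Finset.sum_div]
        refine Finset.sum_congr rfl fun r hr => ?_
        have h4 := h2 r hr
        rw [div_eq_div_iff (pow_ne_zero _ hb0) (pow_ne_zero _ hb0)]
        have h5 : (b : ℚ) ^ e N = (b : ℚ) ^ s N * (b : ℚ) ^ (e N - p.n N r - s N) *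
            (b : ℚ) ^ p.n N r := by
          rw [← pow_add, ← pow_add]
          congr 1
          omega
        rw [h5]
        ring
      rw [h3]
      ring

/-- valuations of small integers are small -/
lemma val_le {p : ℕ} [Fact p.Prime] {z : ℤ} (hz : z ≠ 0) :
    (padicValInt p z : ℝ) * Real.log 2 ≤ Real.log |(z : ℝ)| := by
  have hp : 2 ≤ p := (Fact.out : p.Prime).two_le
  have h1 : (p : ℤ) ^ padicValInt p z ∣ z := by
    rw [padicValInt_dvd_iff]; exact Or.inr (le_refl _)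
  have h2 : (p : ℤ) ^ padicValInt p z ≤ |z| := by
    refine Int.le_of_dvd (abs_pos.2 hz) ?_
    rwa [dvd_abs]
  have h3 : ((2 : ℝ)) ^ padicValInt p z ≤ |(z : ℝ)| := by
    have h4 : ((p : ℝ)) ^ padicValInt p z ≤ |(z : ℝ)| := by exact_mod_cast h2
    refine le_trans ?_ h4
    exact pow_le_pow_left₀ (by norm_num) (by exact_mod_cast hp) _
  have h5 := Real.log_le_log (by positivity) h3
  rwa [Real.log_pow] at h5

lemma val_small {p : ℕ} [Fact p.Prime] {z : ℕ → ℤ} (hz : Sz U (fun N => (z N : ℝ)) 0)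
    {ε : ℝ} (hε : 0 < ε) : ∀ᶠ N : ℕ in U, z N ≠ 0 → (padicValInt p (z N) : ℝ) ≤ ε * N := by
  have hL : 0 < Real.log 2 := Real.log_pos (by norm_num)
  filter_upwards [hz (ε * Real.log 2) (by positivity)] with N hN h0
  have h1 := val_le (p := p) h0
  have h2 : Real.log |(z N : ℝ)| ≤ (0 + ε * Real.log 2) * N := by
    rw [Real.log_le_iff_le_exp (abs_pos.2 (by exact_mod_cast h0))]
    exact hN
  have h3 : (padicValInt p (z N) : ℝ) * Real.log 2 ≤ (ε * N) * Real.log 2 := by linarith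
  exact le_of_mul_le_mul_right h3 hL

/-- multiplicatively independent integers have non proportional exponents -/
lemma indep_val {a b : ℕ} (ha : 2 ≤ a) (hb : 2 ≤ b)
    (hab : ∀ k l : ℕ, a ^ k = b ^ l → k = 0 ∧ l = 0) :
    ∃ p q : ℕ, p.Prime ∧ q.Prime ∧
      a.factorization p * b.factorization q ≠ a.factorization q * b.factorization p := by
  by_contra hcon
  push Not at hcon
  obtain ⟨q, hq, hqb⟩ := Nat.exists_prime_and_dvd (by omega : b ≠ 1)
  have hbq : 1 ≤ b.factorization q := (hq.dvd_iff_one_le_factorization (by omega)).1 hqb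
  have h1 : a ^ b.factorization q = b ^ a.factorization q := by
    apply Nat.eq_of_factorization_eq (pow_ne_zero _ (by omega)) (pow_ne_zero _ (by omega))
    intro p
    by_cases hp : p.Prime
    · rw [Nat.factorization_pow, Nat.factorization_pow]
      simp only [Finsupp.smul_apply, smul_eq_mul]
      rw [mul_comm (b.factorization q)]
      exact hcon p q hp hq
    · rw [Nat.factorization_eq_zero_of_not_prime _ hp, Nat.factorization_eq_zero_of_not_prime _ hp]
  have := (hab _ _ h1).1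
  omega

lemma pos_lower (hU : (U : Filter ℕ) ≤ atTop) {b : ℕ} (hb : 2 ≤ b) {n : ℕ → ℕ} {t : ℝ} (ht : 0 < t)
    (h : Eq U (fun N => b ^ n N) t) : ∀ᶠ N : ℕ in U, t / (2 * Real.log b) * N ≤ n N := by
  have hb0 : (0 : ℝ) < b := by exact_mod_cast (by omega : 0 < b)
  have hL : 0 < Real.log b := Real.log_pos (by exact_mod_cast (by omega : 1 < b))
  filter_upwards [h (t / 2) (by linarith)] with N hN
  have h1 := hN.1
  push_cast at h1
  rw [← Real.le_log_iff_exp_le (by positivity), Real.log_pow] at h1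
  have h2 : t / (2 * Real.log b) * N = ((t - t / 2) * N) / Real.log b := by
    field_simp; ring
  rw [h2, div_le_iff₀ hL]
  exact h1

lemma val_add {p : ℕ} [Fact p.Prime] {a : ℕ} (hpa : p ∣ a) {u G : ℤ} {s : ℕ} (hu : u ≠ 0)
    (hs : padicValInt p u < s) :
    u + (a : ℤ) ^ s * G ≠ 0 ∧ padicValInt p (u + (a : ℤ) ^ s * G) ≤ padicValInt p u := by
  have h1 : ¬ ((p : ℤ) ^ (padicValInt p u + 1) ∣ u) := by
    rw [padicValInt_dvd_iff]
    push Not
    exact ⟨hu, by omega⟩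
  have h2 : (p : ℤ) ^ (padicValInt p u + 1) ∣ (a : ℤ) ^ s * G := by
    apply Dvd.dvd.mul_right
    refine dvd_trans (pow_dvd_pow _ (by omega : padicValInt p u + 1 ≤ s)) ?_
    exact pow_dvd_pow_of_dvd (by exact_mod_cast hpa) _
  have h3 : ¬ ((p : ℤ) ^ (padicValInt p u + 1) ∣ u + (a : ℤ) ^ s * G) := by
    intro h
    exact h1 ((dvd_add_left h2).1 h)
  rw [padicValInt_dvd_iff] at h3
  push Not at h3
  exact ⟨h3.1, by omega⟩

lemma val_nat (p b : ℕ) (hp : p.Prime) : padicValInt p (b : ℤ) = b.factorization p := by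
  rw [padicValInt.of_nat, Nat.factorization_def _ hp]

/-- one inequality between the last positions -/
lemma side (hU : (U : Filter ℕ) ≤ atTop) {a b : ℕ} (ha : 2 ≤ a) (hb : 2 ≤ b) {q1 : ℤ}
    (hq1 : q1 ≠ 0) {e1 s1 e2 Q2 : ℕ → ℕ} {u1 G1 : ℕ → ℤ} {θ : ℝ} (hθ : 0 < θ)
    (hs : Eq U (fun N => a ^ s1 N) θ) (hu : Sz U (fun N => (u1 N : ℝ)) 0)
    (hu0 : ∀ᶠ N : ℕ in U, u1 N ≠ 0) (hQ1 : ∀ N, 1 ≤ Q2 N) (hQ : Sz U (fun N => (Q2 N : ℝ)) 0)
    (hdvd : ∀ᶠ N : ℕ in U,
      (a : ℤ) ^ e1 N ∣ q1 * (u1 N + (a : ℤ) ^ s1 N * G1 N) * (b : ℤ) ^ e2 N * (Q2 N : ℤ))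
    {p : ℕ} (hp : p.Prime) {ε : ℝ} (hε : 0 < ε) :
    ∀ᶠ N : ℕ in U, (e1 N : ℝ) * a.factorization p ≤ e2 N * b.factorization p + ε * N := by
  haveI : Fact p.Prime := ⟨hp⟩
  by_cases hpa : p ∣ a
  swap
  · filter_upwards with N
    rw [Nat.factorization_eq_zero_of_not_dvd hpa]
    simp only [CharP.cast_eq_zero, mul_zero]
    positivity
  have hL : 0 < Real.log a := Real.log_pos (by exact_mod_cast (by omega : 1 < a))
  set c : ℝ := θ / (2 * Real.log a) with hc
  have hc0 : 0 < c := by positivity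
  have h1 := val_small (p := p) hu (ε := min (ε / 3) (c / 2)) (lt_min (by linarith) (by linarith))
  have h2 := val_small (p := p) (z := fun N => (Q2 N : ℤ)) (by simpa using hQ) (ε := ε / 3)
    (by linarith)
  have h3 := val_small (p := p) (z := fun _ => q1) (Sz.const hU (q1 : ℝ)) (ε := ε / 3)
    (by linarith)
  filter_upwards [h1, h2, h3, pos_lower hU ha hθ hs, hdvd, hu0, ev_ge hU 1] with N a1 a2 a3 a4 a5
    a6 a7
  have b1 := a1 a6
  have hQne : (Q2 N : ℤ) ≠ 0 := by have := hQ1 N; exact_mod_cast (by omega : Q2 N ≠ 0)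
  have b2 := a2 hQne
  have b3 := a3 hq1
  have hlt : padicValInt p (u1 N) < s1 N := by
    have h4 : (padicValInt p (u1 N) : ℝ) < s1 N := by
      have h5 := min_le_right (ε / 3) (c / 2)
      have h6 : min (ε / 3) (c / 2) * (N : ℝ) ≤ c / 2 * N :=
        mul_le_mul_of_nonneg_right h5 (by linarith)
      have h7 : c / 2 * (N : ℝ) < c * N := by nlinarith
      linarith
    exact_mod_cast h4
  obtain ⟨hw0, hw⟩ := val_add (p := p) hpa (G := G1 N) a6 hlt
  have hbne : (b : ℤ) ^ e2 N ≠ 0 := pow_ne_zero _ (by exact_mod_cast (by omega : b ≠ 0))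
  have h8 : ((p : ℤ) ^ (a.factorization p)) ^ e1 N ∣
      q1 * (u1 N + (a : ℤ) ^ s1 N * G1 N) * (b : ℤ) ^ e2 N * (Q2 N : ℤ) := by
    refine dvd_trans (pow_dvd_pow_of_dvd ?_ _) a5
    exact_mod_cast Nat.ordProj_dvd a p
  rw [← pow_mul, padicValInt_dvd_iff] at h8
  have hne : q1 * (u1 N + (a : ℤ) ^ s1 N * G1 N) * (b : ℤ) ^ e2 N * (Q2 N : ℤ) ≠ 0 :=
    mul_ne_zero (mul_ne_zero (mul_ne_zero hq1 hw0) hbne) hQne
  have h9 := h8.resolve_left hne
  rw [padicValInt.mul (mul_ne_zero (mul_ne_zero hq1 hw0) hbne) hQne,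
    padicValInt.mul (mul_ne_zero hq1 hw0) hbne, padicValInt.mul hq1 hw0] at h9
  have h10 : padicValInt p ((b : ℤ) ^ e2 N) = e2 N * b.factorization p := by
    rw [← Nat.cast_pow, val_nat _ _ hp, Nat.factorization_pow]
    simp
  rw [h10] at h9
  have h11 : ((a.factorization p * e1 N : ℕ) : ℝ) ≤ ((padicValInt p q1 +
      padicValInt p (u1 N) + e2 N * b.factorization p + padicValInt p (Q2 N : ℤ) : ℕ) : ℝ) := by
    exact_mod_cast h9.trans (by omega)
  push_cast at h11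
  have h12 := min_le_left (ε / 3) (c / 2)
  have h13 : min (ε / 3) (c / 2) * (N : ℝ) ≤ ε / 3 * N :=
    mul_le_mul_of_nonneg_right h12 (by linarith)
  nlinarith

end Pool.Agent.V5helper55.TB
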