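import Mathlib
import Pool.Agent.V5helper55.TB.Val

/-!
# The two contradictions
-/

set_option autoImplicit false

open Filter Topology Finset

namespace Pool.Agent.V5helper55.TB

variable {U : Ultrafilter ℕ}

lemma Sz.neg_const (hU : (U : Filter ℕ) ≤ atTop) {t c : ℝ} (h : Sz U (fun _ => t) c) (hc : c < 0) :
    t = 0 := by
  by_contra ht
  have h1 : 0 < |t| := abs_pos.2 ht
  have h2 := h (-c / 2) (by linarith)
  obtain ⟨N, h3, h4⟩ := (h2.and (ev_ge hU ((-Real.log |t| + 1) / (-c / 2)))).exists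
  rw [div_le_iff₀ (by linarith)] at h4
  rw [← Real.log_le_iff_le_exp h1] at h3
  nlinarith

/-- **First contradiction**: a hyperplane with at most one rational point. -/
theorem no_rep_unique (hU : (U : Filter ℕ) ≤ atTop) {k K : ℕ} (b : Fin k → ℕ)
    (hb : ∀ i, 2 ≤ b i) (x α : Fin k → ℝ) (hα : ∀ i, IsAlgebraic ℚ (α i)) {γ : ℝ}
    (hγ : IsAlgebraic ℚ γ) (hrel : ∑ i, α i * x i = γ)
    (huniq : ∀ q q' : Fin k → ℚ, ∑ i, α i * (q i : ℝ) = γ → ∑ i, α i * (q' i : ℝ) = γ → q = q')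
    (hx : ∃ i, Irrational (x i)) {R : ℝ} (hR : (k : ℝ) < R)
    (p : ∀ i, Rep U (b i) (x i) R K) : False := by
  have hR0 : 0 < R := lt_of_le_of_lt (Nat.cast_nonneg k) hR
  have h1 := rep_relation hU b hb x α hα hγ hrel hR p
  obtain ⟨N0, hN0⟩ := h1.exists
  obtain ⟨i, hi⟩ := hx
  have h2 : Sz U (fun _ => x i - ((p i).val N0 : ℝ)) (-R) := by
    refine ((p i).err).of_le ?_
    filter_upwards [h1] with N hN
    have h3 := huniq (fun j => (p j).val N) (fun j => (p j).val N0) hN hN0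
    rw [congrFun h3 i]
  have h3 := h2.neg_const hU (by linarith)
  exact hi ⟨(p i).val N0, by linarith⟩

/-- small denominators contradict the irrationality measure -/
lemma no_small_den (hU : (U : Filter ℕ) ≤ atTop) {b : ℕ} (hb : 2 ≤ b) {x R μ c : ℝ} {K : ℕ}
    (p : Rep U b x R K) (hμ0 : 0 ≤ μ) (hμ : μ < R) (hc : 0 < c)
    (hmeas : ∀ q : ℕ, 1 ≤ q → ∀ r : ℤ, c ≤ |x - r / q| * (q : ℝ) ^ μ)
    (e : ℕ → ℕ) (A : ℕ → ℤ) (he : Sz U (fun N => ((b ^ e N : ℕ) : ℝ)) 1)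
    (h : ∀ᶠ N : ℕ in U, ∑ r ∈ Finset.univ, (p.u N r : ℚ) / (b : ℚ) ^ (p.n N r) =
      A N / (b : ℚ) ^ e N) : False := by
  have hg : 0 < R - μ := by linarith
  set ε : ℝ := (R - μ) / (2 * (1 + 2 * μ)) with hε
  have hε0 : 0 < ε := by positivity
  have hε1 : ε * (1 + 2 * μ) = (R - μ) / 2 := by rw [hε]; field_simp
  obtain ⟨N, h1, h2, h3, h4, h5⟩ := ((he ε hε0).and ((p.hQ ε hε0).and ((p.err ε hε0).and
    (h.and (ev_ge hU ((-Real.log c + 1) / ((R - μ) / 2))))))).exists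
  have hb0 : (0 : ℝ) < b := by exact_mod_cast (by omega : 0 < b)
  have hQ1 : (1 : ℝ) ≤ p.Q N := by exact_mod_cast p.hQ1 N
  beta_reduce at h1 h2 h3
  set q : ℕ := b ^ e N * p.Q N with hq
  have hq1 : 1 ≤ q := Nat.one_le_iff_ne_zero.2 (Nat.mul_ne_zero (pow_ne_zero _ (by omega))
    (by have := p.hQ1 N; omega))
  have hval : ((p.val N : ℚ) : ℝ) = (A N : ℝ) / (q : ℝ) := by
    have h6 : p.val N = (A N : ℚ) / (q : ℚ) := by
      unfold Rep.val
      rw [h4, hq]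
      push_cast
      rw [div_div]
    rw [h6]
    push_cast
    rfl
  rw [hval] at h3
  have h6 := hmeas q hq1 (A N)
  have hqle : (q : ℝ) ≤ Real.exp ((1 + 2 * ε) * N) := by
    rw [hq]
    push_cast
    rw [abs_of_nonneg (by positivity)] at h1 h2
    push_cast at h1
    calc (b : ℝ) ^ e N * p.Q N ≤ Real.exp ((1 + ε) * N) * Real.exp ((0 + ε) * N) :=
          mul_le_mul h1 h2 (by positivity) (Real.exp_pos _).le
      _ = Real.exp ((1 + 2 * ε) * N) := by rw [← Real.exp_add]; congr 1; ring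
  have hq0 : (0 : ℝ) ≤ q := Nat.cast_nonneg _
  have h7 : (q : ℝ) ^ μ ≤ Real.exp ((1 + 2 * ε) * N * μ) := by
    calc (q : ℝ) ^ μ ≤ (Real.exp ((1 + 2 * ε) * N)) ^ μ := Real.rpow_le_rpow hq0 hqle hμ0
      _ = Real.exp ((1 + 2 * ε) * N * μ) := by rw [← Real.exp_mul]
  have h8 : c ≤ Real.exp ((-R + ε) * N) * Real.exp ((1 + 2 * ε) * N * μ) :=
    h6.trans (mul_le_mul h3 h7 (Real.rpow_nonneg hq0 _) (Real.exp_pos _).le)
  rw [← Real.exp_add, ← Real.log_le_iff_le_exp hc] at h8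
  rw [div_le_iff₀ (by positivity)] at h5
  have h9 : (-R + ε) * (N : ℝ) + (1 + 2 * ε) * N * μ = -((R - μ) / 2) * N := by
    have : (-R + ε) * (N : ℝ) + (1 + 2 * ε) * N * μ = (-R + μ + ε * (1 + 2 * μ)) * N := by ring
    rw [this, hε1]; ring
  rw [h9] at h8
  linarith

/-- **Second contradiction**: multiplicatively independent bases. -/
theorem no_rep_indep (hU : (U : Filter ℕ) ≤ atTop) {K : ℕ} {a b : ℕ} (ha : 2 ≤ a) (hb : 2 ≤ b)
    (hab : ∀ k l : ℕ, a ^ k = b ^ l → k = 0 ∧ l = 0) {x y : ℝ} {q1 q2 q3 : ℤ} (hq1 : q1 ≠ 0)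
    (hq2 : q2 ≠ 0) (hrel : (q1 : ℝ) * x + q2 * y = q3) {μ c R : ℝ} (hμ0 : 0 ≤ μ) (hc : 0 < c)
    (hmeas : ∀ q : ℕ, 1 ≤ q → ∀ r : ℤ, c ≤ |x - r / q| * (q : ℝ) ^ μ) (hμ : μ < R) (hR : 2 < R)
    (p1 : Rep U a x R K) (p2 : Rep U b y R K) : False := by
  have hq1R : (q1 : ℝ) ≠ 0 := by exact_mod_cast hq1
  have hq2R : (q2 : ℝ) ≠ 0 := by exact_mod_cast hq2
  -- the exact relation
  have hex : ∀ᶠ N : ℕ in U, (q1 : ℚ) * p1.val N + q2 * p2.val N = q3 := by
    let P : ∀ i : Fin 2, Rep U (![a, b] i) (![x, y] i) R K := fun i =>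
      Fin.cases (motive := fun i => Rep U (![a, b] i) (![x, y] i) R K) p1
        (fun j => Fin.cases (motive := fun j => Rep U (![a, b] j.succ) (![x, y] j.succ) R K) p2
          (fun k => k.elim0) j) i
    have h1 := rep_relation hU ![a, b] (by intro i; fin_cases i; exacts [ha, hb]) ![x, y]
      ![(q1 : ℝ), (q2 : ℝ)] (by
        intro i
        fin_cases i
        · exact isAlgebraic_intCast q1
        · exact isAlgebraic_intCast q2)
      (γ := (q3 : ℝ)) (isAlgebraic_intCast q3) (by rw [Fin.sum_univ_two]; simpa using hrel)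
      (R := R) (by norm_num; exact hR) P
    filter_upwards [h1] with N hN
    rw [Fin.sum_univ_two] at hN
    have h2 : (q1 : ℝ) * ((p1.val N : ℚ) : ℝ) + q2 * ((p2.val N : ℚ) : ℝ) = q3 := hN
    exact_mod_cast h2
  -- the measure of `y`
  have hmeas2 : ∀ q : ℕ, 1 ≤ q → ∀ r : ℤ,
      |(q1 : ℝ)| / |(q2 : ℝ)| * c / |(q1 : ℝ)| ^ μ ≤ |y - r / q| * (q : ℝ) ^ μ := by
    intro q hq r
    have hq0 : (0 : ℝ) < q := by exact_mod_cast hq
    have h1 := hmeas (q1.natAbs * q) (Nat.mul_pos (Int.natAbs_pos.2 hq1) hq)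
      (q1.sign * (q3 * q - q2 * r))
    have h2 : ((q1.natAbs : ℕ) : ℝ) = |(q1 : ℝ)| := by
      rw [Nat.cast_natAbs]; push_cast; rfl
    have h5 : (q1.sign : ℝ) / |(q1 : ℝ)| = 1 / q1 := by
      rcases lt_or_gt_of_ne hq1 with h | h
      · have h' : (q1 : ℝ) < 0 := by exact_mod_cast h
        rw [Int.sign_eq_neg_one_of_neg h, abs_of_neg h']
        push_cast
        rw [neg_div_neg_eq]
      · have h' : (0 : ℝ) < q1 := by exact_mod_cast h
        rw [Int.sign_eq_one_of_pos h, abs_of_pos h']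
        push_cast
        rfl
    have h4 : x - ((q1.sign * (q3 * q - q2 * r) : ℤ) : ℝ) / ((q1.natAbs * q : ℕ) : ℝ) =
        -(q2 / q1) * (y - r / q) := by
      have h6 : ((q1.sign * (q3 * q - q2 * r) : ℤ) : ℝ) / ((q1.natAbs * q : ℕ) : ℝ) =
          ((q1.sign : ℝ) / |(q1 : ℝ)|) * ((q3 * q - q2 * r) / q) := by
        rw [Nat.cast_mul, h2]
        push_cast
        rw [mul_div_mul_comm]
      rw [h6, h5]
      have h7 : x = (q3 - q2 * y) / q1 := by
        rw [eq_div_iff hq1R]; linarith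
      rw [h7]
      field_simp
      ring
    rw [h4, abs_mul, abs_neg, abs_div] at h1
    have hpos : 0 < |(q1 : ℝ)| := abs_pos.2 hq1R
    have hpos2 : 0 < |(q2 : ℝ)| := abs_pos.2 hq2R
    have hposμ : 0 < |(q1 : ℝ)| ^ μ := Real.rpow_pos_of_pos hpos _
    rw [Nat.cast_mul, h2, Real.mul_rpow hpos.le hq0.le] at h1
    rw [div_le_iff₀ hposμ]
    have h8 : |(q1 : ℝ)| / |(q2 : ℝ)| * c ≤ |(q1 : ℝ)| / |(q2 : ℝ)| *
        (|(q2 : ℝ)| / |(q1 : ℝ)| * |y - r / q| * (|(q1 : ℝ)| ^ μ * (q : ℝ) ^ μ)) :=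
      mul_le_mul_of_nonneg_left h1 (by positivity)
    refine h8.trans (le_of_eq ?_)
    field_simp
  rcases cluster hU ha p1 Finset.univ with ⟨e, A, h1, h2⟩ | ⟨e1, s1, u1, G1, t1, θ1, ht1, hθ1, he1,
    hs1, hu1, h1⟩
  · exact no_small_den hU ha p1 hμ0 hμ hc hmeas e A h1 h2
  rcases cluster hU hb p2 Finset.univ with ⟨e, A, h1, h2⟩ | ⟨e2, s2, u2, G2, t2, θ2, ht2, hθ2, he2,
    hs2, hu2, h2⟩
  · have hpos : 0 < |(q1 : ℝ)| := abs_pos.2 hq1R
    have hpos2 : 0 < |(q2 : ℝ)| := abs_pos.2 hq2R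
    have hposμ : 0 < |(q1 : ℝ)| ^ μ := Real.rpow_pos_of_pos hpos _
    exact no_small_den hU hb p2 hμ0 hμ (by positivity) hmeas2 e A h1 h2
  -- the integral relation
  have hint : ∀ᶠ N : ℕ in U,
      q1 * (u1 N + (a : ℤ) ^ s1 N * G1 N) * (b : ℤ) ^ e2 N * (p2.Q N : ℤ) +
      q2 * (u2 N + (b : ℤ) ^ s2 N * G2 N) * (a : ℤ) ^ e1 N * (p1.Q N : ℤ) =
      q3 * (a : ℤ) ^ e1 N * (b : ℤ) ^ e2 N * (p1.Q N : ℤ) * (p2.Q N : ℤ) := by
    filter_upwards [hex, h1, h2] with N a1 a2 a3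
    have ha0 : (a : ℚ) ≠ 0 := by exact_mod_cast (by omega : a ≠ 0)
    have hb0 : (b : ℚ) ≠ 0 := by exact_mod_cast (by omega : b ≠ 0)
    have hQ1 : (p1.Q N : ℚ) ≠ 0 := by
      have := p1.hQ1 N; exact_mod_cast (by omega : p1.Q N ≠ 0)
    have hQ2 : (p2.Q N : ℚ) ≠ 0 := by
      have := p2.hQ1 N; exact_mod_cast (by omega : p2.Q N ≠ 0)
    unfold Rep.val at a1
    rw [a2.2, a3.2] at a1
    have h5 : (q1 : ℚ) * (u1 N + (a : ℚ) ^ s1 N * G1 N) * (b : ℚ) ^ e2 N * (p2.Q N : ℚ) +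
      q2 * (u2 N + (b : ℚ) ^ s2 N * G2 N) * (a : ℚ) ^ e1 N * (p1.Q N : ℚ) =
      q3 * (a : ℚ) ^ e1 N * (b : ℚ) ^ e2 N * (p1.Q N : ℚ) * (p2.Q N : ℚ) := by
      rw [← a1]
      field_simp
    exact_mod_cast h5
  have hd1 : ∀ᶠ N : ℕ in U,
      (a : ℤ) ^ e1 N ∣ q1 * (u1 N + (a : ℤ) ^ s1 N * G1 N) * (b : ℤ) ^ e2 N * (p2.Q N : ℤ) := by
    filter_upwards [hint] with N hN
    refine (Dvd.intro (q3 * (b : ℤ) ^ e2 N * (p1.Q N : ℤ) * (p2.Q N : ℤ) -
      q2 * (u2 N + (b : ℤ) ^ s2 N * G2 N) * (p1.Q N : ℤ)) ?_)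
    linear_combination -hN
  have hd2 : ∀ᶠ N : ℕ in U,
      (b : ℤ) ^ e2 N ∣ q2 * (u2 N + (b : ℤ) ^ s2 N * G2 N) * (a : ℤ) ^ e1 N * (p1.Q N : ℤ) := by
    filter_upwards [hint] with N hN
    refine (Dvd.intro (q3 * (a : ℤ) ^ e1 N * (p1.Q N : ℤ) * (p2.Q N : ℤ) -
      q1 * (u1 N + (a : ℤ) ^ s1 N * G1 N) * (p2.Q N : ℤ)) ?_)
    linear_combination -hN
  obtain ⟨p, q, hp, hq, hpq⟩ := indep_val ha hb hab
  have hLa : 0 < Real.log a := Real.log_pos (by exact_mod_cast (by omega : 1 < a))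
  set cc : ℝ := t1 / (2 * Real.log a) with hcc
  have hcc0 : 0 < cc := by positivity
  set ε : ℝ := cc / (2 * (b.factorization p + b.factorization q + 1)) with hε
  have hε0 : 0 < ε := by positivity
  have hu1' : ∀ᶠ N : ℕ in U, u1 N ≠ 0 := by filter_upwards [h1] with N hN; exact hN.1
  have hu2' : ∀ᶠ N : ℕ in U, u2 N ≠ 0 := by filter_upwards [h2] with N hN; exact hN.1
  have s1p := side hU ha hb hq1 hθ1 hs1 hu1 hu1' p2.hQ1 p2.hQ hd1 hp hε0
  have s1q := side hU ha hb hq1 hθ1 hs1 hu1 hu1' p2.hQ1 p2.hQ hd1 hq hε0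
  have s2p := side hU hb ha hq2 hθ2 hs2 hu2 hu2' p1.hQ1 p1.hQ hd2 hp hε0
  have s2q := side hU hb ha hq2 hθ2 hs2 hu2 hu2' p1.hQ1 p1.hQ hd2 hq hε0
  obtain ⟨N, b1, b2, b3, b4, b5, b6⟩ := (s1p.and (s1q.and (s2p.and (s2q.and
    ((pos_lower hU ha (by linarith) he1).and (ev_ge hU 1)))))).exists
  have hdet : (1 : ℝ) ≤ |(a.factorization p : ℝ) * b.factorization q -
      a.factorization q * b.factorization p| := by
    have h5 : ((a.factorization p : ℤ) * b.factorization q -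
      a.factorization q * b.factorization p) ≠ 0 := by
      rw [sub_ne_zero]
      exact_mod_cast hpq
    have h6 := Int.one_le_abs h5
    exact_mod_cast h6
  have hP : |(e1 N : ℝ) * a.factorization p - e2 N * b.factorization p| ≤ ε * N := by
    rw [abs_le]; constructor <;> linarith
  have hQ : |(e1 N : ℝ) * a.factorization q - e2 N * b.factorization q| ≤ ε * N := by
    rw [abs_le]; constructor <;> linarith
  have h5 : (e1 N : ℝ) * ((a.factorization p : ℝ) * b.factorization q -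
      a.factorization q * b.factorization p) =
      b.factorization q * ((e1 N : ℝ) * a.factorization p - e2 N * b.factorization p) -
      b.factorization p * ((e1 N : ℝ) * a.factorization q - e2 N * b.factorization q) := by ring
  have h6 : (e1 N : ℝ) * |(a.factorization p : ℝ) * b.factorization q -
      a.factorization q * b.factorization p| ≤
      b.factorization q * (ε * N) + b.factorization p * (ε * N) := by
    calc (e1 N : ℝ) * |(a.factorization p : ℝ) * b.factorization q -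
          a.factorization q * b.factorization p|
        = |(e1 N : ℝ) * ((a.factorization p : ℝ) * b.factorization q -
          a.factorization q * b.factorization p)| := by
          rw [abs_mul, Nat.abs_cast]
      _ ≤ |(b.factorization q : ℝ) * ((e1 N : ℝ) * a.factorization p -
            e2 N * b.factorization p)| + |(b.factorization p : ℝ) *
            ((e1 N : ℝ) * a.factorization q - e2 N * b.factorization q)| := by
          rw [h5]; exact abs_sub _ _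
      _ ≤ b.factorization q * (ε * N) + b.factorization p * (ε * N) := by
          rw [abs_mul, abs_mul, Nat.abs_cast, Nat.abs_cast]
          exact add_le_add (mul_le_mul_of_nonneg_left hP (Nat.cast_nonneg _))
            (mul_le_mul_of_nonneg_left hQ (Nat.cast_nonneg _))
  have h7 : (e1 N : ℝ) ≤ (b.factorization p + b.factorization q) * ε * N := by
    have : (e1 N : ℝ) * 1 ≤ (e1 N : ℝ) * |(a.factorization p : ℝ) * b.factorization q -
      a.factorization q * b.factorization p| :=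
      mul_le_mul_of_nonneg_left hdet (Nat.cast_nonneg _)
    linarith
  have h8 : ((b.factorization p : ℝ) + b.factorization q + 1) * ε = cc / 2 := by
    rw [hε]; field_simp
  have h9 : ((b.factorization p : ℝ) + b.factorization q) * ε * N ≤ cc / 2 * N := by
    refine mul_le_mul_of_nonneg_right ?_ (by linarith)
    nlinarith
  nlinarith

end Pool.Agent.V5helper55.TB
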