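import Mathlib
import Pool.Agent.V5helper55.TB.Fin

/-!
# From words cut into few pieces with short periods to representations
-/

set_option autoImplicit false

open Filter Topology Finset

namespace Pool.Agent.V5helper55.TB

/-- the `n`-th digit of `x` in base `b` -/
noncomputable def digit (b : ℕ) (x : ℝ) (n : ℕ) : ℤ := ⌊x * (b : ℝ) ^ n⌋ % (b : ℤ)

/-- the block `d (m + 1), ..., d M` can be cut into `K` pieces (some may be empty) each of which has
a period `s ≤ p` -/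
def Cut (d : ℕ → ℤ) (m M K : ℕ) (p : ℝ) : Prop :=
  ∃ c : ℕ → ℕ, Monotone c ∧ c 0 = m ∧ c K = M ∧ ∀ r < K, ∃ s : ℕ, 1 ≤ s ∧ (s : ℝ) ≤ p ∧
    ∀ n, c r < n → n + s ≤ c (r + 1) → d (n + s) = d n

lemma Cut.mono {d : ℕ → ℤ} {m M K : ℕ} {p p' : ℝ} (h : Cut d m M K p) (hp : p ≤ p') :
    Cut d m M K p' := by
  obtain ⟨c, h1, h2, h3, h4⟩ := h
  refine ⟨c, h1, h2, h3, fun r hr => ?_⟩
  obtain ⟨s, h5, h6, h7⟩ := h4 r hr
  exact ⟨s, h5, h6.trans hp, h7⟩

lemma Cut.sub {d : ℕ → ℤ} {m M m' M' K : ℕ} {p : ℝ} (h : Cut d m M K p) (h1 : m ≤ m')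
    (h2 : m' ≤ M') (h3 : M' ≤ M) : Cut d m' M' K p := by
  obtain ⟨c, hc1, hc2, hc3, hc4⟩ := h
  refine ⟨fun r => min (max (c r) m') M', ?_, ?_, ?_, fun r hr => ?_⟩
  · intro r s hrs
    exact min_le_min_right _ (max_le_max_right _ (hc1 hrs))
  · simp only [hc2]; omega
  · simp only [hc3]; omega
  · obtain ⟨s, h5, h6, h7⟩ := hc4 r hr
    refine ⟨s, h5, h6, fun n hn hn2 => ?_⟩
    beta_reduce at hn hn2
    have h8 := hc1 (Nat.le_succ r)
    simp only [Nat.succ_eq_add_one] at h8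
    exact h7 n (by omega) (by omega)

lemma Cut.succ_pieces {d : ℕ → ℤ} {m M K K' : ℕ} {p : ℝ} (h : Cut d m M K p) (hK : K ≤ K')
    (hp : 1 ≤ p) : Cut d m M K' p := by
  obtain ⟨c, hc1, hc2, hc3, hc4⟩ := h
  refine ⟨fun r => c (min r K), fun r s hrs => hc1 (min_le_min_right _ hrs), by simp [hc2], ?_,
    fun r hr => ?_⟩
  · simp only; rw [min_eq_right hK, hc3]
  · by_cases h1 : r < K
    · obtain ⟨s, h5, h6, h7⟩ := hc4 r h1
      refine ⟨s, h5, h6, ?_⟩
      simp only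
      rw [min_eq_left h1.le, min_eq_left (by omega : r + 1 ≤ K)]
      exact h7
    · refine ⟨1, le_refl _, by simpa using hp, ?_⟩
      simp only
      rw [min_eq_right (by omega : K ≤ r), min_eq_right (by omega : K ≤ r + 1)]
      intro n h2 h3
      omega

section piece

variable {b : ℕ} {x : ℝ}

/-- the truncations -/
noncomputable def tr (b : ℕ) (x : ℝ) (n : ℕ) : ℤ := ⌊x * (b : ℝ) ^ n⌋

lemma tr_succ (hb : 2 ≤ b) (n : ℕ) : tr b x (n + 1) = b * tr b x n + digit b x (n + 1) := by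
  have h1 : tr b x (n + 1) / (b : ℤ) = tr b x n := by
    unfold tr
    have h2 : (⌊x * (b : ℝ) ^ (n + 1) / ((b : ℕ) : ℝ)⌋ : ℤ) = ⌊x * (b : ℝ) ^ (n + 1)⌋ / (b : ℤ) :=
      Int.floor_div_natCast _ _
    rw [← h2]
    congr 1
    have : (b : ℝ) ≠ 0 := by exact_mod_cast (by omega : b ≠ 0)
    rw [pow_succ]
    field_simp
  have h2 := Int.mul_ediv_add_emod (tr b x (n + 1)) (b : ℤ)
  rw [h1] at h2
  unfold digit
  rw [show ⌊x * (b : ℝ) ^ (n + 1)⌋ = tr b x (n + 1) from rfl]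
  linarith

lemma digit_bd (hb : 2 ≤ b) (n : ℕ) : 0 ≤ digit b x n ∧ digit b x n < b := by
  have hb0 : (0 : ℤ) < b := by exact_mod_cast (by omega : 0 < b)
  exact ⟨Int.emod_nonneg _ (by omega), Int.emod_lt_of_pos _ hb0⟩

lemma tr_add (hb : 2 ≤ b) (n j : ℕ) :
    0 ≤ tr b x (n + j) - (b : ℤ) ^ j * tr b x n ∧
      tr b x (n + j) - (b : ℤ) ^ j * tr b x n < (b : ℤ) ^ j := by
  induction j with
  | zero => simp
  | succ j ih =>
    have h1 := tr_succ (x := x) hb (n + j)
    have h2 := digit_bd (x := x) hb (n + j + 1)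
    rw [← add_assoc, h1, pow_succ]
    have hb0 : (0 : ℤ) < b := by exact_mod_cast (by omega : 0 < b)
    constructor
    · nlinarith [ih.1]
    · nlinarith [ih.2]

/-- the recursion on a piece -/
lemma piece (hb : 2 ≤ b) {c c' s : ℕ} (hc : c ≤ c')
    (h : ∀ n, c < n → n + s ≤ c' → digit b x (n + s) = digit b x n) :
    ∃ P P' : ℤ, |P| ≤ (b : ℤ) ^ (2 * s) ∧ |P'| ≤ (b : ℤ) ^ (2 * s) ∧
      ((b : ℤ) ^ s - 1) * tr b x c' =
        (b : ℤ) ^ (c' - c) * (((b : ℤ) ^ s - 1) * tr b x c + P) - P' := by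
  have hb1 : (1 : ℤ) ≤ b := by exact_mod_cast (by omega : 1 ≤ b)
  have hbs : (1 : ℤ) ≤ (b : ℤ) ^ s := one_le_pow₀ hb1
  have h2s : (b : ℤ) ^ (2 * s) = (b : ℤ) ^ s * (b : ℤ) ^ s := by rw [two_mul, pow_add]
  rcases lt_or_ge (c' - c) s with hlt | hge
  · -- short piece
    obtain ⟨h1, h2⟩ := tr_add (x := x) hb c (c' - c)
    rw [show c + (c' - c) = c' by omega] at h1 h2
    refine ⟨0, -(((b : ℤ) ^ s - 1) * (tr b x c' - (b : ℤ) ^ (c' - c) * tr b x c)), ?_, ?_, ?_⟩
    · rw [abs_zero]; positivity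
    · rw [abs_neg, abs_mul, abs_of_nonneg (by linarith : (0 : ℤ) ≤ (b : ℤ) ^ s - 1),
        abs_of_nonneg h1, h2s]
      have h3 : (b : ℤ) ^ (c' - c) ≤ (b : ℤ) ^ s := pow_le_pow_right₀ hb1 hlt.le
      exact mul_le_mul (by linarith) (by linarith) h1 (by linarith)
    · ring
  · -- long piece
    set V : ℕ → ℤ := fun n => tr b x (n + s) - tr b x n with hV
    have hstep : ∀ j, c + j + s ≤ c' → V (c + j) = (b : ℤ) ^ j * V c := by
      intro j
      induction j with
      | zero => intro _; simp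
      | succ j ih =>
        intro hj
        have h1 := ih (by omega)
        have h2 : V (c + (j + 1)) = b * V (c + j) := by
          simp only [hV]
          have h3 := tr_succ (x := x) hb (c + j + s)
          have h4 := tr_succ (x := x) hb (c + j)
          have h5 := h (c + j + 1) (by omega) (by omega)
          rw [show c + (j + 1) + s = c + j + s + 1 by ring, show c + (j + 1) = c + j + 1 by ring,
            h3, h4]
          rw [show c + j + 1 + s = c + j + s + 1 by ring] at h5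
          rw [h5]
          ring
        rw [h2, h1, pow_succ]
        ring
    have h1 := hstep (c' - s - c) (by omega)
    have h2 : c + (c' - s - c) = c' - s := by omega
    rw [h2] at h1
    simp only [hV] at h1
    rw [show c' - s + s = c' by omega] at h1
    obtain ⟨h3, h4⟩ := tr_add (x := x) hb (c' - s) s
    rw [show c' - s + s = c' by omega] at h3 h4
    obtain ⟨h5, h6⟩ := tr_add (x := x) hb c s
    have h7 : (b : ℤ) ^ s ≤ (b : ℤ) ^ (2 * s) := by rw [h2s]; nlinarith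
    refine ⟨tr b x (c + s) - (b : ℤ) ^ s * tr b x c, tr b x c' - (b : ℤ) ^ s * tr b x (c' - s),
      ?_, ?_, ?_⟩
    · rw [abs_of_nonneg h5]; linarith
    · rw [abs_of_nonneg h3]; linarith
    · have h8 : (b : ℤ) ^ (c' - c) = (b : ℤ) ^ (c' - s - c) * (b : ℤ) ^ s := by
        rw [← pow_add]; congr 1; omega
      rw [h8]
      linear_combination (b : ℤ) ^ s * h1

end piece

end Pool.Agent.V5helper55.TB
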