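import Mathlib
import Pool.Agent.V5helper55.TB.Word

/-!
# From words cut into few pieces with short periods to representations, continued
-/

set_option autoImplicit false

open Filter Topology Finset

namespace Pool.Agent.V5helper55.TB

variable {U : Ultrafilter ℕ}

lemma exists_lim (hU : (U : Filter ℕ) ≤ atTop) {b : ℕ} (hb : 2 ≤ b) {R : ℝ} (hR : 1 ≤ R)
    {n : ℕ → ℕ} (h : ∀ᶠ N : ℕ in U, pos b 1 N ≤ n N ∧ n N ≤ pos b R N) :
    ∃ τ : ℝ, 1 ≤ τ ∧ τ ≤ R ∧ Eq U (fun N => b ^ n N) τ := by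
  have hb0 : (0 : ℝ) < b := by exact_mod_cast (by omega : 0 < b)
  have hL : 0 < Real.log b := Real.log_pos (by exact_mod_cast (by omega : 1 < b))
  let t : ℕ → ℝ := fun N => n N * Real.log b / N
  have hbd : ∀ᶠ N : ℕ in U, t N ∈ Set.Icc (0 : ℝ) (R + Real.log b) := by
    filter_upwards [h, ev_ge hU 1] with N h1 h2
    have h2' : (0 : ℝ) < N := by linarith
    refine ⟨by positivity, ?_⟩
    simp only [t]
    rw [div_le_iff₀ h2']
    have h3 : (n N : ℝ) ≤ pos b R N := by exact_mod_cast h1.2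
    have h4 : (pos b R N : ℝ) < R * N / Real.log b + 1 := Nat.ceil_lt_add_one (by positivity)
    have h5 : (n N : ℝ) * Real.log b ≤ (R * N / Real.log b + 1) * Real.log b :=
      mul_le_mul_of_nonneg_right (by linarith) hL.le
    have h6 : (R * N / Real.log b + 1) * Real.log b = R * N + Real.log b := by field_simp
    nlinarith
  obtain ⟨τ, hτ, hlim⟩ := (isCompact_Icc (a := (0 : ℝ)) (b := R + Real.log b)).ultrafilter_le_nhds
    (U.map t) (by
      rw [le_principal_iff]
      exact hbd)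
  have hlim' : Tendsto t U (𝓝 τ) := hlim
  have hEq : Eq U (fun N => b ^ n N) τ := by
    intro ε hε
    have h1 := (tendsto_order.1 hlim').1 (τ - ε) (by linarith)
    have h2 := (tendsto_order.1 hlim').2 (τ + ε) (by linarith)
    filter_upwards [h1, h2, ev_ge hU 1] with N a1 a2 a3
    have a3' : (0 : ℝ) < N := by linarith
    simp only [t] at a1 a2
    rw [lt_div_iff₀ a3'] at a1
    rw [div_lt_iff₀ a3'] at a2
    push_cast
    have h3 : (b : ℝ) ^ n N = Real.exp (n N * Real.log b) := by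
      rw [← Real.rpow_natCast, Real.rpow_def_of_pos hb0]; congr 1; ring
    rw [h3]
    exact ⟨Real.exp_le_exp.2 a1.le, Real.exp_le_exp.2 a2.le⟩
  refine ⟨τ, ?_, ?_, hEq⟩
  · by_contra hlt
    push Not at hlt
    have h1 := Eq.lt_of hb hU hEq (pos_eq hU hb zero_le_one) hlt
    obtain ⟨N, h2, h3⟩ := (h.and h1).exists
    omega
  · by_contra hlt
    push Not at hlt
    have h1 := Eq.lt_of hb hU (pos_eq hU hb (by linarith)) hEq hlt
    obtain ⟨N, h2, h3⟩ := (h.and h1).exists
    omega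

/-- dropping the terms at the end of the window -/
lemma trim (hU : (U : Filter ℕ) ≤ atTop) {b : ℕ} (hb : 2 ≤ b) {x R : ℝ} (hR : 1 < R) {K : ℕ}
    (Q : ℕ → ℕ) (u : ℕ → Fin (K + 1) → ℤ) (n : ℕ → Fin (K + 1) → ℕ) (τ : Fin (K + 1) → ℝ)
    (hQ1 : ∀ N, 1 ≤ Q N) (hQ : Sz U (fun N => (Q N : ℝ)) 0)
    (hu : ∀ r, Sz U (fun N => (u N r : ℝ)) (if r = 0 then 1 else 0))
    (hn : ∀ r, Eq U (fun N => b ^ (n N r)) (τ r)) (hτ0 : τ 0 = 1) (hτ1 : ∀ r, 1 ≤ τ r)
    (hτR : ∀ r, τ r ≤ R)
    (herr : Sz U (fun N => x - (∑ r, (u N r : ℝ) / (b : ℝ) ^ (n N r)) / Q N) (-R)) :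
    Nonempty (Rep U b x R K) := by
  classical
  refine ⟨⟨Q, fun N r => if τ r < R then u N r else 0, fun N r => if τ r < R then n N r else
    pos b 1 N, fun r => if τ r < R then τ r else 1, hQ1, hQ, fun r => ?_, fun r => ?_, ?_,
    fun r => ?_, fun r => ?_, ?_⟩⟩
  · by_cases h : τ r < R
    · simp only [h, if_true]; exact hu r
    · simp only [h, if_false]
      have h1 := (Sz.const hU (0 : ℝ)).mono
        (show (0 : ℝ) ≤ if r = 0 then 1 else 0 by split_ifs <;> norm_num)
      simpa using h1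
  · by_cases h : τ r < R
    · simp only [h, if_true]; exact hn r
    · simp only [h, if_false]; exact pos_eq hU hb zero_le_one
  · rw [hτ0, if_pos hR]
  · split_ifs
    · exact hτ1 r
    · exact le_refl _
  · split_ifs with h
    · exact h
    · exact hR
  · have h1 : Sz U (fun N => ∑ r ∈ Finset.univ.filter (fun r => ¬ τ r < R),
        (u N r : ℝ) * (((b ^ (n N r) : ℕ) : ℝ))⁻¹) (-R) := by
      refine Sz.sum hU _ fun r hr => ?_
      have h2 : ¬ τ r < R := (Finset.mem_filter.1 hr).2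
      have h3 : τ r = R := le_antisymm (hτR r) (not_lt.1 h2)
      have hr0 : r ≠ 0 := by
        rintro rfl
        rw [hτ0] at h3
        linarith
      have h4 := (hu r).mul (hn r).inv
      rw [if_neg hr0, h3, zero_add] at h4
      exact h4
    have h2 : Sz U (fun N => (∑ r ∈ Finset.univ.filter (fun r => ¬ τ r < R),
        (u N r : ℝ) * (((b ^ (n N r) : ℕ) : ℝ))⁻¹) / Q N) (-R) := by
      refine h1.of_le (Eventually.of_forall fun N => ?_)
      have : (1 : ℝ) ≤ Q N := by exact_mod_cast hQ1 N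
      rw [abs_div, Nat.abs_cast]
      exact div_le_self (abs_nonneg _) this
    intro ε hε
    filter_upwards [herr (ε / 2) (by linarith), h2 (ε / 2) (by linarith),
      Sz.const hU (2 : ℝ) (ε / 2) (by linarith)] with N a1 a2 a3
    have h3 : ∑ r, (((if τ r < R then u N r else 0 : ℤ)) : ℝ) /
        (b : ℝ) ^ (if τ r < R then n N r else pos b 1 N) =
        ∑ r, (u N r : ℝ) / (b : ℝ) ^ (n N r) -
        ∑ r ∈ Finset.univ.filter (fun r => ¬ τ r < R),
          (u N r : ℝ) * (((b ^ (n N r) : ℕ) : ℝ))⁻¹ := by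
      rw [Finset.sum_filter, ← Finset.sum_sub_distrib]
      refine Finset.sum_congr rfl fun r _ => ?_
      by_cases h : τ r < R
      · simp [h]
      · simp [h, div_eq_mul_inv]
    rw [h3, sub_div]
    beta_reduce at a1 a2 a3
    have h4 : x - ((∑ r, (u N r : ℝ) / (b : ℝ) ^ (n N r)) / Q N -
        (∑ r ∈ Finset.univ.filter (fun r => ¬ τ r < R),
          (u N r : ℝ) * (((b ^ (n N r) : ℕ) : ℝ))⁻¹) / Q N) =
        (x - (∑ r, (u N r : ℝ) / (b : ℝ) ^ (n N r)) / Q N) +
        (∑ r ∈ Finset.univ.filter (fun r => ¬ τ r < R),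
          (u N r : ℝ) * (((b ^ (n N r) : ℕ) : ℝ))⁻¹) / Q N := by ring
    rw [h4]
    calc |(x - (∑ r, (u N r : ℝ) / (b : ℝ) ^ (n N r)) / Q N) +
        (∑ r ∈ Finset.univ.filter (fun r => ¬ τ r < R),
          (u N r : ℝ) * (((b ^ (n N r) : ℕ) : ℝ))⁻¹) / Q N|
        ≤ Real.exp ((-R + ε / 2) * N) + Real.exp ((-R + ε / 2) * N) :=
          (abs_add_le _ _).trans (add_le_add a1 a2)
      _ = 2 * Real.exp ((-R + ε / 2) * N) := by ring
      _ ≤ Real.exp ((0 + ε / 2) * N) * Real.exp ((-R + ε / 2) * N) := by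
          refine mul_le_mul_of_nonneg_right ?_ (Real.exp_pos _).le
          rwa [abs_of_pos (by norm_num : (0 : ℝ) < 2)] at a3
      _ = Real.exp ((-R + ε) * N) := by rw [← Real.exp_add]; congr 1; ring

/-- telescoping over the pieces -/
lemma tele {b : ℕ} (hb : 2 ≤ b) {x : ℝ} {K : ℕ} {c s : ℕ → ℕ} {P P' : ℕ → ℤ} (hc : Monotone c)
    (hs : ∀ r < K, 1 ≤ s r)
    (h : ∀ r < K, ((b : ℤ) ^ s r - 1) * tr b x (c (r + 1)) =
      (b : ℤ) ^ (c (r + 1) - c r) * (((b : ℤ) ^ s r - 1) * tr b x (c r) + P r) - P' r) :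
    (tr b x (c K) : ℝ) / (b : ℝ) ^ c K = (tr b x (c 0) : ℝ) / (b : ℝ) ^ c 0 +
      ∑ r ∈ Finset.range K, ((P r : ℝ) / (b : ℝ) ^ c r - (P' r : ℝ) / (b : ℝ) ^ c (r + 1)) /
        ((b : ℝ) ^ s r - 1) := by
  have hb0 : (b : ℝ) ≠ 0 := by exact_mod_cast (by omega : b ≠ 0)
  have hb1 : (1 : ℝ) < b := by exact_mod_cast (by omega : 1 < b)
  induction K with
  | zero => simp
  | succ K ih =>
    rw [Finset.sum_range_succ, ← add_assoc,
      ← ih (fun r hr => hs r (by omega)) (fun r hr => h r (by omega))]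
    have h1 := h K (by omega)
    have h2 : ((b : ℝ) ^ s K - 1) * tr b x (c (K + 1)) =
      (b : ℝ) ^ (c (K + 1) - c K) * (((b : ℝ) ^ s K - 1) * tr b x (c K) + P K) - P' K := by
      exact_mod_cast h1
    have h3 : (1 : ℝ) < (b : ℝ) ^ s K := one_lt_pow₀ hb1 (by have := hs K (by omega); omega)
    have h4 : (b : ℝ) ^ s K - 1 ≠ 0 := by linarith
    have h5 : (b : ℝ) ^ c (K + 1) = (b : ℝ) ^ (c (K + 1) - c K) * (b : ℝ) ^ c K := by
      rw [← pow_add]
      congr 1
      have := hc (Nat.le_succ K)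
      simp only [Nat.succ_eq_add_one] at this
      omega
    have h6 : (tr b x (c (K + 1)) : ℝ) = ((b : ℝ) ^ (c (K + 1) - c K) *
        (((b : ℝ) ^ s K - 1) * tr b x (c K) + P K) - P' K) / ((b : ℝ) ^ s K - 1) := by
      rw [eq_div_iff h4]; linarith
    rw [h6, h5]
    have h7 : (b : ℝ) ^ (c (K + 1) - c K) ≠ 0 := pow_ne_zero _ hb0
    field_simp
    ring

/-- **Windows cut into few pieces with short periods have representations.** -/
theorem rep_of_cuts (hU : (U : Filter ℕ) ≤ atTop) {b : ℕ} (hb : 2 ≤ b) {x R : ℝ} (hR : 1 < R)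
    {K : ℕ} {p : ℕ → ℝ} (hp : ∀ ε : ℝ, 0 < ε → ∀ᶠ N : ℕ in U, p N ≤ ε * N)
    (h : ∀ᶠ N : ℕ in U, Cut (digit b x) (pos b 1 N) (pos b R N) K (p N)) :
    Nonempty (Rep U b x R (K + K)) := by
  classical
  have hb0 : (0 : ℝ) < b := by exact_mod_cast (by omega : 0 < b)
  have hb1 : (1 : ℝ) < b := by exact_mod_cast (by omega : 1 < b)
  have hL : 0 < Real.log b := Real.log_pos hb1
  -- choice of the data
  have h1 : ∀ᶠ N : ℕ in U, ∃ w : (ℕ → ℕ) × (ℕ → ℕ) × (ℕ → ℤ) × (ℕ → ℤ), Monotone w.1 ∧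
      w.1 0 = pos b 1 N ∧ w.1 K = pos b R N ∧ ∀ r < K, 1 ≤ w.2.1 r ∧ (w.2.1 r : ℝ) ≤ p N ∧
      |w.2.2.1 r| ≤ (b : ℤ) ^ (2 * w.2.1 r) ∧ |w.2.2.2 r| ≤ (b : ℤ) ^ (2 * w.2.1 r) ∧
      ((b : ℤ) ^ w.2.1 r - 1) * tr b x (w.1 (r + 1)) = (b : ℤ) ^ (w.1 (r + 1) - w.1 r) *
        (((b : ℤ) ^ w.2.1 r - 1) * tr b x (w.1 r) + w.2.2.1 r) - w.2.2.2 r := by
    filter_upwards [h] with N hN
    obtain ⟨c, hc1, hc2, hc3, hc4⟩ := hN
    have h2 : ∀ r, ∃ (s : ℕ) (P P' : ℤ), r < K → (1 ≤ s ∧ (s : ℝ) ≤ p N ∧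
        |P| ≤ (b : ℤ) ^ (2 * s) ∧ |P'| ≤ (b : ℤ) ^ (2 * s) ∧
        ((b : ℤ) ^ s - 1) * tr b x (c (r + 1)) = (b : ℤ) ^ (c (r + 1) - c r) *
          (((b : ℤ) ^ s - 1) * tr b x (c r) + P) - P') := by
      intro r
      by_cases hr : r < K
      · obtain ⟨s, h3, h4, h5⟩ := hc4 r hr
        obtain ⟨P, P', h6, h7, h8⟩ := piece (x := x) hb (hc1 (Nat.le_succ r)) h5
        exact ⟨s, P, P', fun _ => ⟨h3, h4, h6, h7, h8⟩⟩
      · exact ⟨0, 0, 0, fun h => absurd h hr⟩
    choose s P P' hs using h2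
    exact ⟨⟨c, s, P, P'⟩, hc1, hc2, hc3, fun r hr => hs r hr⟩
  obtain ⟨w, hw⟩ := h1.choice
  let c : ℕ → ℕ → ℕ := fun N => (w N).1
  let s : ℕ → ℕ → ℕ := fun N => (w N).2.1
  let P : ℕ → ℕ → ℤ := fun N => (w N).2.2.1
  let P' : ℕ → ℕ → ℤ := fun N => (w N).2.2.2
  have hw' : ∀ᶠ N : ℕ in U, Monotone (c N) ∧
      c N 0 = pos b 1 N ∧ c N K = pos b R N ∧ ∀ r < K, 1 ≤ s N r ∧ (s N r : ℝ) ≤ p N ∧
      |P N r| ≤ (b : ℤ) ^ (2 * s N r) ∧ |P' N r| ≤ (b : ℤ) ^ (2 * s N r) ∧
      ((b : ℤ) ^ s N r - 1) * tr b x (c N (r + 1)) = (b : ℤ) ^ (c N (r + 1) - c N r) *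
        (((b : ℤ) ^ s N r - 1) * tr b x (c N r) + P N r) - P' N r := hw
  clear_value c s P P'
  -- the factors
  let F : ℕ → ℕ → ℕ := fun N r => b ^ (s N r) - 1
  let Qh : ℕ → Finset ℕ → ℕ := fun N S => ∏ r ∈ S, F N r
  have hF : ∀ᶠ N : ℕ in U, ∀ r < K, 1 ≤ F N r ∧ (F N r : ℝ) = (b : ℝ) ^ s N r - 1 := by
    filter_upwards [hw'] with N hN r hr
    have h3 := (hN.2.2.2 r hr).1
    have h4 : b ≤ b ^ s N r := Nat.le_self_pow (by omega) b
    refine ⟨by simp only [F]; omega, ?_⟩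
    simp only [F]
    rw [Nat.cast_sub (by omega)]
    push_cast
    rfl
  have hbs : ∀ r < K, Sz U (fun N => (b : ℝ) ^ s N r) 0 := by
    intro r hr ε hε
    filter_upwards [hw', hp (ε / Real.log b) (by positivity)] with N h3 h4
    have h5 := (h3.2.2.2 r hr).2.1
    rw [abs_of_nonneg (by positivity), ← Real.rpow_natCast, Real.rpow_def_of_pos hb0]
    rw [Real.exp_le_exp]
    have h6 : (s N r : ℝ) ≤ ε / Real.log b * N := h5.trans h4
    calc Real.log b * (s N r : ℝ) ≤ Real.log b * (ε / Real.log b * N) :=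
          mul_le_mul_of_nonneg_left h6 hL.le
      _ = (0 + ε) * N := by field_simp; ring
  have hFs : ∀ r < K, Sz U (fun N => (F N r : ℝ)) 0 := by
    intro r hr
    refine (hbs r hr).of_le ?_
    filter_upwards [hF] with N hN
    have h3 := hN r hr
    rw [h3.2, abs_of_nonneg (by positivity : (0 : ℝ) ≤ (b : ℝ) ^ s N r), abs_of_nonneg]
    · linarith
    · rw [← h3.2]; exact Nat.cast_nonneg _
  have hQhs : ∀ S : Finset ℕ, S ⊆ Finset.range K → Sz U (fun N => (Qh N S : ℝ)) 0 := by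
    intro S
    induction S using Finset.induction_on with
    | empty => intro _; simpa [Qh] using Sz.const hU (1 : ℝ)
    | insert a S ha ih =>
      intro hS
      have h3 := (hFs a (Finset.mem_range.1 (hS (Finset.mem_insert_self _ _)))).mul
        (ih fun y hy => hS (Finset.mem_insert_of_mem hy))
      simp only [add_zero] at h3
      simp only [Qh, Finset.prod_insert ha, Nat.cast_mul] at h3 ⊢
      exact h3
  have hPs : ∀ r < K, Sz U (fun N => (P N r : ℝ)) 0 ∧ Sz U (fun N => (P' N r : ℝ)) 0 := by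
    intro r hr
    have h3 := (hbs r hr).mul (hbs r hr)
    rw [add_zero] at h3
    constructor
    · refine h3.of_le ?_
      filter_upwards [hw'] with N hN
      have h4 := (hN.2.2.2 r hr).2.2.1
      rw [← pow_add, ← two_mul, abs_of_nonneg (by positivity : (0 : ℝ) ≤ (b : ℝ) ^ (2 * s N r))]
      exact_mod_cast h4
    · refine h3.of_le ?_
      filter_upwards [hw'] with N hN
      have h4 := (hN.2.2.2 r hr).2.2.2.1
      rw [← pow_add, ← two_mul, abs_of_nonneg (by positivity : (0 : ℝ) ≤ (b : ℝ) ^ (2 * s N r))]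
      exact_mod_cast h4
  -- positions
  let nn : ℕ → Fin (K + K + 1) → ℕ := fun N => Fin.cases (pos b 1 N)
    (fun j => Fin.addCases (fun r : Fin K => c N r) (fun r : Fin K => c N (r + 1)) j)
  let uu : ℕ → Fin (K + K + 1) → ℤ := fun N => Fin.cases
    ((Qh N (Finset.range K) : ℤ) * tr b x (pos b 1 N))
    (fun j => Fin.addCases (fun r : Fin K => (Qh N ((Finset.range K).erase r) : ℤ) * P N r)
      (fun r : Fin K => -((Qh N ((Finset.range K).erase r) : ℤ) * P' N r)) j)
  have hnn : ∀ j, ∀ᶠ N : ℕ in U, pos b 1 N ≤ nn N j ∧ nn N j ≤ pos b R N := by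
    intro j
    have hposle : ∀ N : ℕ, pos b 1 N ≤ pos b R N := by
      intro N
      unfold pos
      apply Nat.ceil_le_ceil
      apply div_le_div_of_nonneg_right _ hL.le
      exact mul_le_mul_of_nonneg_right hR.le (Nat.cast_nonneg _)
    refine Fin.cases ?_ (fun j => ?_) j
    · filter_upwards with N
      exact ⟨le_refl _, hposle N⟩
    · refine Fin.addCases (fun r => ?_) (fun r => ?_) j
      · filter_upwards [hw'] with N hN
        simp only [nn, Fin.cases_succ, Fin.addCases_left]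
        exact ⟨hN.2.1 ▸ hN.1 (Nat.zero_le _), hN.2.2.1 ▸ hN.1 r.2.le⟩
      · filter_upwards [hw'] with N hN
        simp only [nn, Fin.cases_succ, Fin.addCases_right]
        exact ⟨hN.2.1 ▸ hN.1 (Nat.zero_le _), hN.2.2.1 ▸ hN.1 (by omega)⟩
  have hlim := fun j => exists_lim hU hb hR.le (hnn j)
  choose τ' hτ1 hτR hτE using hlim
  let τ : Fin (K + K + 1) → ℝ := fun j => if j = 0 then 1 else τ' j
  have hτE' : ∀ j, Eq U (fun N => b ^ (nn N j)) (τ j) := by
    intro j
    by_cases hj : j = 0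
    · subst hj
      simp only [τ, if_true]
      exact pos_eq hU hb zero_le_one
    · simp only [τ, hj, if_false]
      exact hτE j
  refine trim hU hb hR (fun N => max 1 (Qh N (Finset.range K))) uu nn τ (fun N => le_max_left _ _)
    ?_ ?_ hτE' (by simp [τ]) (fun j => ?_) (fun j => ?_) ?_
  · have h3 := Sz.sum hU (Finset.univ : Finset (Fin 2)) (z := fun i N => if i = 0 then (1 : ℝ) else
      (Qh N (Finset.range K) : ℝ)) (c := 0) (by
        intro i _
        by_cases hi : i = 0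
        · simp only [hi, if_true]; exact Sz.const hU 1
        · simp only [hi, if_false]; exact hQhs _ (Finset.Subset.refl _))
    refine h3.of_le (Eventually.of_forall fun N => ?_)
    rw [Fin.sum_univ_two]
    simp only [if_true, one_ne_zero, if_false]
    rw [abs_of_nonneg (by positivity), abs_of_nonneg (by positivity)]
    push_cast
    exact max_le (by linarith [show (0 : ℝ) ≤ Qh N (Finset.range K) from Nat.cast_nonneg _])
      (by linarith)
  · intro j
    refine Fin.cases ?_ (fun j => ?_) j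
    · simp only [if_true]
      have h3 : Sz U (fun N => (tr b x (pos b 1 N) : ℝ)) 1 := by
        have h4 := (Sz.const hU (|x| + 1)).mul (pos_eq hU hb (R := 1) zero_le_one).toSz
        rw [zero_add] at h4
        refine h4.of_le (Eventually.of_forall fun N => ?_)
        rw [abs_of_nonneg (by positivity : (0 : ℝ) ≤ (|x| + 1) * ((b ^ pos b 1 N : ℕ) : ℝ))]
        have h5 : (1 : ℝ) ≤ (b : ℝ) ^ pos b 1 N := one_le_pow₀ hb1.le
        have h6 := Int.floor_le (x * (b : ℝ) ^ pos b 1 N)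
        have h7 := Int.lt_floor_add_one (x * (b : ℝ) ^ pos b 1 N)
        have h8 : |x * (b : ℝ) ^ pos b 1 N| = |x| * (b : ℝ) ^ pos b 1 N := by
          rw [abs_mul, abs_of_nonneg (by positivity : (0 : ℝ) ≤ (b : ℝ) ^ pos b 1 N)]
        push_cast
        unfold tr
        rw [abs_le]
        have h9 := abs_le.1 h8.le
        constructor
        · nlinarith
        · nlinarith
      have h4 := (hQhs _ (Finset.Subset.refl _)).mul h3
      rw [zero_add] at h4
      simp only [uu, Fin.cases_zero, Int.cast_mul, Int.cast_natCast]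
      exact h4
    · simp only [Fin.succ_ne_zero, if_false]
      refine Fin.addCases (fun r => ?_) (fun r => ?_) j
      · have h3 := (hQhs _ (Finset.erase_subset (r : ℕ) _)).mul (hPs r r.2).1
        simp only [uu, Fin.cases_succ, Fin.addCases_left, Int.cast_mul, Int.cast_natCast]
        rw [add_zero] at h3
        exact h3
      · have h3 := (hQhs _ (Finset.erase_subset (r : ℕ) _)).mul (hPs r r.2).2
        simp only [uu, Fin.cases_succ, Fin.addCases_right, Int.cast_mul, Int.cast_natCast,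
          Int.cast_neg]
        rw [add_zero] at h3
        refine h3.of_le (Eventually.of_forall fun N => ?_)
        rw [abs_neg]
  · simp only [τ]; split_ifs
    · exact le_refl _
    · exact hτ1 j
  · simp only [τ]; split_ifs
    · exact hR.le
    · exact hτR j
  · -- the error
    have herr : Sz U (fun N => (((b ^ pos b R N : ℕ) : ℝ))⁻¹) (-R) :=
      (pos_eq hU hb (by linarith)).inv
    refine herr.of_le ?_
    filter_upwards [hw', hF] with N hN hN2
    have hQ1 : 1 ≤ Qh N (Finset.range K) :=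
      Nat.one_le_iff_ne_zero.2 (Finset.prod_ne_zero_iff.2 fun r hr => by
        have := (hN2 r (Finset.mem_range.1 hr)).1
        omega)
    rw [max_eq_right hQ1]
    have hQ0 : (Qh N (Finset.range K) : ℝ) ≠ 0 := by
      exact_mod_cast (by omega : Qh N (Finset.range K) ≠ 0)
    have htele := tele (x := x) hb hN.1 (fun r hr => (hN.2.2.2 r hr).1)
      (fun r hr => (hN.2.2.2 r hr).2.2.2.2)
    have h3 : (∑ j, (uu N j : ℝ) / (b : ℝ) ^ (nn N j)) / (Qh N (Finset.range K) : ℝ) =
        (tr b x (c N K) : ℝ) / (b : ℝ) ^ c N K := by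
      rw [htele, Fin.sum_univ_succ, Fin.sum_univ_add, add_div]
      congr 1
      · simp only [uu, nn, Fin.cases_zero]
        rw [hN.2.1]
        push_cast
        field_simp
      · rw [← Finset.sum_add_distrib, Finset.sum_div, ← Fin.sum_univ_eq_sum_range
          (fun r => ((P N r : ℝ) / (b : ℝ) ^ c N r - (P' N r : ℝ) / (b : ℝ) ^ c N (r + 1)) /
            ((b : ℝ) ^ s N r - 1)) K]
        refine Finset.sum_congr rfl fun r _ => ?_
        simp only [uu, nn, Fin.cases_succ, Fin.addCases_left, Fin.addCases_right]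
        have h4 : (Qh N (Finset.range K) : ℝ) =
            ((b : ℝ) ^ s N r - 1) * (Qh N ((Finset.range K).erase r) : ℝ) := by
          rw [← (hN2 r r.2).2]
          have h5 : Qh N (Finset.range K) = F N r * Qh N ((Finset.range K).erase r) := by
            simp only [Qh]
            rw [Finset.mul_prod_erase _ _ (Finset.mem_range.2 r.2)]
          exact_mod_cast h5
        have h5 : (b : ℝ) ^ s N r - 1 ≠ 0 := by
          intro h0; rw [h0, zero_mul] at h4; exact hQ0 h4
        have h6 : (Qh N ((Finset.range K).erase r) : ℝ) ≠ 0 := by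
          intro h0; rw [h0, mul_zero] at h4; exact hQ0 h4
        rw [h4]
        push_cast
        have hbn : (b : ℝ) ≠ 0 := hb0.ne'
        field_simp
        ring
    rw [h3, hN.2.2.1]
    have h4 : (0 : ℝ) < (b : ℝ) ^ pos b R N := by positivity
    have h5 := Int.floor_le (x * (b : ℝ) ^ pos b R N)
    have h6 := Int.lt_floor_add_one (x * (b : ℝ) ^ pos b R N)
    have h7 : x - (tr b x (pos b R N) : ℝ) / (b : ℝ) ^ pos b R N =
        (x * (b : ℝ) ^ pos b R N - tr b x (pos b R N)) / (b : ℝ) ^ pos b R N := by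
      field_simp
    rw [h7, abs_div, abs_of_pos h4, abs_of_nonneg (by unfold tr; linarith)]
    push_cast
    rw [abs_of_nonneg (by positivity), div_eq_mul_inv]
    have h8 : (0 : ℝ) < ((b : ℝ) ^ pos b R N)⁻¹ := by positivity
    have h9 : x * (b : ℝ) ^ pos b R N - (tr b x (pos b R N) : ℝ) ≤ 1 := by unfold tr; linarith
    nlinarith

end Pool.Agent.V5helper55.TB
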