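import Mathlib

/-!
# Small integral recurrences of bounded integer sequences
-/

set_option autoImplicit false

open Filter Topology Finset Polynomial

namespace Pool.Agent.V5helper55.TB

/-- the recurrence with characteristic polynomial `E` applied to `d` at the place `n` -/
noncomputable def rel (d : ℕ → ℤ) (E : ℤ[X]) (n : ℕ) : ℤ := E.sum fun j a => a * d (n + j)

lemma rel_eq (d : ℕ → ℤ) (E : ℤ[X]) (n H : ℕ) (hH : E.natDegree ≤ H) :
    rel d E n = ∑ j ∈ Finset.range (H + 1), E.coeff j * d (n + j) := by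
  unfold rel
  exact Polynomial.sum_over_range' E (by simp) (H + 1) (by omega)

lemma rel_step (d : ℕ → ℤ) (b : ℤ) (G : ℤ[X]) (n : ℕ) :
    rel d ((X - C b) * G) n = rel d G (n + 1) - b * rel d G n := by
  have hdeg : ((X - C b) * G).natDegree ≤ G.natDegree + 1 := by
    refine (Polynomial.natDegree_mul_le).trans ?_
    have := Polynomial.natDegree_X_sub_C_le b
    omega
  rw [rel_eq d _ n _ hdeg, rel_eq d G (n + 1) _ (le_refl _), rel_eq d G n (G.natDegree + 1) (by omega)]
  rw [Finset.sum_range_succ' _ (G.natDegree + 1)]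
  have h1 : ∀ j, ((X - C b) * G).coeff (j + 1) = G.coeff j - b * G.coeff (j + 1) := by
    intro j
    rw [sub_mul, Polynomial.coeff_sub, Polynomial.coeff_X_mul, Polynomial.coeff_C_mul]
  have h2 : ((X - C b) * G).coeff 0 = -(b * G.coeff 0) := by
    rw [sub_mul, Polynomial.coeff_sub, Polynomial.coeff_X_mul_zero, Polynomial.coeff_C_mul]
    ring
  simp only [h1, h2]
  rw [Finset.sum_range_succ' (fun j => G.coeff j * d (n + j)) (G.natDegree + 1)]
  rw [mul_add, Finset.mul_sum]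
  have h3 : ∑ j ∈ Finset.range (G.natDegree + 1), (G.coeff j - b * G.coeff (j + 1)) * d (n + (j + 1))
      = ∑ j ∈ Finset.range (G.natDegree + 1), G.coeff j * d (n + 1 + j) -
        ∑ j ∈ Finset.range (G.natDegree + 1), b * (G.coeff (j + 1) * d (n + (j + 1))) := by
    rw [← Finset.sum_sub_distrib]
    refine Finset.sum_congr rfl fun j _ => ?_
    rw [show n + 1 + j = n + (j + 1) by ring]
    ring
  rw [h3]
  ring

lemma rel_bound {b : ℕ} {d : ℕ → ℤ} (hd : ∀ n, 0 ≤ d n ∧ d n < b) {E : ℤ[X]} {H : ℕ} {B : ℤ}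
    (hH : E.natDegree ≤ H) (hE : ∀ j, |E.coeff j| ≤ B) (n : ℕ) :
    |rel d E n| ≤ (H + 1) * B * b := by
  rw [rel_eq d E n H hH]
  calc |∑ j ∈ Finset.range (H + 1), E.coeff j * d (n + j)|
      ≤ ∑ j ∈ Finset.range (H + 1), |E.coeff j * d (n + j)| := Finset.abs_sum_le_sum_abs _ _
    _ ≤ ∑ _j ∈ Finset.range (H + 1), B * b := by
        refine Finset.sum_le_sum fun j _ => ?_
        rw [abs_mul, abs_of_nonneg (hd (n + j)).1]
        exact mul_le_mul (hE j) (hd _).2.le (hd _).1 ((abs_nonneg _).trans (hE j))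
    _ = (H + 1) * B * b := by
        rw [Finset.sum_const, Finset.card_range, nsmul_eq_mul]; push_cast; ring

/-- **Siegel's lemma for recurrences.** -/
lemma siegel {b : ℕ} (hb : 2 ≤ b) {d : ℕ → ℤ} (hd : ∀ n, 0 ≤ d n ∧ d n < b) {c c' h : ℕ}
    {a : ℕ → ℝ} (ha0 : ∃ j ≤ h, a j ≠ 0)
    (ha : ∀ n, c < n → n + h ≤ c' → ∑ j ∈ Finset.range (h + 1), a j * (d (n + j) : ℝ) = 0) :
    ∃ E : ℤ[X], E ≠ 0 ∧ E.natDegree ≤ 2 * h ∧ (∀ j, |E.coeff j| ≤ (2 * h + 1) * b) ∧
      ∀ n, c < n → n + 3 * h ≤ c' → rel d E n = 0 := by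
  classical
  -- the top index
  obtain ⟨h', hh', hah', htop⟩ : ∃ h' ≤ h, a h' ≠ 0 ∧ ∀ j, h' < j → j ≤ h → a j = 0 := by
    obtain ⟨j0, hj0, hj0'⟩ := ha0
    refine ⟨Nat.findGreatest (fun j => a j ≠ 0) h, Nat.findGreatest_le h,
      Nat.findGreatest_spec (P := fun j => a j ≠ 0) hj0 hj0', fun j h1 h2 => ?_⟩
    by_contra h3
    exact absurd (Nat.le_findGreatest (P := fun j => a j ≠ 0) h2 h3) (by omega)
  set B : ℕ := (2 * h + 1) * b with hB
  have hB1 : 1 ≤ B := by rw [hB]; nlinarith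
  -- pigeonhole
  let val : (Fin (2 * h + 1) → Fin (B + 1)) → ℕ → ℕ := fun e i =>
    ∑ j : Fin (2 * h + 1), (e j : ℕ) * (d (c + 1 + i + j)).toNat
  have hval : ∀ e i, val e i < B * B := by
    intro e i
    have h1 : val e i ≤ ∑ _j : Fin (2 * h + 1), B * (b - 1) := by
      refine Finset.sum_le_sum fun j _ => Nat.mul_le_mul (by have := (e j).2; omega) ?_
      have := (hd (c + 1 + i + j)).2
      omega
    rw [Finset.sum_const, Finset.card_univ, Fintype.card_fin, smul_eq_mul] at h1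
    have h2 : (2 * h + 1) * (B * (b - 1)) < B * B := by
      have h3 : (2 * h + 1) * (B * (b - 1)) = B * ((2 * h + 1) * (b - 1)) := by ring
      rw [h3]
      apply Nat.mul_lt_mul_of_pos_left _ hB1
      rw [hB]
      apply Nat.mul_lt_mul_of_pos_left (by omega) (by omega)
    omega
  let Φ : (Fin (2 * h + 1) → Fin (B + 1)) → (Fin h' → Fin (B * B)) := fun e i =>
    ⟨val e i, hval e i⟩
  obtain ⟨e, e', hne, hee⟩ := Fintype.exists_ne_map_eq_of_card_lt Φ (by
    rw [Fintype.card_fun, Fintype.card_fun, Fintype.card_fin, Fintype.card_fin, Fintype.card_fin,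
      Fintype.card_fin]
    calc (B * B) ^ h' ≤ (B * B) ^ h := Nat.pow_le_pow_right (by positivity) hh'
      _ = B ^ (2 * h) := by rw [← pow_two, ← pow_mul]
      _ < (B + 1) ^ (2 * h + 1) :=
        lt_of_le_of_lt (Nat.pow_le_pow_left (Nat.le_succ B) _)
          (Nat.pow_lt_pow_right (by omega) (by omega)))
  let f : ℕ → ℤ := fun j => if hj : j < 2 * h + 1 then ((e ⟨j, hj⟩ : ℕ) : ℤ) - ((e' ⟨j, hj⟩ : ℕ) : ℤ)
    else 0
  let E : ℤ[X] := ∑ j ∈ Finset.range (2 * h + 1), Polynomial.monomial j (f j)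
  have hcoef : ∀ j, E.coeff j = f j := by
    intro j
    simp only [E, Polynomial.finsetSum_coeff, Polynomial.coeff_monomial]
    by_cases hj : j < 2 * h + 1
    · rw [Finset.sum_ite_eq' (Finset.range (2 * h + 1)) j f, if_pos (Finset.mem_range.2 hj)]
    · rw [Finset.sum_ite_eq' (Finset.range (2 * h + 1)) j f, if_neg (by simp; omega)]
      simp only [f]
      rw [dif_neg hj]
  have hdeg : E.natDegree ≤ 2 * h := by
    rw [Polynomial.natDegree_le_iff_coeff_eq_zero]
    intro N hN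
    rw [hcoef]
    simp only [f]
    rw [dif_neg (by omega)]
  have hEn : ∀ n, rel d E n = ∑ j : Fin (2 * h + 1), (((e j : ℕ) : ℤ) - ((e' j : ℕ) : ℤ)) *
      d (n + j) := by
    intro n
    rw [rel_eq d E n (2 * h) hdeg, ← Fin.sum_univ_eq_sum_range (fun j => E.coeff j * d (n + j))]
    refine Finset.sum_congr rfl fun j _ => ?_
    rw [hcoef]
    simp only [f]
    rw [dif_pos j.2]
  refine ⟨E, ?_, hdeg, ?_, ?_⟩
  · intro h0
    apply hne
    funext j
    have h1 := hcoef j
    rw [h0, Polynomial.coeff_zero] at h1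
    simp only [f] at h1
    rw [dif_pos j.2] at h1
    have h2 : ((e j : ℕ) : ℤ) - ((e' j : ℕ) : ℤ) = 0 := h1.symm
    apply Fin.ext
    omega
  · intro j
    rw [hcoef]
    simp only [f]
    have hB' : ((2 * (h : ℤ) + 1) * b) = (B : ℤ) := by rw [hB]; push_cast; ring
    rw [hB']
    split_ifs with hj
    · have h1 := (e ⟨j, hj⟩).2
      have h2 := (e' ⟨j, hj⟩).2
      rw [abs_le]
      constructor <;> omega
    · simp
  · -- the values vanish
    intro n
    induction n using Nat.strong_induction_on with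
    | _ n ih =>
      intro hcn hnc
      by_cases hinit : n < c + 1 + h'
      · -- an initial value
        have h1 : (Φ e ⟨n - (c + 1), by omega⟩ : ℕ) = (Φ e' ⟨n - (c + 1), by omega⟩ : ℕ) := by
          rw [hee]
        simp only [Φ, val] at h1
        rw [hEn]
        have h2 : ∀ g : Fin (2 * h + 1) → Fin (B + 1),
            ((∑ j : Fin (2 * h + 1), (g j : ℕ) * (d (c + 1 + (n - (c + 1)) + j)).toNat : ℕ) : ℤ) =
            ∑ j : Fin (2 * h + 1), ((g j : ℕ) : ℤ) * d (n + j) := by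
          intro g
          push_cast
          refine Finset.sum_congr rfl fun j _ => ?_
          rw [show c + 1 + (n - (c + 1)) + (j : ℕ) = n + j by omega]
          rw [Int.toNat_of_nonneg (hd (n + j)).1]
        have h3 : ∑ j : Fin (2 * h + 1), ((e j : ℕ) : ℤ) * d (n + j) =
            ∑ j : Fin (2 * h + 1), ((e' j : ℕ) : ℤ) * d (n + j) := by
          rw [← h2 e, ← h2 e', h1]
        simp only [sub_mul, Finset.sum_sub_distrib]
        rw [h3, sub_self]
      · -- the recurrence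
        set n' := n - h' with hn'
        have hn'c : c < n' := by omega
        have hprev : ∀ i, i < h' → rel d E (n' + i) = 0 := by
          intro i hi
          exact ih (n' + i) (by omega) (by omega) (by omega)
        have hrec : ∑ i ∈ Finset.range (h + 1), a i * ((rel d E (n' + i) : ℤ) : ℝ) = 0 := by
          have h1 : ∀ i, ((rel d E (n' + i) : ℤ) : ℝ) =
              ∑ j : Fin (2 * h + 1), ((((e j : ℕ) : ℤ) - ((e' j : ℕ) : ℤ) : ℤ) : ℝ) *
                (d (n' + i + j) : ℝ) := by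
            intro i
            rw [hEn]
            push_cast
            rfl
          simp only [h1, Finset.mul_sum]
          rw [Finset.sum_comm]
          refine Finset.sum_eq_zero fun j _ => ?_
          have h2 := ha (n' + j) (by omega) (by have := j.2; omega)
          calc ∑ i ∈ Finset.range (h + 1), a i * (((((e j : ℕ) : ℤ) - ((e' j : ℕ) : ℤ) : ℤ) : ℝ) *
                (d (n' + i + j) : ℝ))
              = ((((e j : ℕ) : ℤ) - ((e' j : ℕ) : ℤ) : ℤ) : ℝ) *
                ∑ i ∈ Finset.range (h + 1), a i * (d (n' + j + i) : ℝ) := by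
                rw [Finset.mul_sum]
                refine Finset.sum_congr rfl fun i _ => ?_
                rw [show n' + (j : ℕ) + i = n' + i + j by ring]
                ring
            _ = 0 := by rw [h2, mul_zero]
        have h3 : ∑ i ∈ Finset.range (h + 1), a i * ((rel d E (n' + i) : ℤ) : ℝ) =
            a h' * ((rel d E (n' + h') : ℤ) : ℝ) := by
          apply Finset.sum_eq_single_of_mem h' (Finset.mem_range.2 (by omega))
          intro i hi hne'
          rcases lt_or_gt_of_ne hne' with h4 | h4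
          · rw [hprev i h4]; simp
          · rw [htop i h4 (by have := Finset.mem_range.1 hi; omega)]; simp
        rw [hrec] at h3
        have h4 : ((rel d E (n' + h') : ℤ) : ℝ) = 0 :=
          (mul_eq_zero.1 h3.symm).resolve_left hah'
        have h5 : rel d E (n' + h') = 0 := by exact_mod_cast h4
        rwa [show n' + h' = n by omega] at h5

/-- dividing by `X - b` does not increase the height -/
lemma height_div {b : ℕ} (hb : 2 ≤ b) {G : ℤ[X]} {B : ℤ}
    (h : ∀ j, |((X - C (b : ℤ)) * G).coeff j| ≤ B) : ∀ j, |G.coeff j| ≤ B := by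
  have hB : 0 ≤ B := (abs_nonneg _).trans (h 0)
  have hb' : (2 : ℤ) ≤ b := by exact_mod_cast hb
  intro j
  induction j with
  | zero =>
    have h1 := h 0
    rw [sub_mul, Polynomial.coeff_sub, Polynomial.coeff_X_mul_zero, Polynomial.coeff_C_mul,
      zero_sub, abs_neg, abs_mul, abs_of_nonneg (by linarith : (0 : ℤ) ≤ b)] at h1
    nlinarith [abs_nonneg (G.coeff 0)]
  | succ j ih =>
    have h1 := h (j + 1)
    rw [sub_mul, Polynomial.coeff_sub, Polynomial.coeff_X_mul, Polynomial.coeff_C_mul] at h1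
    have h2 : |(b : ℤ) * G.coeff (j + 1)| ≤ B + B := by
      have h3 : (b : ℤ) * G.coeff (j + 1) = G.coeff j - (G.coeff j - b * G.coeff (j + 1)) := by ring
      rw [h3]
      refine (abs_sub _ _).trans ?_
      exact add_le_add ih h1
    rw [abs_mul, abs_of_nonneg (by linarith : (0 : ℤ) ≤ b)] at h2
    nlinarith [abs_nonneg (G.coeff (j + 1))]

lemma height_div_pow {b : ℕ} (hb : 2 ≤ b) {B : ℤ} (t : ℕ) : ∀ {G : ℤ[X]},
    (∀ j, |((X - C (b : ℤ)) ^ t * G).coeff j| ≤ B) → ∀ j, |G.coeff j| ≤ B := by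
  induction t with
  | zero => intro G h; simpa using h
  | succ t ih =>
    intro G h
    apply height_div hb
    apply ih
    intro j
    have := h j
    rwa [pow_succ, mul_assoc] at this

/-- one division -/
lemma rel_div {b : ℕ} (hb : 2 ≤ b) {d : ℕ → ℤ} (hd : ∀ n, 0 ≤ d n ∧ d n < b) {G : ℤ[X]} {H ℓ : ℕ}
    {B : ℤ} (hH : G.natDegree ≤ H) (hG : ∀ j, |G.coeff j| ≤ B)
    (hℓ : (H + 1) * B * b < (b : ℤ) ^ ℓ) {c c' W : ℕ}
    (h : ∀ n, c < n → n + W ≤ c' → rel d ((X - C (b : ℤ)) * G) n = 0) :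
    ∀ n, c < n → n + (W + ℓ) ≤ c' → rel d G n = 0 := by
  intro n hcn hn
  have h1 : ∀ i, i ≤ ℓ → rel d G (n + i) = (b : ℤ) ^ i * rel d G n := by
    intro i
    induction i with
    | zero => intro _; simp
    | succ i ih =>
      intro hi
      have h2 := h (n + i) (by omega) (by omega)
      rw [rel_step] at h2
      rw [← add_assoc, pow_succ]
      have h3 := ih (by omega)
      rw [h3] at h2
      linarith
  have h2 := h1 ℓ (le_refl _)
  have h3 := rel_bound hd hH hG (n + ℓ)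
  rw [h2, abs_mul, abs_of_nonneg (by positivity : (0 : ℤ) ≤ (b : ℤ) ^ ℓ)] at h3
  by_contra h4
  have h5 : 1 ≤ |rel d G n| := Int.one_le_abs h4
  have h6 : (b : ℤ) ^ ℓ ≤ (b : ℤ) ^ ℓ * |rel d G n| := le_mul_of_one_le_right (by positivity) h5
  linarith

lemma rel_div_pow {b : ℕ} (hb : 2 ≤ b) {d : ℕ → ℤ} (hd : ∀ n, 0 ≤ d n ∧ d n < b) {H ℓ : ℕ}
    {B : ℤ} (hℓ : (H + 1) * B * b < (b : ℤ) ^ ℓ) {c c' : ℕ} (t : ℕ) : ∀ {G : ℤ[X]} {W : ℕ},
    ((X - C (b : ℤ)) ^ t * G).natDegree ≤ H → (∀ j, |((X - C (b : ℤ)) ^ t * G).coeff j| ≤ B) →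
    (∀ n, c < n → n + W ≤ c' → rel d ((X - C (b : ℤ)) ^ t * G) n = 0) →
    ∀ n, c < n → n + (W + t * ℓ) ≤ c' → rel d G n = 0 := by
  induction t with
  | zero =>
    intro G W _ _ h n h1 h2
    have := h n h1 (by omega)
    simpa using this
  | succ t ih =>
    intro G W hdeg hB h n h1 h2
    by_cases hG0 : G = 0
    · subst hG0; simp [rel]
    have hXb : (X - C (b : ℤ)) ≠ 0 := Polynomial.X_sub_C_ne_zero _
    have hdegG : G.natDegree ≤ H := by
      refine le_trans ?_ hdeg
      rw [Polynomial.natDegree_mul (pow_ne_zero _ hXb) hG0]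
      omega
    have h3 : ∀ n, c < n → n + (W + t * ℓ) ≤ c' → rel d ((X - C (b : ℤ)) * G) n = 0 := by
      refine ih (G := (X - C (b : ℤ)) * G) (W := W) ?_ ?_ ?_
      · rwa [← mul_assoc, ← pow_succ]
      · intro j
        rw [← mul_assoc, ← pow_succ]
        exact hB j
      · intro n h4 h5
        rw [← mul_assoc, ← pow_succ]
        exact h n h4 h5
    exact rel_div hb hd hdegG (height_div_pow hb (t + 1) hB) hℓ h3 n h1
      (by rw [Nat.succ_mul] at h2; omega)

lemma tc_bound (P : ℤ[X]) (B : ℤ) (h : ∀ j, |P.coeff j| ≤ B) : |P.trailingCoeff| ≤ B :=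
  h P.natTrailingDegree

/-- **A small integral recurrence which does not vanish at `b`.** -/
theorem small_rec {b : ℕ} (hb : 2 ≤ b) {d : ℕ → ℤ} (hd : ∀ n, 0 ≤ d n ∧ d n < b) {c c' h : ℕ}
    {a : ℕ → ℝ} (ha0 : ∃ j ≤ h, a j ≠ 0)
    (ha : ∀ n, c < n → n + h ≤ c' → ∑ j ∈ Finset.range (h + 1), a j * (d (n + j) : ℝ) = 0)
    {ℓ : ℕ} (hℓ : ((2 * h + 1) * ((2 * h + 1) * b) * b : ℤ) < (b : ℤ) ^ ℓ) :
    ∃ F : ℤ[X], F.eval (b : ℤ) ≠ 0 ∧ F.natDegree ≤ 2 * h ∧
      (∀ j, |F.coeff j| ≤ (2 * h + 1) * b) ∧ ∃ t : ℕ, 2 ^ t ≤ (2 * h + 1) * b ∧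
      ∀ n, c < n → n + (3 * h + t * ℓ) ≤ c' → rel d F n = 0 := by
  obtain ⟨E, hE0, hEdeg, hEh, hErel⟩ := siegel hb hd ha0 ha
  obtain ⟨F, hF1, hF2⟩ := Polynomial.exists_eq_pow_rootMultiplicity_mul_and_not_dvd E hE0 (b : ℤ)
  set t := E.rootMultiplicity (b : ℤ) with ht
  have hXb : (X - C (b : ℤ)) ≠ 0 := Polynomial.X_sub_C_ne_zero _
  have hF0 : F ≠ 0 := by
    rintro rfl
    exact hF2 (dvd_zero _)
  rw [hF1] at hEdeg hEh hErel
  refine ⟨F, fun h0 => hF2 (Polynomial.dvd_iff_isRoot.2 h0), ?_, height_div_pow hb t hEh, t, ?_, ?_⟩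
  · refine le_trans ?_ hEdeg
    rw [Polynomial.natDegree_mul (pow_ne_zero _ hXb) hF0]
    omega
  · -- the multiplicity
    have h1 := tc_bound _ _ hEh
    rw [Polynomial.trailingCoeff_mul] at h1
    have h2 : ((X - C (b : ℤ)) ^ t).trailingCoeff = (-(b : ℤ)) ^ t := by
      have h3 : ((X - C (b : ℤ)) ^ t).coeff 0 = (-(b : ℤ)) ^ t := by
        rw [Polynomial.coeff_zero_eq_eval_zero]
        simp
      have h4 : ((X - C (b : ℤ)) ^ t).coeff 0 ≠ 0 := by
        rw [h3]
        exact pow_ne_zero _ (by simp; omega)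
      rw [Polynomial.trailingCoeff_eq_coeff_zero h4, h3]
    rw [h2, abs_mul, abs_pow, abs_neg, Nat.abs_cast] at h1
    have h3 : 1 ≤ |F.trailingCoeff| :=
      Int.one_le_abs (by rwa [Ne, Polynomial.trailingCoeff_eq_zero])
    have h4 : (b : ℤ) ^ t ≤ (2 * h + 1) * b := by
      refine le_trans ?_ h1
      exact le_mul_of_one_le_right (by positivity) h3
    have h5 : (2 : ℤ) ^ t ≤ (b : ℤ) ^ t := pow_le_pow_left₀ (by norm_num) (by exact_mod_cast hb) t
    exact_mod_cast h5.trans h4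
  · refine rel_div_pow hb hd (H := 2 * h) (B := (2 * h + 1) * b) (by push_cast; exact hℓ) t hEdeg
      hEh hErel

end Pool.Agent.V5helper55.TB
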