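import Mathlib
import Pool.Agent.V5helper55.TB.Word
import Pool.Agent.V5helper55.TB.Rec

/-!
# Pieces satisfying a short linear recurrence
-/

set_option autoImplicit false

open Filter Topology Finset Polynomial

namespace Pool.Agent.V5helper55.TB

/-- the block `d (m + 1), ..., d M` can be cut into `K` pieces (some may be empty), each of which
satisfies a linear recurrence `∑ j ≤ h, a j * d (n + j) = 0` with real coefficients, not all zero,
of some order `h ≤ p` -/
def CutL (d : ℕ → ℤ) (m M K : ℕ) (p : ℝ) : Prop :=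
  ∃ c : ℕ → ℕ, Monotone c ∧ c 0 = m ∧ c K = M ∧ ∀ r < K, ∃ h : ℕ, (h : ℝ) ≤ p ∧
    ∃ a : ℕ → ℝ, (∃ j ≤ h, a j ≠ 0) ∧
      ∀ n, c r < n → n + h ≤ c (r + 1) → ∑ j ∈ Finset.range (h + 1), a j * (d (n + j) : ℝ) = 0

lemma Cut.toL {d : ℕ → ℤ} {m M K : ℕ} {p : ℝ} (h : Cut d m M K p) : CutL d m M K p := by
  obtain ⟨c, h1, h2, h3, h4⟩ := h
  refine ⟨c, h1, h2, h3, fun r hr => ?_⟩
  obtain ⟨s, h5, h6, h7⟩ := h4 r hr
  refine ⟨s, h6, fun j => if j = 0 then -1 else if j = s then 1 else 0, ⟨0, Nat.zero_le _, by simp⟩,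
    fun n hn hn2 => ?_⟩
  have h8 := h7 n hn hn2
  obtain ⟨t, rfl⟩ : ∃ t, s = t + 1 := ⟨s - 1, by omega⟩
  rw [Finset.sum_range_succ', Finset.sum_range_succ]
  have h9 : ∑ j ∈ Finset.range t, (if j + 1 = 0 then (-1 : ℝ) else if j + 1 = t + 1 then 1 else 0) *
      (d (n + (j + 1)) : ℝ) = 0 := by
    refine Finset.sum_eq_zero fun j hj => ?_
    have := Finset.mem_range.1 hj
    rw [if_neg (by omega), if_neg (by omega), zero_mul]
  rw [h9, h8]
  simp

lemma CutL.mono {d : ℕ → ℤ} {m M K : ℕ} {p p' : ℝ} (h : CutL d m M K p) (hp : p ≤ p') :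
    CutL d m M K p' := by
  obtain ⟨c, h1, h2, h3, h4⟩ := h
  refine ⟨c, h1, h2, h3, fun r hr => ?_⟩
  obtain ⟨s, h6, h7⟩ := h4 r hr
  exact ⟨s, h6.trans hp, h7⟩

lemma CutL.sub {d : ℕ → ℤ} {m M m' M' K : ℕ} {p : ℝ} (h : CutL d m M K p) (h1 : m ≤ m')
    (h2 : m' ≤ M') (h3 : M' ≤ M) : CutL d m' M' K p := by
  obtain ⟨c, hc1, hc2, hc3, hc4⟩ := h
  refine ⟨fun r => min (max (c r) m') M', ?_, ?_, ?_, fun r hr => ?_⟩
  · intro r s hrs
    exact min_le_min_right _ (max_le_max_right _ (hc1 hrs))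
  · simp only [hc2]; omega
  · simp only [hc3]; omega
  · obtain ⟨s, h6, a, ha, h7⟩ := hc4 r hr
    refine ⟨s, h6, a, ha, fun n hn hn2 => ?_⟩
    beta_reduce at hn hn2
    have h8 := hc1 (Nat.le_succ r)
    simp only [Nat.succ_eq_add_one] at h8
    exact h7 n (by omega) (by omega)

/-- the loss per division -/
def lss (b h : ℕ) : ℕ := Nat.clog 2 ((2 * h + 1) * ((2 * h + 1) * b) * b + 1)

/-- the width of a recurrence -/
def wdt (b h : ℕ) : ℕ := 3 * h + Nat.log 2 ((2 * h + 1) * b) * lss b h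

lemma lss_spec {b : ℕ} (hb : 2 ≤ b) (h : ℕ) :
    ((2 * h + 1) * ((2 * h + 1) * b) * b : ℤ) < (b : ℤ) ^ lss b h := by
  have h1 : (2 * h + 1) * ((2 * h + 1) * b) * b + 1 ≤ 2 ^ lss b h :=
    Nat.le_pow_clog (by norm_num) _
  have h2 : 2 ^ lss b h ≤ b ^ lss b h := Nat.pow_le_pow_left hb _
  have h3 : (2 * h + 1) * ((2 * h + 1) * b) * b < b ^ lss b h := by omega
  exact_mod_cast h3

/-- the size of the integers of a piece -/
def siz (b h : ℕ) : ℕ := 2 * ((2 * h + 1) * ((2 * h + 1) * b)) * b ^ (2 * wdt b h)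

lemma pow_wdt_le {b : ℕ} (hb : 2 ≤ b) (h : ℕ) : b ^ wdt b h ≤ siz b h := by
  unfold siz
  have h1 : b ^ wdt b h ≤ b ^ (2 * wdt b h) := Nat.pow_le_pow_right (by omega) (by omega)
  have hb0 : 0 < b := by omega
  have h2 : 0 < 2 * ((2 * h + 1) * ((2 * h + 1) * b)) := by positivity
  calc b ^ wdt b h ≤ b ^ (2 * wdt b h) := h1
    _ ≤ 2 * ((2 * h + 1) * ((2 * h + 1) * b)) * b ^ (2 * wdt b h) := Nat.le_mul_of_pos_left _ h2

/-- **The recursion on a piece with a short linear recurrence.** -/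
lemma pieceL {b : ℕ} {x : ℝ} (hb : 2 ≤ b) {c c' h : ℕ} (hc : c ≤ c') {a : ℕ → ℝ}
    (ha0 : ∃ j ≤ h, a j ≠ 0)
    (ha : ∀ n, c < n → n + h ≤ c' →
      ∑ j ∈ Finset.range (h + 1), a j * (digit b x (n + j) : ℝ) = 0) :
    ∃ (F : ℕ) (P P' : ℤ), 1 ≤ F ∧ F ≤ siz b h ∧ |P| ≤ siz b h ∧ |P'| ≤ siz b h ∧
      (F : ℤ) * tr b x c' = (b : ℤ) ^ (c' - c) * ((F : ℤ) * tr b x c + P) - P' := by
  have hb1 : (1 : ℤ) ≤ b := by exact_mod_cast (by omega : 1 ≤ b)
  have hb0 : (0 : ℤ) < b := by linarith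
  have hd : ∀ n, 0 ≤ digit b x n ∧ digit b x n < b := fun n => digit_bd hb n
  have hwsiz : (b : ℤ) ^ wdt b h ≤ siz b h := by exact_mod_cast pow_wdt_le hb h
  have hsiz1 : 1 ≤ siz b h := (Nat.one_le_pow _ _ (by omega)).trans (pow_wdt_le hb h)
  rcases lt_or_ge (c' - c) (wdt b h) with hlt | hge
  · -- short piece
    obtain ⟨h1, h2⟩ := tr_add (x := x) hb c (c' - c)
    rw [show c + (c' - c) = c' by omega] at h1 h2
    refine ⟨1, 0, -(tr b x c' - (b : ℤ) ^ (c' - c) * tr b x c), le_refl _, hsiz1, ?_, ?_, ?_⟩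
    · rw [abs_zero]; positivity
    · rw [abs_neg, abs_of_nonneg h1]
      have h3 : (b : ℤ) ^ (c' - c) ≤ (b : ℤ) ^ wdt b h := pow_le_pow_right₀ hb1 hlt.le
      linarith
    · push_cast; ring
  · -- long piece
    obtain ⟨G, hG0, hGdeg, hGh, t, ht, hGrel⟩ := small_rec hb hd ha0 ha (lss_spec hb h)
    have htlog : t ≤ Nat.log 2 ((2 * h + 1) * b) :=
      Nat.le_log_of_pow_le (by norm_num) ht
    have hW : 3 * h + t * lss b h ≤ wdt b h := by
      unfold wdt
      have := Nat.mul_le_mul_right (lss b h) htlog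
      omega
    set W := wdt b h with hWdef
    set B : ℤ := (2 * (h : ℤ) + 1) * b with hB
    have hBpos : 0 < B := by positivity
    have hrel : ∀ n, c < n → n + W ≤ c' → rel (digit b x) G n = 0 := fun n h1 h2 =>
      hGrel n h1 (by omega)
    -- the values of `V`
    let V : ℕ → ℤ := fun n => rel (tr b x) G n
    have hV : ∀ n, V n = ∑ j ∈ Finset.range (2 * h + 1), G.coeff j * tr b x (n + j) :=
      fun n => rel_eq _ G n (2 * h) hGdeg
    have hstep : ∀ n, V (n + 1) = b * V n + rel (digit b x) G (n + 1) := by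
      intro n
      rw [hV, hV, rel_eq _ G (n + 1) (2 * h) hGdeg, Finset.mul_sum, ← Finset.sum_add_distrib]
      refine Finset.sum_congr rfl fun j _ => ?_
      have h1 := tr_succ (x := x) hb (n + j)
      rw [show n + 1 + j = n + j + 1 by ring, h1]
      ring
    have hpow : ∀ i, c + i + W ≤ c' → V (c + i) = (b : ℤ) ^ i * V c := by
      intro i
      induction i with
      | zero => intro _; simp
      | succ i ih =>
        intro hi
        have h1 := ih (by omega)
        rw [← add_assoc, hstep, h1, hrel (c + i + 1) (by omega) (by omega), pow_succ]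
        ring
    have hVc := hpow (c' - W - c) (by omega)
    rw [show c + (c' - W - c) = c' - W by omega] at hVc
    -- `V n = G(b) U n + small`
    have hGb : G.eval (b : ℤ) = ∑ j ∈ Finset.range (2 * h + 1), G.coeff j * (b : ℤ) ^ j := by
      rw [Polynomial.eval_eq_sum_range' (by omega : G.natDegree < 2 * h + 1)]
    have hjW : ∀ j, j ∈ Finset.range (2 * h + 1) → (b : ℤ) ^ j ≤ (b : ℤ) ^ (W) := by
      intro j hj
      apply pow_le_pow_right₀ hb1
      have := Finset.mem_range.1 hj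
      omega
    have hGbd : |G.eval (b : ℤ)| ≤ (2 * h + 1) * B * (b : ℤ) ^ W := by
      rw [hGb]
      calc |∑ j ∈ Finset.range (2 * h + 1), G.coeff j * (b : ℤ) ^ j|
          ≤ ∑ j ∈ Finset.range (2 * h + 1), |G.coeff j * (b : ℤ) ^ j| :=
            Finset.abs_sum_le_sum_abs _ _
        _ ≤ ∑ _j ∈ Finset.range (2 * h + 1), B * (b : ℤ) ^ W := by
            refine Finset.sum_le_sum fun j hj => ?_
            rw [abs_mul, abs_of_nonneg (by positivity : (0 : ℤ) ≤ (b : ℤ) ^ j)]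
            exact mul_le_mul (hGh j) (hjW j hj) (by positivity) hBpos.le
        _ = (2 * h + 1) * B * (b : ℤ) ^ W := by
            rw [Finset.sum_const, Finset.card_range, nsmul_eq_mul]; push_cast; ring
    have hsm : ∀ n, |V n - G.eval (b : ℤ) * tr b x n| ≤ (2 * h + 1) * B * (b : ℤ) ^ W := by
      intro n
      rw [hV, hGb, Finset.sum_mul, ← Finset.sum_sub_distrib]
      calc |∑ j ∈ Finset.range (2 * h + 1), (G.coeff j * tr b x (n + j) -
            G.coeff j * (b : ℤ) ^ j * tr b x n)|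
          ≤ ∑ j ∈ Finset.range (2 * h + 1), |G.coeff j * tr b x (n + j) -
            G.coeff j * (b : ℤ) ^ j * tr b x n| := Finset.abs_sum_le_sum_abs _ _
        _ ≤ ∑ _j ∈ Finset.range (2 * h + 1), B * (b : ℤ) ^ W := by
            refine Finset.sum_le_sum fun j hj => ?_
            obtain ⟨h1, h2⟩ := tr_add (x := x) hb n j
            rw [show G.coeff j * tr b x (n + j) - G.coeff j * (b : ℤ) ^ j * tr b x n =
              G.coeff j * (tr b x (n + j) - (b : ℤ) ^ j * tr b x n) by ring, abs_mul,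
              abs_of_nonneg h1]
            exact mul_le_mul (hGh j) (h2.le.trans (hjW j hj)) h1 hBpos.le
        _ = (2 * h + 1) * B * (b : ℤ) ^ W := by
            rw [Finset.sum_const, Finset.card_range, nsmul_eq_mul]; push_cast; ring
    obtain ⟨h3, h4⟩ := tr_add (x := x) hb (c' - W) W
    rw [show c' - W + W = c' by omega] at h3 h4
    -- the identity with `G (b)`
    set g : ℤ := G.eval (b : ℤ) with hg
    set P : ℤ := V c - g * tr b x c with hP
    set P' : ℤ := (b : ℤ) ^ W * (V (c' - W) - g * tr b x (c' - W)) -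
      g * (tr b x c' - (b : ℤ) ^ W * tr b x (c' - W)) with hP'
    have hid : g * tr b x c' = (b : ℤ) ^ (c' - c) * (g * tr b x c + P) - P' := by
      have h8 : (b : ℤ) ^ (c' - c) = (b : ℤ) ^ (c' - W - c) * (b : ℤ) ^ W := by
        rw [← pow_add]; congr 1; omega
      rw [hP, hP', h8]
      linear_combination (b : ℤ) ^ W * hVc
    have hZ : (siz b h : ℤ) = 2 * ((2 * h + 1) * B) * ((b : ℤ) ^ W * (b : ℤ) ^ W) := by
      unfold siz
      rw [← pow_add, ← two_mul, hB]
      push_cast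
      ring
    have hbW1 : 1 ≤ (b : ℤ) ^ W := one_le_pow₀ hb1
    have hZ1 : (2 * h + 1) * B * (b : ℤ) ^ W ≤ siz b h := by
      rw [hZ]
      have : 0 ≤ (2 * (h : ℤ) + 1) * B := by positivity
      nlinarith [mul_nonneg this (by linarith : (0 : ℤ) ≤ (b : ℤ) ^ W)]
    have hP1 : |P| ≤ siz b h := (hsm c).trans hZ1
    have hP2 : |P'| ≤ siz b h := by
      have h5 : |P'| ≤ (b : ℤ) ^ W * ((2 * h + 1) * B * (b : ℤ) ^ W) +
          ((2 * h + 1) * B * (b : ℤ) ^ W) * (b : ℤ) ^ W := by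
        rw [hP']
        refine (abs_sub _ _).trans (add_le_add ?_ ?_)
        · rw [abs_mul, abs_of_nonneg (by linarith : (0 : ℤ) ≤ (b : ℤ) ^ W)]
          exact mul_le_mul_of_nonneg_left (hsm _) (by linarith)
        · rw [abs_mul, abs_of_nonneg h3]
          exact mul_le_mul hGbd h4.le h3 (by positivity)
      rw [hZ]
      linarith
    rcases lt_or_gt_of_ne hG0 with hneg | hpos
    · refine ⟨g.natAbs, -P, -P', Int.natAbs_pos.2 hG0, ?_, by rwa [abs_neg], by rwa [abs_neg], ?_⟩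
      · have h5 : ((g.natAbs : ℕ) : ℤ) ≤ siz b h := by
          rw [Int.natCast_natAbs]; exact hGbd.trans hZ1
        exact_mod_cast h5
      · have h5 : ((g.natAbs : ℕ) : ℤ) = -g := by
          rw [Int.natCast_natAbs, abs_of_neg hneg]
        rw [h5]
        linear_combination -hid
    · refine ⟨g.natAbs, P, P', Int.natAbs_pos.2 hG0, ?_, hP1, hP2, ?_⟩
      · have h5 : ((g.natAbs : ℕ) : ℤ) ≤ siz b h := by
          rw [Int.natCast_natAbs]; exact hGbd.trans hZ1
        exact_mod_cast h5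
      · have h5 : ((g.natAbs : ℕ) : ℤ) = g := by
          rw [Int.natCast_natAbs, abs_of_pos hpos]
        rw [h5]
        exact hid

end Pool.Agent.V5helper55.TB
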