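import Mathlib
import Pool.Agent.V5helper55.TB.Piece
import Pool.Agent.V5helper55.TB.Conv

/-!
# From words cut into few pieces with short linear recurrences to representations
-/

set_option autoImplicit false

open Filter Topology Finset

namespace Pool.Agent.V5helper55.TB

variable {U : Ultrafilter ℕ}

lemma wdt_mono (b : ℕ) {h h' : ℕ} (hh : h ≤ h') : wdt b h ≤ wdt b h' := by
  unfold wdt lss
  have h1 : (2 * h + 1) * b ≤ (2 * h' + 1) * b := Nat.mul_le_mul_right _ (by omega)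
  have h2 : Nat.log 2 ((2 * h + 1) * b) ≤ Nat.log 2 ((2 * h' + 1) * b) := Nat.log_mono_right h1
  have h3 : (2 * h + 1) * ((2 * h + 1) * b) * b + 1 ≤ (2 * h' + 1) * ((2 * h' + 1) * b) * b + 1 := by
    have := Nat.mul_le_mul_right b (Nat.mul_le_mul (show 2 * h + 1 ≤ 2 * h' + 1 by omega) h1)
    omega
  have h4 := Nat.clog_mono_right 2 h3
  have h5 := Nat.mul_le_mul h2 h4
  omega

lemma lss_le (b h : ℕ) : lss b h ≤ 2 * Nat.log 2 ((2 * h + 1) * b) + 2 := by
  unfold lss
  set m := (2 * h + 1) * b with hm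
  have h1 : m < 2 ^ (Nat.log 2 m + 1) := Nat.lt_pow_succ_log_self (by norm_num) m
  apply Nat.clog_le_of_le_pow
  have h2 : (2 * h + 1) * m * b = m * m := by rw [hm]; ring
  rw [h2]
  have h3 : m * m < 2 ^ (Nat.log 2 m + 1) * 2 ^ (Nat.log 2 m + 1) :=
    Nat.mul_lt_mul'' h1 h1
  rw [← pow_add, show Nat.log 2 m + 1 + (Nat.log 2 m + 1) = 2 * Nat.log 2 m + 2 by ring] at h3
  omega

lemma wdt_le {b : ℕ} (hb : 2 ≤ b) : ∀ᶠ n : ℕ in atTop, wdt b n ≤ 4 * n := by
  have hb0 : (0 : ℝ) < b := by exact_mod_cast (by omega : 0 < b)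
  have h1 : (fun x : ℝ => Real.log x ^ 2) =o[atTop] (id : ℝ → ℝ) := Real.isLittleO_pow_log_id_atTop
  have h2 := h1.bound (c := 1 / (36 * b)) (by positivity)
  have h3 : Tendsto (fun n : ℕ => (3 * (n : ℝ) * b)) atTop atTop := by
    have h4 : Tendsto (fun n : ℕ => (3 * (b : ℝ)) * (n : ℝ)) atTop atTop :=
      tendsto_natCast_atTop_atTop.const_mul_atTop (by positivity)
    refine h4.congr fun n => by ring
  have h4 := h3.eventually h2
  have h5 := h3.eventually (Real.tendsto_log_atTop.eventually_ge_atTop 1)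
  filter_upwards [h4, h5, eventually_ge_atTop 1] with n a1 a2 a3
  set m := (2 * n + 1) * b with hm
  have hm0 : 0 < m := by rw [hm]; positivity
  have hmx : (m : ℝ) ≤ 3 * (n : ℝ) * b := by
    rw [hm]; push_cast
    have : (1 : ℝ) ≤ n := by exact_mod_cast a3
    nlinarith
  set x : ℝ := 3 * (n : ℝ) * b with hx
  set L := Nat.log 2 m with hL
  have hLx : (L : ℝ) ≤ 2 * Real.log x := by
    have h6 : (2 : ℝ) ^ L ≤ m := by exact_mod_cast Nat.pow_log_le_self 2 hm0.ne'
    have h7 : (L : ℝ) * Real.log 2 ≤ Real.log x := by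
      have := Real.log_le_log (by positivity) (h6.trans hmx)
      rwa [Real.log_pow] at this
    have h8 : (1 / 2 : ℝ) ≤ Real.log 2 := by
      have := Real.log_two_gt_d9; linarith
    have h9 : (0 : ℝ) ≤ L := Nat.cast_nonneg _
    nlinarith
  simp only [id, norm_pow, Real.norm_eq_abs, sq_abs] at a1
  have hxn : |x| = 3 * n * b := by rw [hx, abs_of_nonneg (by positivity)]
  rw [hxn] at a1
  have h10 : (L : ℝ) * (2 * L + 2) ≤ n := by
    have h11 : (L : ℝ) * (2 * L + 2) ≤ 2 * Real.log x * (2 * (2 * Real.log x) + 2) :=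
      mul_le_mul hLx (by linarith) (by positivity) (by linarith)
    have h12 : 2 * Real.log x * (2 * (2 * Real.log x) + 2) ≤ 12 * Real.log x ^ 2 := by nlinarith
    have h13 : 12 * Real.log x ^ 2 ≤ 12 * (1 / (36 * b) * (3 * n * b)) := by linarith
    have h14 : 12 * (1 / (36 * (b : ℝ)) * (3 * n * b)) = n := by field_simp; norm_num
    linarith
  have h15 : L * (2 * L + 2) ≤ n := by exact_mod_cast h10
  unfold wdt
  have h16 := Nat.mul_le_mul_left L (lss_le b n)
  rw [← hm, ← hL] at *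
  omega

lemma wdt_small (hU : (U : Filter ℕ) ≤ atTop) {b : ℕ} (hb : 2 ≤ b) {p : ℕ → ℝ}
    (hp : ∀ ε : ℝ, 0 < ε → ∀ᶠ N : ℕ in U, p N ≤ ε * N) {ε : ℝ} (hε : 0 < ε) :
    ∀ᶠ N : ℕ in U, ∀ h : ℕ, (h : ℝ) ≤ p N → (wdt b h : ℝ) ≤ ε * N := by
  have h1 : Tendsto (fun N : ℕ => ⌈ε / 8 * (N : ℝ)⌉₊) atTop atTop := by
    apply tendsto_nat_ceil_atTop.comp
    exact tendsto_natCast_atTop_atTop.const_mul_atTop (by positivity)
  have h2 := hU (h1.eventually (wdt_le hb))
  filter_upwards [h2, hp (ε / 8) (by positivity), ev_ge hU (8 / ε)] with N a1 a2 a3 h hh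
  have h3 : h ≤ ⌈ε / 8 * (N : ℝ)⌉₊ := by
    have : (h : ℝ) ≤ ⌈ε / 8 * (N : ℝ)⌉₊ := (hh.trans a2).trans (Nat.le_ceil _)
    exact_mod_cast this
  have h4 := (wdt_mono b h3).trans a1
  have h5 : (wdt b h : ℝ) ≤ 4 * (⌈ε / 8 * (N : ℝ)⌉₊ : ℝ) := by exact_mod_cast h4
  have h6 : (⌈ε / 8 * (N : ℝ)⌉₊ : ℝ) < ε / 8 * N + 1 := Nat.ceil_lt_add_one (by positivity)
  rw [div_le_iff₀ hε] at a3
  linarith

lemma Sz.nat (hU : (U : Filter ℕ) ≤ atTop) : Sz U (fun N => (N : ℝ)) 0 := by
  intro ε hε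
  filter_upwards [Sz.const hU (2 / ε) (ε / 2) (by positivity)] with N hN
  have h1 : (N : ℝ) * (ε / 2) ≤ Real.exp (ε / 2 * N) := by
    have := Real.add_one_le_exp (ε / 2 * N)
    linarith
  have h2 : (N : ℝ) ≤ 2 / ε * Real.exp (ε / 2 * N) := by
    rw [div_mul_eq_mul_div, le_div_iff₀ hε]
    linarith
  rw [abs_of_nonneg (Nat.cast_nonneg _)]
  rw [abs_of_pos (by positivity : (0 : ℝ) < 2 / ε)] at hN
  calc (N : ℝ) ≤ 2 / ε * Real.exp (ε / 2 * N) := h2
    _ ≤ Real.exp ((0 + ε / 2) * N) * Real.exp (ε / 2 * N) :=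
        mul_le_mul_of_nonneg_right hN (Real.exp_pos _).le
    _ = Real.exp ((0 + ε) * N) := by rw [← Real.exp_add]; congr 1; ring

/-- the integers of the pieces are small -/
lemma siz_small (hU : (U : Filter ℕ) ≤ atTop) {b : ℕ} (hb : 2 ≤ b) {p : ℕ → ℝ}
    (hp : ∀ ε : ℝ, 0 < ε → ∀ᶠ N : ℕ in U, p N ≤ ε * N) {ε : ℝ} (hε : 0 < ε) :
    ∀ᶠ N : ℕ in U, ∀ h : ℕ, (h : ℝ) ≤ p N → (siz b h : ℝ) ≤ Real.exp (ε * N) := by
  have hb0 : (0 : ℝ) < b := by exact_mod_cast (by omega : 0 < b)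
  have hb1 : (1 : ℝ) < b := by exact_mod_cast (by omega : 1 < b)
  have hL : 0 < Real.log b := Real.log_pos hb1
  have h1 := wdt_small hU hb hp (ε := ε / (4 * Real.log b)) (by positivity)
  have h2 : Sz U (fun N => (18 * b : ℝ) * ((N : ℝ) * N)) 0 := by
    have := (Sz.const hU (18 * b : ℝ)).mul ((Sz.nat hU).mul (Sz.nat hU))
    simpa using this
  filter_upwards [h1, h2 (ε / 2) (by linarith), hp 1 one_pos, ev_ge hU 1] with N a1 a2 a3 a4 h hh
  have h3 := a1 h hh
  have h4 : (h : ℝ) ≤ N := by linarith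
  unfold siz
  push_cast
  have h5 : (2 * ((2 * (h : ℝ) + 1) * ((2 * h + 1) * b))) ≤ (18 * b : ℝ) * ((N : ℝ) * N) := by
    have h6 : 2 * (h : ℝ) + 1 ≤ 3 * N := by linarith
    have h7 : (2 * (h : ℝ) + 1) * (2 * h + 1) ≤ (3 * N) * (3 * N) :=
      mul_le_mul h6 h6 (by positivity) (by positivity)
    nlinarith
  have h6 : (b : ℝ) ^ (2 * wdt b h) ≤ Real.exp (ε / 2 * N) := by
    rw [← Real.rpow_natCast, Real.rpow_def_of_pos hb0, Real.exp_le_exp]
    push_cast
    calc Real.log b * (2 * (wdt b h : ℝ)) ≤ Real.log b * (2 * (ε / (4 * Real.log b) * N)) := by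
          apply mul_le_mul_of_nonneg_left _ hL.le
          linarith
      _ = ε / 2 * N := by field_simp; ring
  rw [abs_of_nonneg (by positivity)] at a2
  calc (2 * ((2 * (h : ℝ) + 1) * ((2 * h + 1) * b))) * (b : ℝ) ^ (2 * wdt b h)
      ≤ Real.exp ((0 + ε / 2) * N) * Real.exp (ε / 2 * N) :=
        mul_le_mul (h5.trans a2) h6 (by positivity) (Real.exp_pos _).le
    _ = Real.exp (ε * N) := by rw [← Real.exp_add]; congr 1; ring

/-- telescoping over the pieces -/
lemma tele2 {b : ℕ} (hb : 2 ≤ b) {x : ℝ} {K : ℕ} {c F : ℕ → ℕ} {P P' : ℕ → ℤ} (hc : Monotone c)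
    (hF : ∀ r < K, 1 ≤ F r)
    (h : ∀ r < K, (F r : ℤ) * tr b x (c (r + 1)) =
      (b : ℤ) ^ (c (r + 1) - c r) * ((F r : ℤ) * tr b x (c r) + P r) - P' r) :
    (tr b x (c K) : ℝ) / (b : ℝ) ^ c K = (tr b x (c 0) : ℝ) / (b : ℝ) ^ c 0 +
      ∑ r ∈ Finset.range K, ((P r : ℝ) / (b : ℝ) ^ c r - (P' r : ℝ) / (b : ℝ) ^ c (r + 1)) /
        (F r : ℝ) := by
  have hb0 : (b : ℝ) ≠ 0 := by exact_mod_cast (by omega : b ≠ 0)
  induction K with
  | zero => simp
  | succ K ih =>
    rw [Finset.sum_range_succ, ← add_assoc,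
      ← ih (fun r hr => hF r (by omega)) (fun r hr => h r (by omega))]
    have h1 := h K (by omega)
    have h2 : (F K : ℝ) * tr b x (c (K + 1)) =
      (b : ℝ) ^ (c (K + 1) - c K) * ((F K : ℝ) * tr b x (c K) + P K) - P' K := by
      exact_mod_cast h1
    have h4 : (F K : ℝ) ≠ 0 := by
      have := hF K (by omega)
      exact_mod_cast (by omega : F K ≠ 0)
    have h5 : (b : ℝ) ^ c (K + 1) = (b : ℝ) ^ (c (K + 1) - c K) * (b : ℝ) ^ c K := by
      rw [← pow_add]
      congr 1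
      have := hc (Nat.le_succ K)
      simp only [Nat.succ_eq_add_one] at this
      omega
    have h6 : (tr b x (c (K + 1)) : ℝ) = ((b : ℝ) ^ (c (K + 1) - c K) *
        ((F K : ℝ) * tr b x (c K) + P K) - P' K) / (F K : ℝ) := by
      rw [eq_div_iff h4]; linarith
    rw [h6, h5]
    have h7 : (b : ℝ) ^ (c (K + 1) - c K) ≠ 0 := pow_ne_zero _ hb0
    field_simp
    ring

/-- **Windows cut into few pieces with short linear recurrences have representations.** -/
theorem rep_of_cutsL (hU : (U : Filter ℕ) ≤ atTop) {b : ℕ} (hb : 2 ≤ b) {x R : ℝ} (hR : 1 < R)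
    {K : ℕ} {p : ℕ → ℝ} (hp : ∀ ε : ℝ, 0 < ε → ∀ᶠ N : ℕ in U, p N ≤ ε * N)
    (h : ∀ᶠ N : ℕ in U, CutL (digit b x) (pos b 1 N) (pos b R N) K (p N)) :
    Nonempty (Rep U b x R (K + K)) := by
  classical
  have hb0 : (0 : ℝ) < b := by exact_mod_cast (by omega : 0 < b)
  have hb1 : (1 : ℝ) < b := by exact_mod_cast (by omega : 1 < b)
  have hL : 0 < Real.log b := Real.log_pos hb1
  -- choice of the data
  have h1 : ∀ᶠ N : ℕ in U, ∃ w : (ℕ → ℕ) × (ℕ → ℕ) × (ℕ → ℕ) × (ℕ → ℤ) × (ℕ → ℤ), Monotone w.1 ∧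
      w.1 0 = pos b 1 N ∧ w.1 K = pos b R N ∧ ∀ r < K, (w.2.1 r : ℝ) ≤ p N ∧
      1 ≤ w.2.2.1 r ∧ w.2.2.1 r ≤ siz b (w.2.1 r) ∧
      |w.2.2.2.1 r| ≤ siz b (w.2.1 r) ∧ |w.2.2.2.2 r| ≤ siz b (w.2.1 r) ∧
      (w.2.2.1 r : ℤ) * tr b x (w.1 (r + 1)) = (b : ℤ) ^ (w.1 (r + 1) - w.1 r) *
        ((w.2.2.1 r : ℤ) * tr b x (w.1 r) + w.2.2.2.1 r) - w.2.2.2.2 r := by
    filter_upwards [h] with N hN
    obtain ⟨c, hc1, hc2, hc3, hc4⟩ := hN
    have h2 : ∀ r, ∃ (s F : ℕ) (P P' : ℤ), r < K → ((s : ℝ) ≤ p N ∧ 1 ≤ F ∧ F ≤ siz b s ∧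
        |P| ≤ siz b s ∧ |P'| ≤ siz b s ∧
        (F : ℤ) * tr b x (c (r + 1)) = (b : ℤ) ^ (c (r + 1) - c r) *
          ((F : ℤ) * tr b x (c r) + P) - P') := by
      intro r
      by_cases hr : r < K
      · obtain ⟨s, h4, a, ha0, ha⟩ := hc4 r hr
        obtain ⟨F, P, P', h5, h6, h7, h8, h9⟩ := pieceL (x := x) hb (hc1 (Nat.le_succ r)) ha0 ha
        exact ⟨s, F, P, P', fun _ => ⟨h4, h5, h6, h7, h8, h9⟩⟩
      · exact ⟨0, 0, 0, 0, fun h => absurd h hr⟩
    choose s F P P' hs using h2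
    exact ⟨⟨c, s, F, P, P'⟩, hc1, hc2, hc3, fun r hr => hs r hr⟩
  obtain ⟨w, hw⟩ := h1.choice
  let c : ℕ → ℕ → ℕ := fun N => (w N).1
  let s : ℕ → ℕ → ℕ := fun N => (w N).2.1
  let F : ℕ → ℕ → ℕ := fun N => (w N).2.2.1
  let P : ℕ → ℕ → ℤ := fun N => (w N).2.2.2.1
  let P' : ℕ → ℕ → ℤ := fun N => (w N).2.2.2.2
  have hw' : ∀ᶠ N : ℕ in U, Monotone (c N) ∧
      c N 0 = pos b 1 N ∧ c N K = pos b R N ∧ ∀ r < K, (s N r : ℝ) ≤ p N ∧
      1 ≤ F N r ∧ F N r ≤ siz b (s N r) ∧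
      |P N r| ≤ siz b (s N r) ∧ |P' N r| ≤ siz b (s N r) ∧
      (F N r : ℤ) * tr b x (c N (r + 1)) = (b : ℤ) ^ (c N (r + 1) - c N r) *
        ((F N r : ℤ) * tr b x (c N r) + P N r) - P' N r := hw
  clear_value c s F P P'
  let Qh : ℕ → Finset ℕ → ℕ := fun N S => ∏ r ∈ S, F N r
  have hsm : ∀ r < K, Sz U (fun N => (siz b (s N r) : ℝ)) 0 := by
    intro r hr ε hε
    filter_upwards [hw', siz_small hU hb hp hε] with N h3 h4
    rw [abs_of_nonneg (Nat.cast_nonneg _), zero_add]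
    exact h4 _ (h3.2.2.2 r hr).1
  have hFs : ∀ r < K, Sz U (fun N => (F N r : ℝ)) 0 := by
    intro r hr
    refine (hsm r hr).of_le ?_
    filter_upwards [hw'] with N hN
    rw [Nat.abs_cast, Nat.abs_cast]
    exact_mod_cast (hN.2.2.2 r hr).2.2.1
  have hQhs : ∀ S : Finset ℕ, S ⊆ Finset.range K → Sz U (fun N => (Qh N S : ℝ)) 0 := by
    intro S
    induction S using Finset.induction_on with
    | empty => intro _; simpa [Qh] using Sz.const hU (1 : ℝ)
    | insert a S ha ih =>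
      intro hS
      have h3 := (hFs a (Finset.mem_range.1 (hS (Finset.mem_insert_self _ _)))).mul
        (ih fun y hy => hS (Finset.mem_insert_of_mem hy))
      simp only [add_zero] at h3
      simp only [Qh, Finset.prod_insert ha, Nat.cast_mul] at h3 ⊢
      exact h3
  have hPs : ∀ r < K, Sz U (fun N => (P N r : ℝ)) 0 ∧ Sz U (fun N => (P' N r : ℝ)) 0 := by
    intro r hr
    constructor
    · refine (hsm r hr).of_le ?_
      filter_upwards [hw'] with N hN
      rw [Nat.abs_cast]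
      exact_mod_cast (hN.2.2.2 r hr).2.2.2.1
    · refine (hsm r hr).of_le ?_
      filter_upwards [hw'] with N hN
      rw [Nat.abs_cast]
      exact_mod_cast (hN.2.2.2 r hr).2.2.2.2.1
  -- positions
  let nn : ℕ → Fin (K + K + 1) → ℕ := fun N => Fin.cases (pos b 1 N)
    (fun j => Fin.addCases (fun r : Fin K => c N r) (fun r : Fin K => c N (r + 1)) j)
  let uu : ℕ → Fin (K + K + 1) → ℤ := fun N => Fin.cases
    ((Qh N (Finset.range K) : ℤ) * tr b x (pos b 1 N))
    (fun j => Fin.addCases (fun r : Fin K => (Qh N ((Finset.range K).erase r) : ℤ) * P N r)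
      (fun r : Fin K => -((Qh N ((Finset.range K).erase r) : ℤ) * P' N r)) j)
  have hnn : ∀ j, ∀ᶠ N : ℕ in U, pos b 1 N ≤ nn N j ∧ nn N j ≤ pos b R N := by
    intro j
    have hposle : ∀ N : ℕ, pos b 1 N ≤ pos b R N := by
      intro N
      unfold pos
      apply Nat.ceil_le_ceil
      apply div_le_div_of_nonneg_right _ hL.le
      exact mul_le_mul_of_nonneg_right hR.le (Nat.cast_nonneg _)
    refine Fin.cases ?_ (fun j => ?_) j
    · filter_upwards with N
      exact ⟨le_refl _, hposle N⟩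
    · refine Fin.addCases (fun r => ?_) (fun r => ?_) j
      · filter_upwards [hw'] with N hN
        simp only [nn, Fin.cases_succ, Fin.addCases_left]
        exact ⟨hN.2.1 ▸ hN.1 (Nat.zero_le _), hN.2.2.1 ▸ hN.1 r.2.le⟩
      · filter_upwards [hw'] with N hN
        simp only [nn, Fin.cases_succ, Fin.addCases_right]
        exact ⟨hN.2.1 ▸ hN.1 (Nat.zero_le _), hN.2.2.1 ▸ hN.1 (by omega)⟩
  have hlim := fun j => exists_lim hU hb hR.le (hnn j)
  choose τ' hτ1 hτR hτE using hlim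
  let τ : Fin (K + K + 1) → ℝ := fun j => if j = 0 then 1 else τ' j
  have hτE' : ∀ j, Eq U (fun N => b ^ (nn N j)) (τ j) := by
    intro j
    by_cases hj : j = 0
    · subst hj
      simp only [τ, if_true]
      exact pos_eq hU hb zero_le_one
    · simp only [τ, hj, if_false]
      exact hτE j
  refine trim hU hb hR (fun N => max 1 (Qh N (Finset.range K))) uu nn τ (fun N => le_max_left _ _)
    ?_ ?_ hτE' (by simp [τ]) (fun j => ?_) (fun j => ?_) ?_
  · have h3 := Sz.sum hU (Finset.univ : Finset (Fin 2)) (z := fun i N => if i = 0 then (1 : ℝ) else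
      (Qh N (Finset.range K) : ℝ)) (c := 0) (by
        intro i _
        by_cases hi : i = 0
        · simp only [hi, if_true]; exact Sz.const hU 1
        · simp only [hi, if_false]; exact hQhs _ (Finset.Subset.refl _))
    refine h3.of_le (Eventually.of_forall fun N => ?_)
    rw [Fin.sum_univ_two]
    simp only [if_true, one_ne_zero, if_false]
    rw [abs_of_nonneg (by positivity), abs_of_nonneg (by positivity)]
    push_cast
    exact max_le (by linarith [show (0 : ℝ) ≤ Qh N (Finset.range K) from Nat.cast_nonneg _])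
      (by linarith)
  · intro j
    refine Fin.cases ?_ (fun j => ?_) j
    · simp only [if_true]
      have h3 : Sz U (fun N => (tr b x (pos b 1 N) : ℝ)) 1 := by
        have h4 := (Sz.const hU (|x| + 1)).mul (pos_eq hU hb (R := 1) zero_le_one).toSz
        rw [zero_add] at h4
        refine h4.of_le (Eventually.of_forall fun N => ?_)
        rw [abs_of_nonneg (by positivity : (0 : ℝ) ≤ (|x| + 1) * ((b ^ pos b 1 N : ℕ) : ℝ))]
        have h5 : (1 : ℝ) ≤ (b : ℝ) ^ pos b 1 N := one_le_pow₀ hb1.le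
        have h6 := Int.floor_le (x * (b : ℝ) ^ pos b 1 N)
        have h7 := Int.lt_floor_add_one (x * (b : ℝ) ^ pos b 1 N)
        have h8 : |x * (b : ℝ) ^ pos b 1 N| = |x| * (b : ℝ) ^ pos b 1 N := by
          rw [abs_mul, abs_of_nonneg (by positivity : (0 : ℝ) ≤ (b : ℝ) ^ pos b 1 N)]
        push_cast
        unfold tr
        rw [abs_le]
        have h9 := abs_le.1 h8.le
        constructor
        · nlinarith
        · nlinarith
      have h4 := (hQhs _ (Finset.Subset.refl _)).mul h3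
      rw [zero_add] at h4
      simp only [uu, Fin.cases_zero, Int.cast_mul, Int.cast_natCast]
      exact h4
    · simp only [Fin.succ_ne_zero, if_false]
      refine Fin.addCases (fun r => ?_) (fun r => ?_) j
      · have h3 := (hQhs _ (Finset.erase_subset (r : ℕ) _)).mul (hPs r r.2).1
        simp only [uu, Fin.cases_succ, Fin.addCases_left, Int.cast_mul, Int.cast_natCast]
        rw [add_zero] at h3
        exact h3
      · have h3 := (hQhs _ (Finset.erase_subset (r : ℕ) _)).mul (hPs r r.2).2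
        simp only [uu, Fin.cases_succ, Fin.addCases_right, Int.cast_mul, Int.cast_natCast,
          Int.cast_neg]
        rw [add_zero] at h3
        refine h3.of_le (Eventually.of_forall fun N => ?_)
        rw [abs_neg]
  · simp only [τ]; split_ifs
    · exact le_refl _
    · exact hτ1 j
  · simp only [τ]; split_ifs
    · exact hR.le
    · exact hτR j
  · -- the error
    have herr : Sz U (fun N => (((b ^ pos b R N : ℕ) : ℝ))⁻¹) (-R) :=
      (pos_eq hU hb (by linarith)).inv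
    refine herr.of_le ?_
    filter_upwards [hw'] with N hN
    have hQ1 : 1 ≤ Qh N (Finset.range K) :=
      Nat.one_le_iff_ne_zero.2 (Finset.prod_ne_zero_iff.2 fun r hr => by
        have := (hN.2.2.2 r (Finset.mem_range.1 hr)).2.1
        omega)
    rw [max_eq_right hQ1]
    have hQ0 : (Qh N (Finset.range K) : ℝ) ≠ 0 := by
      exact_mod_cast (by omega : Qh N (Finset.range K) ≠ 0)
    have htele := tele2 (x := x) hb hN.1 (fun r hr => (hN.2.2.2 r hr).2.1)
      (fun r hr => (hN.2.2.2 r hr).2.2.2.2.2)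
    have h3 : (∑ j, (uu N j : ℝ) / (b : ℝ) ^ (nn N j)) / (Qh N (Finset.range K) : ℝ) =
        (tr b x (c N K) : ℝ) / (b : ℝ) ^ c N K := by
      rw [htele, Fin.sum_univ_succ, Fin.sum_univ_add, add_div]
      congr 1
      · simp only [uu, nn, Fin.cases_zero]
        rw [hN.2.1]
        push_cast
        field_simp
      · rw [← Finset.sum_add_distrib, Finset.sum_div, ← Fin.sum_univ_eq_sum_range
          (fun r => ((P N r : ℝ) / (b : ℝ) ^ c N r - (P' N r : ℝ) / (b : ℝ) ^ c N (r + 1)) /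
            (F N r : ℝ)) K]
        refine Finset.sum_congr rfl fun r _ => ?_
        simp only [uu, nn, Fin.cases_succ, Fin.addCases_left, Fin.addCases_right]
        have h4 : (Qh N (Finset.range K) : ℝ) =
            (F N r : ℝ) * (Qh N ((Finset.range K).erase r) : ℝ) := by
          have h5 : Qh N (Finset.range K) = F N r * Qh N ((Finset.range K).erase r) := by
            simp only [Qh]
            rw [Finset.mul_prod_erase _ _ (Finset.mem_range.2 r.2)]
          exact_mod_cast h5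
        have h5 : (F N r : ℝ) ≠ 0 := by
          intro h0; rw [h0, zero_mul] at h4; exact hQ0 h4
        have h6 : (Qh N ((Finset.range K).erase r) : ℝ) ≠ 0 := by
          intro h0; rw [h0, mul_zero] at h4; exact hQ0 h4
        rw [h4]
        push_cast
        have hbn : (b : ℝ) ≠ 0 := hb0.ne'
        field_simp
        ring
    rw [h3, hN.2.2.1]
    have h4 : (0 : ℝ) < (b : ℝ) ^ pos b R N := by positivity
    have h5 := Int.floor_le (x * (b : ℝ) ^ pos b R N)
    have h6 := Int.lt_floor_add_one (x * (b : ℝ) ^ pos b R N)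
    have h7 : x - (tr b x (pos b R N) : ℝ) / (b : ℝ) ^ pos b R N =
        (x * (b : ℝ) ^ pos b R N - tr b x (pos b R N)) / (b : ℝ) ^ pos b R N := by
      field_simp
    rw [h7, abs_div, abs_of_pos h4, abs_of_nonneg (by unfold tr; linarith)]
    push_cast
    rw [abs_of_nonneg (by positivity), div_eq_mul_inv]
    have h8 : (0 : ℝ) < ((b : ℝ) ^ pos b R N)⁻¹ := by positivity
    have h9 : x * (b : ℝ) ^ pos b R N - (tr b x (pos b R N) : ℝ) ≤ 1 := by unfold tr; linarith
    nlinarith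

end Pool.Agent.V5helper55.TB
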