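import Mathlib
import Pool.Agent.V5helper55.TB.Conv2
import Pool.Agent.V5helper55.TB.Main

/-!
# The main theorems on windows
-/

set_option autoImplicit false

open Filter Topology Finset

namespace Pool.Agent.V5helper55.TB

/-- `b ^ m ≤ T`, `T ^ R ≤ b ^ M`: the window from `T` to `T ^ R` is never, for large `T`, cut into
`K` pieces with linear recurrences of order at most `ε log T` in all the bases -/
def ScatteredL {k : ℕ} (b : Fin k → ℕ) (x : Fin k → ℝ) (R : ℝ) : Prop :=
  ∀ K : ℕ, ∃ ε : ℝ, 0 < ε ∧ ∃ T0 : ℝ, ∀ T : ℝ, T0 ≤ T → ∀ m M : Fin k → ℕ,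
    (∀ i, (b i : ℝ) ^ m i ≤ T ∧ T ^ R ≤ (b i : ℝ) ^ M i) →
    ¬ ∀ i, CutL (digit (b i) (x i)) (m i) (M i) K (ε * Real.log T)

/-- if there are no representations then the windows are not simple -/
theorem scatteredL_of {k : ℕ} (b : Fin k → ℕ) (hb : ∀ i, 2 ≤ b i) (x : Fin k → ℝ) {R1 R : ℝ}
    (hR1 : 1 < R1) (hR : R1 < R)
    (h : ∀ (U : Ultrafilter ℕ), (U : Filter ℕ) ≤ atTop → ∀ K : ℕ,
      (∀ i, Nonempty (Rep U (b i) (x i) R1 K)) → False) : ScatteredL b x R := by
  intro K
  by_contra hcon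
  push Not at hcon
  -- the simple scales
  let A : ℕ → ℕ → Prop := fun q N => ∀ i, CutL (digit (b i) (x i)) (pos (b i) 1 N)
    (pos (b i) R1 N) K (N / ((q : ℝ) + 1))
  have hA : ∀ q, ∃ᶠ N in atTop, A q N := by
    intro q
    rw [frequently_atTop]
    intro a
    have hq0 : (0 : ℝ) < (q : ℝ) + 1 := by positivity
    have hRR : 0 < R - R1 := by linarith
    set E : ℝ := ∑ i, Real.log (b i) with hE
    have hEi : ∀ i, Real.log (b i) ≤ E := fun i =>
      Finset.single_le_sum (f := fun i => Real.log (b i)) (fun j _ => Real.log_natCast_nonneg _)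
        (Finset.mem_univ i)
    have hE0 : 0 ≤ E := Finset.sum_nonneg fun j _ => Real.log_natCast_nonneg _
    obtain ⟨T, hT, m, M, hmM, hcut⟩ := hcon (1 / ((q : ℝ) + 1)) (by positivity)
      (Real.exp (max (a : ℝ) ((R + E) / (R - R1) + 1)))
    have hTpos : 0 < T := lt_of_lt_of_le (Real.exp_pos _) hT
    have hlog : max (a : ℝ) ((R + E) / (R - R1) + 1) ≤ Real.log T := by
      rw [Real.le_log_iff_exp_le hTpos]; exact hT
    have hlog0 : 0 ≤ Real.log T := le_trans (le_trans (Nat.cast_nonneg a) (le_max_left _ _)) hlog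
    set N : ℕ := ⌈Real.log T⌉₊ with hN
    have hN1 : Real.log T ≤ N := Nat.le_ceil _
    have hN2 : (N : ℝ) < Real.log T + 1 := Nat.ceil_lt_add_one hlog0
    have hNa : a ≤ N := by
      have : (a : ℝ) ≤ N := (le_max_left _ _).trans (hlog.trans hN1)
      exact_mod_cast this
    refine ⟨N, hNa, fun i => ?_⟩
    have hb0 : (0 : ℝ) < b i := by have := hb i; exact_mod_cast (by omega : 0 < b i)
    have hb1 : (1 : ℝ) < b i := by have := hb i; exact_mod_cast (by omega : 1 < b i)
    have hL : 0 < Real.log (b i) := Real.log_pos hb1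
    have hN0 : (0 : ℝ) ≤ N := Nat.cast_nonneg _
    refine ((hcut i).sub (m' := pos (b i) 1 N) (M' := pos (b i) R1 N) ?_ ?_ ?_).mono ?_
    · -- m ≤ pos 1
      have h1 := (hmM i).1
      have h2 : (m i : ℝ) * Real.log (b i) ≤ Real.log T := by
        have := Real.log_le_log (by positivity) h1
        rwa [Real.log_pow] at this
      have h3 : (m i : ℝ) ≤ pos (b i) 1 N := by
        refine le_trans ?_ (Nat.le_ceil _)
        rw [le_div_iff₀ hL]
        linarith
      exact_mod_cast h3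
    · unfold pos
      apply Nat.ceil_le_ceil
      apply div_le_div_of_nonneg_right _ hL.le
      exact mul_le_mul_of_nonneg_right hR1.le hN0
    · -- pos R1 ≤ M
      have h1 := (hmM i).2
      have h2 : R * Real.log T ≤ M i * Real.log (b i) := by
        have := Real.log_le_log (Real.rpow_pos_of_pos hTpos _) h1
        rwa [Real.log_pow, Real.log_rpow hTpos] at this
      have h3 : (R + E) / (R - R1) ≤ N := by
        have := (le_max_right (a : ℝ) ((R + E) / (R - R1) + 1)).trans hlog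
        linarith
      rw [div_le_iff₀ hRR] at h3
      have h4 : R1 * N + Real.log (b i) ≤ M i * Real.log (b i) := by
        have h5 := hEi i
        have h6 : R * (N - 1) ≤ R * Real.log T :=
          mul_le_mul_of_nonneg_left (by linarith) (by linarith)
        nlinarith
      have h5 : (pos (b i) R1 N : ℝ) < M i + 1 := by
        have h6 : (pos (b i) R1 N : ℝ) < R1 * N / Real.log (b i) + 1 :=
          Nat.ceil_lt_add_one (by positivity)
        have h7 : R1 * N / Real.log (b i) + 1 ≤ M i := by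
          have h8 : R1 * N / Real.log (b i) + 1 = (R1 * N + Real.log (b i)) / Real.log (b i) := by
            field_simp
          rw [h8, div_le_iff₀ hL]
          exact h4
        linarith
      have h6 : pos (b i) R1 N < M i + 1 := by exact_mod_cast h5
      omega
    · rw [one_div, div_eq_mul_inv, mul_comm (N : ℝ)]
      exact mul_le_mul_of_nonneg_left hN1 (by positivity)
  obtain ⟨U, w, hU, hw, hUA⟩ := exists_ultra A hA
  refine h U hU (K + K) fun i => ?_
  refine rep_of_cutsL hU (hb i) hR1 (p := fun N => N / ((w N : ℝ) + 1)) ?_ ?_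
  · intro ε hε
    filter_upwards [hw ⌈1 / ε⌉₊] with N hN
    have h1 : 1 / ε ≤ (w N : ℝ) := (Nat.le_ceil _).trans (by exact_mod_cast hN)
    have h2 : (0 : ℝ) < (w N : ℝ) + 1 := by positivity
    rw [div_le_iff₀ h2]
    rw [div_le_iff₀ hε] at h1
    have h3 : (0 : ℝ) ≤ N := Nat.cast_nonneg _
    nlinarith
  · filter_upwards [hUA] with N hN
    exact hN i

/-- **Theorem 1**: hyperplanes with at most one rational point. -/
theorem scatteredL_unique {k : ℕ} (b : Fin k → ℕ) (hb : ∀ i, 2 ≤ b i) (x α : Fin k → ℝ)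
    (hα : ∀ i, IsAlgebraic ℚ (α i)) {γ : ℝ} (hγ : IsAlgebraic ℚ γ) (hrel : ∑ i, α i * x i = γ)
    (huniq : ∀ q q' : Fin k → ℚ, ∑ i, α i * (q i : ℝ) = γ → ∑ i, α i * (q' i : ℝ) = γ → q = q')
    (hx : ∃ i, Irrational (x i)) {R : ℝ} (hR : (k : ℝ) < R) : ScatteredL b x R := by
  have hk : (1 : ℝ) ≤ k := by
    obtain ⟨i, _⟩ := hx
    have : 0 < k := Fin.pos i
    exact_mod_cast this
  refine scatteredL_of b hb x (R1 := (k + R) / 2) (by linarith) (by linarith) ?_
  intro U hU K hrep
  exact no_rep_unique hU b hb x α hα hγ hrel huniq hx (R := (k + R) / 2) (by linarith)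
    (fun i => (hrep i).some)

/-- **Theorem 2**: multiplicatively independent bases. -/
theorem scatteredL_indep {a b : ℕ} (ha : 2 ≤ a) (hb : 2 ≤ b)
    (hab : ∀ k l : ℕ, a ^ k = b ^ l → k = 0 ∧ l = 0) {x y : ℝ} {q1 q2 q3 : ℤ} (hq1 : q1 ≠ 0)
    (hq2 : q2 ≠ 0) (hrel : (q1 : ℝ) * x + q2 * y = q3) {μ c R : ℝ} (hμ0 : 0 ≤ μ) (hc : 0 < c)
    (hmeas : ∀ q : ℕ, 1 ≤ q → ∀ r : ℤ, c ≤ |x - r / q| * (q : ℝ) ^ μ) (hμ : μ < R) (hR : 2 < R) :
    ScatteredL ![a, b] ![x, y] R := by
  have hR1 : (max 2 μ + R) / 2 < R := by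
    have := max_lt hR hμ
    linarith
  have h2 : 2 < (max 2 μ + R) / 2 := by
    have := le_max_left 2 μ
    linarith
  have h3 : μ < (max 2 μ + R) / 2 := by
    have := le_max_right 2 μ
    linarith
  refine scatteredL_of ![a, b] (by intro i; fin_cases i; exacts [ha, hb]) ![x, y]
    (R1 := (max 2 μ + R) / 2) (by linarith) hR1 ?_
  intro U hU K hrep
  exact no_rep_indep hU ha hb hab hq1 hq2 hrel hμ0 hc hmeas h3 h2 (hrep 0).some (hrep 1).some

lemma ScatteredL.toScattered {k : ℕ} {b : Fin k → ℕ} {x : Fin k → ℝ} {R : ℝ}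
    (h : ScatteredL b x R) : Scattered b x R := by
  intro K
  obtain ⟨ε, hε, T0, h1⟩ := h K
  exact ⟨ε, hε, T0, fun T hT m M hmM hcut => h1 T hT m M hmM fun i => (hcut i).toL⟩

end Pool.Agent.V5helper55.TB
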