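import Mathlib
import Pool.Agent.V5helper55.TB.Ind

/-!
# The subspace theorem along an ultrafilter, several forms
-/

set_option autoImplicit false

open Filter Topology Finset

namespace Pool.Agent.V5helper55.TB

/-- the subspace theorem along an ultrafilter for a lower triangular matrix -/
theorem ultra_sub_mat {n : ℕ} (hn : 1 ≤ n) (U : Ultrafilter ℕ) (hU : (U : Filter ℕ) ≤ atTop)
    {B : ℕ} (hB : 2 ≤ B)
    (κ : ℕ) (x : ℕ → Fin n → ℤ) (D : ℕ → Fin n → ℕ)
    (hD : ∀ᶠ N : ℕ in U, ∀ l, D N l ∣ B ^ (κ * N)) (hdiv : ∀ᶠ N : ℕ in U, ∀ l, (D N l : ℤ) ∣ x N l)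
    (ρ d : Fin n → ℝ) (hd : ∀ l, Eq U (fun N => D N l) (d l))
    (M : Matrix (Fin n) (Fin n) ℝ) (halg : ∀ i j, IsAlgebraic ℚ (M i j))
    (htri : ∀ i j, i < j → M i j = 0) (hdiag : ∀ i, M i i ≠ 0)
    (hform : ∀ l, Sz U (fun N => ∑ j, M l j * x N j) (ρ l))
    (hgain : ∑ l, ρ l - ∑ l, d l < 0) :
    ∃ y : Fin n → ℤ, y ≠ 0 ∧ ∀ᶠ N : ℕ in U, ∑ l, y l * x N l = 0 := by
  classical
  by_contra hcon
  push Not at hcon
  set g : ℝ := ∑ l, ρ l - ∑ l, d l with hg
  set ε : ℝ := -g / (2 * n + 1) with hε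
  have hn0 : (0 : ℝ) ≤ n := Nat.cast_nonneg n
  have hε0 : 0 < ε := by
    rw [hε]; apply div_pos <;> linarith
  have hεg : (2 * n + 1) * ε = -g := by
    rw [hε]; field_simp
  have hB0 : (0 : ℝ) < B := by exact_mod_cast (by omega : 0 < B)
  have hB1 : (1 : ℝ) < B := by exact_mod_cast (by omega : 1 < B)
  have hL : 0 < Real.log B := Real.log_pos hB1
  -- the good set
  have hE : ∀ᶠ N : ℕ in U, (∀ l, D N l ∣ B ^ (κ * N)) ∧ (∀ l, (D N l : ℤ) ∣ x N l) ∧
      (∀ l, |∑ j, M l j * (x N j : ℝ)| ≤ Real.exp ((ρ l + ε) * (N : ℝ))) ∧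
      (∀ l, Real.exp ((d l - ε) * (N : ℝ)) ≤ (D N l : ℝ)) := by
    have h1 : ∀ᶠ N : ℕ in U, ∀ l, |∑ j, M l j * (x N j : ℝ)| ≤ Real.exp ((ρ l + ε) * (N : ℝ)) :=
      eventually_all.2 fun l => hform l ε hε0
    have h2 : ∀ᶠ N : ℕ in U, ∀ l, Real.exp ((d l - ε) * (N : ℝ)) ≤ (D N l : ℝ) :=
      eventually_all.2 fun l => (hd l ε hε0).mono fun N h => h.1
    filter_upwards [hD, hdiv, h1, h2] with N a1 a2 a3 a4
    exact ⟨a1, a2, a3, a4⟩
  -- enumeration of the vectors
  have hne : Nonempty {y : Fin n → ℤ // y ≠ 0} :=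
    ⟨⟨fun _ => 1, fun h => by simpa using congrFun h ⟨0, hn⟩⟩⟩
  obtain ⟨Y, hY⟩ := exists_surjective_nat {y : Fin n → ℤ // y ≠ 0}
  have hA : ∀ q : ℕ, ∃ N : ℕ, q ≤ N ∧ ((∀ l, D N l ∣ B ^ (κ * N)) ∧ (∀ l, (D N l : ℤ) ∣ x N l) ∧
      (∀ l, |∑ j, M l j * (x N j : ℝ)| ≤ Real.exp ((ρ l + ε) * (N : ℝ))) ∧
      (∀ l, Real.exp ((d l - ε) * (N : ℝ)) ≤ (D N l : ℝ))) ∧
      ∀ i ∈ Finset.range (q + 1), ∑ l, (Y i).1 l * x N l ≠ 0 := by
    intro q
    have h1 : ∀ᶠ N : ℕ in U, ∀ i ∈ Finset.range (q + 1), ∑ l, (Y i).1 l * x N l ≠ 0 := by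
      rw [eventually_all_finset]
      intro i _
      exact hcon _ (Y i).2
    have h2 : ∀ᶠ N : ℕ in U, q ≤ N := hU (eventually_ge_atTop q)
    obtain ⟨N, a1, a2, a3⟩ := (h2.and (hE.and h1)).exists
    exact ⟨N, a1, a2, a3⟩
  choose f hf1 hf2 hf3 using hA
  let P : ℕ → Prop := fun m => ∃ q, m = f q
  have hP : ∃ᶠ m in atTop, P m := by
    rw [frequently_atTop]
    intro a
    exact ⟨f a, hf1 a, a, rfl⟩
  have hrp : ∀ (c : ℝ) (m : ℕ), (B : ℝ) ^ (c / Real.log B * (m : ℝ)) = Real.exp (c * m) := by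
    intro c m
    rw [Real.rpow_def_of_pos hB0]
    congr 1
    field_simp
  obtain ⟨y, hy0, hy⟩ := Pool.Agent.R333.SubR.sub_real (n := n) hn B hB M halg htri hdiag
    P hP x
    (by
      rintro m ⟨q, rfl⟩ h0
      apply hf3 q 0 (by simp)
      simp [h0])
    D κ
    (by rintro m l ⟨q, rfl⟩; exact (hf2 q).1 l)
    (by rintro m l ⟨q, rfl⟩; exact (hf2 q).2.1 l)
    (fun l => (ρ l + ε) / Real.log B) 1 one_pos
    (by
      rintro m l ⟨q, rfl⟩
      rw [hrp, one_mul]
      exact (hf2 q).2.2.1 l)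
    (ε / Real.log B) (by positivity)
    (by
      rintro m ⟨q, rfl⟩
      obtain ⟨_, _, h3, h4⟩ := hf2 q
      have h6 : ∀ l, (d l - ε) * (f q : ℝ) ≤ Real.log (D (f q) l) := by
        intro l
        rw [Real.le_log_iff_exp_le]
        · exact h4 l
        · exact lt_of_lt_of_le (Real.exp_pos _) (h4 l)
      have h7 : ∑ l, (d l - ε) * (f q : ℝ) ≤ ∑ l, Real.log (D (f q) l) :=
        Finset.sum_le_sum fun l _ => h6 l
      refine le_trans ?_ h7
      have h9 : (∑ l, (ρ l + ε) / Real.log B + ε / Real.log B) * (f q : ℝ) * Real.log B =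
          ((∑ l, (ρ l + ε)) + ε) * (f q : ℝ) := by
        rw [← Finset.sum_div]
        field_simp
      rw [h9, ← Finset.sum_mul]
      refine mul_le_mul_of_nonneg_right ?_ (Nat.cast_nonneg _)
      simp only [Finset.sum_add_distrib, Finset.sum_sub_distrib, Finset.sum_const,
        Finset.card_univ, Fintype.card_fin, nsmul_eq_mul]
      have h10 : ∑ l, ρ l - ∑ l, d l = -((2 * n + 1) * ε) := by
        rw [hεg, hg]; ring
      nlinarith [h10])
  obtain ⟨i, hi⟩ := hY ⟨y, hy0⟩
  obtain ⟨N, hN1, ⟨q, hq⟩, hN2⟩ := (frequently_atTop.1 hy)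
    ((Finset.range i).sup f + 1)
  have hqi : i ≤ q := by
    by_contra hlt
    push Not at hlt
    have h1 : f q ≤ (Finset.range i).sup f := Finset.le_sup (f := f) (Finset.mem_range.2 hlt)
    omega
  apply hf3 q i (by simp; omega)
  rw [hi, ← hq]
  exact hN2

/-- the subspace theorem along an ultrafilter: coordinates `π ⊕ Fin c`, the coordinates in `Fin c`
are replaced by forms -/
theorem ultra_sub_sum {π : Type} [Fintype π] [DecidableEq π] {c : ℕ} (hc : 1 ≤ c)
    (U : Ultrafilter ℕ)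
    (hU : (U : Filter ℕ) ≤ atTop) {B : ℕ} (hB : 2 ≤ B) (κ : ℕ) (T : ℕ → π ⊕ Fin c → ℤ)
    (D : ℕ → π ⊕ Fin c → ℕ) (hD : ∀ i, ∀ᶠ N : ℕ in U, D N i ∣ B ^ (κ * N))
    (hdiv : ∀ i, ∀ᶠ N : ℕ in U, (D N i : ℤ) ∣ T N i) (φ d : π ⊕ Fin c → ℝ)
    (hT : ∀ i : π, Sz U (fun N => (T N (Sum.inl i) : ℝ)) (φ (Sum.inl i) + d (Sum.inl i)))
    (hd : ∀ i, Eq U (fun N => D N i) (d i)) (lam : ℝ)
    (μ : Fin c → π → ℝ) (hμ : ∀ s i, IsAlgebraic ℚ (μ s i))
    (hform : ∀ s, Sz U (fun N => (T N (Sum.inr s) : ℝ) + ∑ i, μ s i * T N (Sum.inl i)) lam)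
    (hgain : ∑ i : π, φ (Sum.inl i) + c * lam - ∑ s : Fin c, d (Sum.inr s) < 0) :
    ∃ y : π ⊕ Fin c → ℤ, y ≠ 0 ∧ ∀ᶠ N : ℕ in U, ∑ i, y i * T N i = 0 := by
  classical
  set m := Fintype.card π with hm
  let e : Fin m ≃ π := (Fintype.equivFin π).symm
  let g : Fin (m + c) → π ⊕ Fin c := fun l => Fin.addCases (fun i => Sum.inl (e i))
    (fun s => Sum.inr s) l
  have hgl : ∀ i, g (Fin.castAdd c i) = Sum.inl (e i) := fun i => by simp [g]
  have hgr : ∀ s, g (Fin.natAdd m s) = Sum.inr s := fun s => by simp [g]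
  have hsum : ∀ {M : Type} [AddCommMonoid M] (f : π ⊕ Fin c → M),
      ∑ i, f i = ∑ l : Fin (m + c), f (g l) := by
    intro M _ f
    rw [Fintype.sum_sum_type, Fin.sum_univ_add]
    congr 1
    · rw [← Equiv.sum_comp e]
      exact Finset.sum_congr rfl fun i _ => by rw [hgl]
    · exact Finset.sum_congr rfl fun s _ => by rw [hgr]
  have hginj : Function.Injective g := by
    intro a b hab
    induction a using Fin.addCases with
    | left a =>
      induction b using Fin.addCases with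
      | left b =>
        rw [hgl, hgl] at hab
        rw [e.injective (Sum.inl_injective hab)]
      | right b => rw [hgl, hgr] at hab; exact absurd hab (by simp)
    | right a =>
      induction b using Fin.addCases with
      | left b => rw [hgl, hgr] at hab; exact absurd hab (by simp)
      | right b =>
        rw [hgr, hgr] at hab
        rw [Sum.inr_injective hab]
  let M : Matrix (Fin (m + c)) (Fin (m + c)) ℝ := fun l j =>
    Fin.addCases (fun i => if Fin.castAdd c i = j then (1 : ℝ) else 0)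
      (fun s => Fin.addCases (fun i => μ s (e i)) (fun t => if s = t then (1 : ℝ) else 0) j) l
  have hMl : ∀ i j, M (Fin.castAdd c i) j = if Fin.castAdd c i = j then (1 : ℝ) else 0 :=
    fun i j => by simp [M]
  have hMrl : ∀ s i, M (Fin.natAdd m s) (Fin.castAdd c i) = μ s (e i) := fun s i => by simp [M]
  have hMrr : ∀ s t, M (Fin.natAdd m s) (Fin.natAdd m t) = if s = t then (1 : ℝ) else 0 :=
    fun s t => by simp [M]
  let ρ : Fin (m + c) → ℝ := fun l => Fin.addCases
    (fun i => φ (Sum.inl (e i)) + d (Sum.inl (e i))) (fun _ => lam) l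
  have hρl : ∀ i, ρ (Fin.castAdd c i) = φ (Sum.inl (e i)) + d (Sum.inl (e i)) := fun i => by
    simp [ρ]
  have hρr : ∀ s, ρ (Fin.natAdd m s) = lam := fun s => by simp [ρ]
  obtain ⟨y, hy0, hy⟩ := ultra_sub_mat (n := m + c) (by omega) U hU hB κ
    (fun N l => T N (g l)) (fun N l => D N (g l))
    (eventually_all.2 fun l => hD (g l)) (eventually_all.2 fun l => hdiv (g l))
    ρ (fun l => d (g l)) (fun l => hd (g l)) M
    (by
      intro i j
      induction i using Fin.addCases with
      | left i =>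
        rw [hMl]
        split_ifs
        · exact isAlgebraic_one
        · exact isAlgebraic_zero
      | right s =>
        induction j using Fin.addCases with
        | left j => rw [hMrl]; exact hμ _ _
        | right t =>
          rw [hMrr]
          split_ifs
          · exact isAlgebraic_one
          · exact isAlgebraic_zero)
    (by
      intro i j hij
      induction i using Fin.addCases with
      | left i =>
        rw [hMl, if_neg (ne_of_lt hij)]
      | right s =>
        induction j using Fin.addCases with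
        | left j =>
          exfalso
          have h1 : (Fin.natAdd m s : Fin (m + c)).val < (Fin.castAdd c j : Fin (m + c)).val := hij
          simp only [Fin.val_natAdd, Fin.val_castAdd] at h1
          omega
        | right t =>
          rw [hMrr, if_neg]
          rintro rfl
          exact lt_irrefl _ hij)
    (by
      intro i
      induction i using Fin.addCases with
      | left i => rw [hMl, if_pos rfl]; exact one_ne_zero
      | right s => rw [hMrr, if_pos rfl]; exact one_ne_zero)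
    (by
      intro l
      induction l using Fin.addCases with
      | left i =>
        have h1 : (fun N : ℕ => ∑ j, M (Fin.castAdd c i) j * (T N (g j) : ℝ)) =
            fun N : ℕ => (T N (Sum.inl (e i)) : ℝ) := by
          funext N
          rw [Finset.sum_eq_single (Fin.castAdd c i)]
          · rw [hMl, if_pos rfl, one_mul, hgl]
          · intro j _ hj
            rw [hMl, if_neg (Ne.symm hj), zero_mul]
          · intro h; exact absurd (Finset.mem_univ _) h
        rw [h1, hρl]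
        exact hT (e i)
      | right s =>
        have h1 : (fun N : ℕ => ∑ j, M (Fin.natAdd m s) j * (T N (g j) : ℝ)) =
            fun N : ℕ => (T N (Sum.inr s) : ℝ) + ∑ i, μ s i * T N (Sum.inl i) := by
          funext N
          rw [Fin.sum_univ_add, add_comm]
          congr 1
          · rw [Finset.sum_eq_single s]
            · rw [hMrr, if_pos rfl, one_mul, hgr]
            · intro j _ hj
              rw [hMrr, if_neg (Ne.symm hj), zero_mul]
            · intro h; exact absurd (Finset.mem_univ _) h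
          · rw [← Equiv.sum_comp e]
            exact Finset.sum_congr rfl fun i _ => by rw [hMrl, hgl]
        rw [h1, hρr]
        exact hform s)
    (by
      rw [Fin.sum_univ_add, Fin.sum_univ_add]
      simp only [hρl, hρr, hgl, hgr]
      rw [Equiv.sum_comp e (fun i => φ (Sum.inl i) + d (Sum.inl i)),
        Equiv.sum_comp e (fun i => d (Sum.inl i)), Finset.sum_add_distrib, Finset.sum_const,
        Finset.card_univ, Fintype.card_fin, nsmul_eq_mul]
      linarith)
  refine ⟨Function.extend g y 0, ?_, ?_⟩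
  · obtain ⟨l, hl⟩ := Function.ne_iff.1 hy0
    refine Function.ne_iff.2 ⟨g l, ?_⟩
    rw [hginj.extend_apply]; exact hl
  · filter_upwards [hy] with N hN
    rw [hsum (fun i => Function.extend g y 0 i * T N i)]
    rw [← hN]
    exact Finset.sum_congr rfl fun l _ => by rw [hginj.extend_apply]

end Pool.Agent.V5helper55.TB
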