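import Mathlib
import Pool.Agent.V5helper55.TB.SubM
import Pool.Agent.V5helper55.TB.Rep

/-!
# Several linear relations
-/

set_option autoImplicit false

open Filter Topology Finset

namespace Pool.Agent.V5helper55.TB

variable {U : Ultrafilter ℕ} {k K : ℕ} {b : Fin k → ℕ} {x : Fin k → ℝ} {R : ℝ}

/-- index set of the coordinates -/
abbrev Ix (k K : ℕ) : Type := Option (Fin k × Fin (K + 1))

/-- the product of the ends -/
noncomputable def cW (b : Fin k → ℕ) (R : ℝ) (N : ℕ) : ℕ := ∏ i, b i ^ pos (b i) R N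

/-- the powers -/
noncomputable def cD (p : ∀ i, Rep U (b i) (x i) R K) (N : ℕ) : Ix k K → ℕ
  | none => cW b R N
  | some (i, r) => b i ^ (pos (b i) R N - (p i).n N r) *
      ∏ j ∈ Finset.univ.erase i, b j ^ pos (b j) R N

/-- the free parts -/
noncomputable def cS (p : ∀ i, Rep U (b i) (x i) R K) (N : ℕ) : Ix k K → ℤ
  | none => ∏ j, ((p j).Q N : ℤ)
  | some (i, r) => (p i).u N r * ∏ j ∈ Finset.univ.erase i, ((p j).Q N : ℤ)

/-- the coordinates -/
noncomputable def cT (p : ∀ i, Rep U (b i) (x i) R K) (N : ℕ) (o : Ix k K) : ℤ :=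
  (cD p N o : ℤ) * cS p N o

/-- sizes of the free parts -/
noncomputable def cφ : Ix k K → ℝ
  | none => 0
  | some (_, r) => if r = 0 then 1 else 0

/-- sizes of the powers -/
noncomputable def cd (p : ∀ i, Rep U (b i) (x i) R K) : Ix k K → ℝ
  | none => k * R
  | some (i, r) => k * R - (p i).τ r

/-- the common factor -/
noncomputable def cG (p : ∀ i, Rep U (b i) (x i) R K) (N : ℕ) : ℝ :=
  (cW b R N : ℝ) * ∏ j, ((p j).Q N : ℝ)

lemma c_nV (hU : (U : Filter ℕ) ≤ atTop) (hb : ∀ i, 2 ≤ b i) (hR0 : 0 ≤ R)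
    (p : ∀ i, Rep U (b i) (x i) R K) :
    ∀ᶠ N : ℕ in U, ∀ i r, (p i).n N r < pos (b i) R N :=
  eventually_all.2 fun i => eventually_all.2 fun r =>
    Eq.lt_of (hb i) hU ((p i).hn r) (pos_eq hU (hb i) hR0) ((p i).hτR r)

lemma cW_eq (hU : (U : Filter ℕ) ≤ atTop) (hb : ∀ i, 2 ≤ b i) (hR0 : 0 ≤ R) :
    Eq U (cW b R) (k * R) := by
  have := Eq.prod (U := U) Finset.univ (D := fun i N => b i ^ pos (b i) R N) (d := fun _ => R)
    (fun i _ => pos_eq hU (hb i) hR0)
  have h2 : cW b R = fun N => ∏ i, b i ^ pos (b i) R N := rfl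
  rw [h2]
  simpa using this

lemma cD_eq (hU : (U : Filter ℕ) ≤ atTop) (hb : ∀ i, 2 ≤ b i) (hR0 : 0 ≤ R)
    (p : ∀ i, Rep U (b i) (x i) R K) (o : Ix k K) : Eq U (fun N => cD p N o) (cd p o) := by
  rcases o with _ | ⟨i, r⟩
  · exact cW_eq hU hb hR0
  · refine Eq.of_mul ((p i).hn r) (cW_eq hU hb hR0) ?_
    filter_upwards [c_nV hU hb hR0 p] with N hN
    simp only [cD, cW]
    rw [← Finset.mul_prod_erase Finset.univ _ (Finset.mem_univ i), ← mul_assoc, ← pow_add]
    congr 2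
    have := hN i r
    omega

lemma cQ_sz (hU : (U : Filter ℕ) ≤ atTop) (p : ∀ i, Rep U (b i) (x i) R K)
    (s : Finset (Fin k)) : Sz U (fun N => ((∏ j ∈ s, ((p j).Q N : ℤ) : ℤ) : ℝ)) 0 := by
  classical
  induction s using Finset.induction_on with
  | empty => simpa using Sz.const hU 1
  | insert a s ha ih =>
    have h1 := ((p a).hQ).mul ih
    simp only [add_zero] at h1
    simp only [Finset.prod_insert ha, Int.cast_mul, Int.cast_natCast]
    exact h1

lemma cS_sz (hU : (U : Filter ℕ) ≤ atTop) (p : ∀ i, Rep U (b i) (x i) R K) (o : Ix k K) :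
    Sz U (fun N => (cS p N o : ℝ)) (cφ o) := by
  rcases o with _ | ⟨i, r⟩
  · exact cQ_sz hU p Finset.univ
  · have h1 := ((p i).hu r).mul (cQ_sz hU p (Finset.univ.erase i))
    simp only [cS, Int.cast_mul]
    rw [add_zero] at h1
    exact h1

lemma cG_pos (hb : ∀ i, 2 ≤ b i) (p : ∀ i, Rep U (b i) (x i) R K) (N : ℕ) : 0 < cG p N := by
  unfold cG
  apply mul_pos
  · have : 0 < cW b R N := Finset.prod_pos fun i _ => by
      have := hb i
      positivity
    exact_mod_cast this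
  · refine Finset.prod_pos fun i _ => ?_
    have := (p i).hQ1 N
    exact_mod_cast (by omega : 0 < (p i).Q N)

/-- the coordinates divided by the common factor -/
lemma cT_div (hb : ∀ i, 2 ≤ b i) (p : ∀ i, Rep U (b i) (x i) R K) {N : ℕ}
    (hN : ∀ i r, (p i).n N r < pos (b i) R N) (i : Fin k) (r : Fin (K + 1)) :
    (cT p N (some (i, r)) : ℝ) =
      cG p N * (((p i).u N r : ℝ) / (b i : ℝ) ^ ((p i).n N r) / (p i).Q N) := by
  have hb0 : (b i : ℝ) ≠ 0 := by
    have := hb i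
    exact_mod_cast (by omega : b i ≠ 0)
  have hQ0 : ((p i).Q N : ℝ) ≠ 0 := by
    have := (p i).hQ1 N
    exact_mod_cast (by omega : (p i).Q N ≠ 0)
  have h3 : (cW b R N : ℝ) = (cD p N (some (i, r)) : ℝ) * (b i : ℝ) ^ ((p i).n N r) := by
    have h4 : cW b R N = cD p N (some (i, r)) * b i ^ ((p i).n N r) := by
      simp only [cD, cW]
      rw [← Finset.mul_prod_erase Finset.univ _ (Finset.mem_univ i), mul_right_comm,
        ← pow_add]
      congr 2
      have := hN i r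
      omega
    exact_mod_cast h4
  unfold cG cT
  rw [h3, ← Finset.mul_prod_erase Finset.univ (fun j => ((p j).Q N : ℝ)) (Finset.mem_univ i)]
  simp only [cS]
  push_cast
  field_simp

lemma cT_none (p : ∀ i, Rep U (b i) (x i) R K) (N : ℕ) : (cT p N none : ℝ) = cG p N := by
  simp only [cT, cD, cS, cG]
  push_cast
  rfl

lemma cT_row (hb : ∀ i, 2 ≤ b i) (p : ∀ i, Rep U (b i) (x i) R K) {N : ℕ}
    (hN : ∀ i r, (p i).n N r < pos (b i) R N) (i : Fin k) :
    ∑ r, (cT p N (some (i, r)) : ℝ) = cG p N * ((p i).val N : ℝ) := by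
  rw [Finset.sum_congr rfl fun r _ => cT_div hb p hN i r, ← Finset.mul_sum, Rep.val_cast,
    Finset.sum_div]

lemma Sz.tendsto (hU : (U : Filter ℕ) ≤ atTop) {z : ℕ → ℝ} {c : ℝ} (h : Sz U z c) (hc : c < 0) :
    Tendsto z U (𝓝 0) := by
  rw [tendsto_zero_iff_abs_tendsto_zero]
  have h1 : Tendsto (fun N : ℕ => Real.exp (c / 2 * N)) U (𝓝 0) := by
    apply Real.tendsto_exp_atBot.comp
    have h2 : Tendsto (fun N : ℕ => (N : ℝ)) U atTop := tendsto_natCast_atTop_atTop.mono_left hU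
    exact h2.const_mul_atTop_of_neg (by linarith)
  refine squeeze_zero' (Eventually.of_forall fun N => abs_nonneg _) ?_ h1
  filter_upwards [h (-c / 2) (by linarith)] with N hN
  refine hN.trans (le_of_eq ?_)
  congr 1
  ring

/-- **Relations do not involve the large terms.** -/
lemma rel_big (hU : (U : Filter ℕ) ≤ atTop) (hb : ∀ i, 2 ≤ b i) (hR0 : 0 < R)
    (p : ∀ i, Rep U (b i) (x i) R K)
    (hind : ∀ (q : Fin k → ℤ) (q0 : ℤ), ∑ i, (q i : ℝ) * x i + q0 = 0 → (∀ i, q i = 0) ∧ q0 = 0)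
    (y : Ix k K → ℤ) (hy : ∀ᶠ N : ℕ in U, ∑ o, y o * cT p N o = 0) :
    y none = 0 ∧ ∀ i, y (some (i, 0)) = 0 := by
  -- the small terms tend to zero
  have hsmall : ∀ i, ∀ r, r ≠ 0 → Tendsto (fun N : ℕ => ((p i).u N r : ℝ) /
      (b i : ℝ) ^ ((p i).n N r) / (p i).Q N) U (𝓝 0) := by
    intro i r hr
    have h1 := (p i).hu r
    rw [if_neg hr] at h1
    have h2 := h1.mul ((p i).hn r).inv
    have h3 : Sz U (fun N : ℕ => ((p i).u N r : ℝ) / (b i : ℝ) ^ ((p i).n N r) / (p i).Q N)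
        (0 + -(p i).τ r) := by
      refine h2.of_le (Eventually.of_forall fun N => ?_)
      have hQ : (1 : ℝ) ≤ (p i).Q N := by exact_mod_cast (p i).hQ1 N
      rw [abs_div, Nat.abs_cast]
      push_cast
      rw [← div_eq_mul_inv]
      exact div_le_self (abs_nonneg _) hQ
    refine h3.tendsto hU ?_
    have := (p i).hτ1 r
    linarith
  have hval : ∀ i, Tendsto (fun N : ℕ => ((p i).val N : ℝ)) U (𝓝 (x i)) := by
    intro i
    have h1 := (p i).err.tendsto hU (by linarith)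
    have h2 : Tendsto (fun N : ℕ => x i - (x i - ((p i).val N : ℝ))) U (𝓝 (x i - 0)) :=
      tendsto_const_nhds.sub h1
    simpa using h2
  have hbig : ∀ i, Tendsto (fun N : ℕ => ((p i).u N 0 : ℝ) /
      (b i : ℝ) ^ ((p i).n N 0) / (p i).Q N) U (𝓝 (x i)) := by
    intro i
    have h1 : Tendsto (fun N : ℕ => ((p i).val N : ℝ) - ∑ r ∈ Finset.univ.erase (0 : Fin (K + 1)),
        ((p i).u N r : ℝ) / (b i : ℝ) ^ ((p i).n N r) / (p i).Q N) U
        (𝓝 (x i - ∑ _r ∈ Finset.univ.erase (0 : Fin (K + 1)), 0)) :=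
      (hval i).sub (tendsto_finsetSum _ fun r hr => hsmall i r (Finset.ne_of_mem_erase hr))
    simp only [Finset.sum_const_zero, sub_zero] at h1
    refine h1.congr fun N => ?_
    rw [Rep.val_cast, Finset.sum_div, ← Finset.add_sum_erase Finset.univ _ (Finset.mem_univ 0)]
    ring
  -- the limit of the relation
  have hlim : Tendsto (fun N : ℕ => (y none : ℝ) + ∑ i, ∑ r, (y (some (i, r)) : ℝ) *
      (((p i).u N r : ℝ) / (b i : ℝ) ^ ((p i).n N r) / (p i).Q N)) U
      (𝓝 ((y none : ℝ) + ∑ i, (y (some (i, 0)) : ℝ) * x i)) := by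
    refine tendsto_const_nhds.add (tendsto_finsetSum _ fun i _ => ?_)
    have h1 : Tendsto (fun N : ℕ => ∑ r, (y (some (i, r)) : ℝ) *
        (((p i).u N r : ℝ) / (b i : ℝ) ^ ((p i).n N r) / (p i).Q N)) U
        (𝓝 (∑ r : Fin (K + 1), if r = 0 then (y (some (i, 0)) : ℝ) * x i else 0)) := by
      refine tendsto_finsetSum _ fun r _ => ?_
      by_cases hr : r = 0
      · subst hr
        simp only [if_true]
        exact (hbig i).const_mul _
      · simp only [hr, if_false]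
        have := (hsmall i r hr).const_mul (y (some (i, r)) : ℝ)
        simpa using this
    simpa using h1
  have hzero : ∀ᶠ N : ℕ in U, (y none : ℝ) + ∑ i, ∑ r, (y (some (i, r)) : ℝ) *
      (((p i).u N r : ℝ) / (b i : ℝ) ^ ((p i).n N r) / (p i).Q N) = 0 := by
    filter_upwards [hy, c_nV hU hb hR0.le p] with N h1 h2
    have hG := cG_pos hb p N
    have h3 : ∑ o, (y o : ℝ) * (cT p N o : ℝ) = 0 := by exact_mod_cast h1
    rw [Fintype.sum_option, Fintype.sum_prod_type, cT_none] at h3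
    have h4 : cG p N * ((y none : ℝ) + ∑ i, ∑ r, (y (some (i, r)) : ℝ) *
        (((p i).u N r : ℝ) / (b i : ℝ) ^ ((p i).n N r) / (p i).Q N)) = 0 := by
      rw [← h3, mul_add, mul_comm (cG p N) (y none : ℝ), Finset.mul_sum]
      congr 1
      refine Finset.sum_congr rfl fun i _ => ?_
      rw [Finset.mul_sum]
      refine Finset.sum_congr rfl fun r _ => ?_
      rw [cT_div hb p h2]
      ring
    exact (mul_eq_zero.1 h4).resolve_left hG.ne'
  have heq : (y none : ℝ) + ∑ i, (y (some (i, 0)) : ℝ) * x i = 0 := by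
    refine tendsto_nhds_unique hlim ?_
    exact (tendsto_const_nhds (x := (0 : ℝ))).congr' (hzero.mono fun N h => h.symm)
  obtain ⟨h1, h2⟩ := hind (fun i => y (some (i, 0))) (y none) (by rw [add_comm]; exact heq)
  exact ⟨h2, h1⟩

lemma cD_dvd (hU : (U : Filter ℕ) ≤ atTop) (hb : ∀ i, 2 ≤ b i) (hR0 : 0 ≤ R)
    (p : ∀ i, Rep U (b i) (x i) R K) (o : Ix k K) :
    ∀ᶠ N : ℕ in U, cD p N o ∣ (2 * ∏ i, b i) ^ ((⌈R / Real.log 2⌉₊ + 1) * N) := by
  have hVle : ∀ i, ∀ N : ℕ, 1 ≤ N → pos (b i) R N ≤ (⌈R / Real.log 2⌉₊ + 1) * N := by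
    intro i N hN1
    have hL2 : 0 < Real.log 2 := Real.log_pos (by norm_num)
    have h1 : Real.log 2 ≤ Real.log (b i) := Real.log_le_log (by norm_num) (by exact_mod_cast hb i)
    have h2 : R * N / Real.log (b i) ≤ R * N / Real.log 2 :=
      div_le_div_of_nonneg_left (by positivity) hL2 h1
    have h3 : R / Real.log 2 ≤ ⌈R / Real.log 2⌉₊ := Nat.le_ceil _
    apply Nat.ceil_le.2
    refine h2.trans ?_
    push_cast
    have h4 : R * N / Real.log 2 = R / Real.log 2 * N := by ring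
    rw [h4]
    have h5 : (0 : ℝ) ≤ N := Nat.cast_nonneg _
    nlinarith
  have hWd : ∀ N : ℕ, 1 ≤ N → cW b R N ∣ (2 * ∏ i, b i) ^ ((⌈R / Real.log 2⌉₊ + 1) * N) := by
    intro N hN1
    have h1 : cW b R N ∣ ∏ i, b i ^ ((⌈R / Real.log 2⌉₊ + 1) * N) :=
      Finset.prod_dvd_prod_of_dvd _ _ fun i _ => pow_dvd_pow _ (hVle i N hN1)
    rw [Finset.prod_pow] at h1
    exact h1.trans (pow_dvd_pow_of_dvd (Dvd.intro_left _ rfl) _)
  rcases o with _ | ⟨i, r⟩
  · filter_upwards [ev_ge hU 1] with N hN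
    exact hWd N (by exact_mod_cast hN)
  · filter_upwards [ev_ge hU 1] with N hN
    refine dvd_trans ?_ (hWd N (by exact_mod_cast hN))
    simp only [cD, cW]
    rw [← Finset.mul_prod_erase Finset.univ (fun i => b i ^ pos (b i) R N) (Finset.mem_univ i)]
    exact Nat.mul_dvd_mul (pow_dvd_pow _ (Nat.sub_le _ _)) (dvd_refl _)

end Pool.Agent.V5helper55.TB
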