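import Mathlib
import Pool.Agent.V5helper55.TB.Multi
import Pool.Agent.V5helper55.TB.Main2

/-!
# Several linear relations, continued
-/

set_option autoImplicit false

open Filter Topology Finset

namespace Pool.Agent.V5helper55.TB

variable {U : Ultrafilter ℕ}

lemma alg_sum {β : Type} (s : Finset β) {f : β → ℝ} (h : ∀ i ∈ s, IsAlgebraic ℚ (f i)) :
    IsAlgebraic ℚ (∑ i ∈ s, f i) := by
  classical
  induction s using Finset.induction_on with
  | empty => simpa using isAlgebraic_zero
  | insert a s ha ih =>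
    rw [Finset.sum_insert ha]
    exact (h a (Finset.mem_insert_self _ _)).add (ih fun i hi => h i (Finset.mem_insert_of_mem hi))

/-- the small coordinates depend on an independent family of small coordinates -/
lemma exists_basis {k K : ℕ} {b : Fin k → ℕ} {x : Fin k → ℝ} {R : ℝ}
    (p : ∀ i, Rep U (b i) (x i) R K) :
    ∃ S : Finset (Ix k K), (∀ o ∈ S, ∃ i r, r ≠ 0 ∧ o = some (i, r)) ∧
      (∀ y : Ix k K → ℤ, (∀ o, o ∉ S → y o = 0) → (∀ᶠ N : ℕ in U, ∑ o, y o * cT p N o = 0) →
        y = 0) ∧
      ∀ i r, r ≠ 0 → ∃ ρ : Ix k K → ℚ, ∀ᶠ N : ℕ in U,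
        (cT p N (some (i, r)) : ℝ) = ∑ o ∈ S, (ρ o : ℝ) * cT p N o := by
  classical
  let small : Finset (Ix k K) := Finset.univ.filter fun o => ∃ i r, r ≠ 0 ∧ o = some (i, r)
  let good : Finset (Ix k K) → Prop := fun S =>
    ∀ y : Ix k K → ℤ, (∀ o, o ∉ S → y o = 0) → (∀ᶠ N : ℕ in U, ∑ o, y o * cT p N o = 0) → y = 0
  have hne : (small.powerset.filter good).Nonempty := by
    refine ⟨∅, ?_⟩
    simp only [Finset.mem_filter, Finset.mem_powerset, Finset.empty_subset, true_and]
    intro y hy _
    funext o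
    exact hy o (by simp)
  obtain ⟨S, hS, hmax⟩ := Finset.exists_max_image _ Finset.card hne
  simp only [Finset.mem_filter, Finset.mem_powerset] at hS hmax
  refine ⟨S, fun o ho => ?_, hS.2, fun i r hr => ?_⟩
  · have := hS.1 ho
    simpa [small] using this
  · set o1 : Ix k K := some (i, r) with ho1
    by_cases hmem : o1 ∈ S
    · refine ⟨fun o => if o = o1 then 1 else 0, Eventually.of_forall fun N => ?_⟩
      rw [Finset.sum_eq_single o1]
      · simp
      · intro o _ ho
        simp [ho]
      · intro h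
        exact absurd hmem h
    · -- maximality gives a relation
      have hnot : ¬ good (insert o1 S) := by
        intro hg
        have h1 := hmax (insert o1 S) ⟨by
          intro o ho
          rcases Finset.mem_insert.1 ho with rfl | ho
          · simp only [small, Finset.mem_filter, Finset.mem_univ, true_and]
            exact ⟨i, r, hr, rfl⟩
          · exact hS.1 ho, hg⟩
        rw [Finset.card_insert_of_notMem hmem] at h1
        omega
      simp only [good] at hnot
      push Not at hnot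
      obtain ⟨y, hy1, hy2, hy3⟩ := hnot
      have hyo : y o1 ≠ 0 := by
        intro h0
        apply hy3
        apply hS.2 y ?_ hy2
        intro o ho
        by_cases h1 : o = o1
        · rw [h1, h0]
        · exact hy1 o (by simp [h1, ho])
      refine ⟨fun o => -(y o : ℚ) / y o1, ?_⟩
      filter_upwards [hy2] with N hN
      have h1 : ∑ o, (y o : ℝ) * (cT p N o : ℝ) = 0 := by exact_mod_cast hN
      have h2 : ∑ o, (y o : ℝ) * (cT p N o : ℝ) =
          (y o1 : ℝ) * cT p N o1 + ∑ o ∈ S, (y o : ℝ) * (cT p N o : ℝ) := by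
        rw [← Finset.sum_insert (f := fun o => (y o : ℝ) * (cT p N o : ℝ)) hmem]
        symm
        apply Finset.sum_subset (Finset.subset_univ _)
        intro o _ ho
        rw [hy1 o ho]
        simp
      rw [h2] at h1
      have hyR : (y o1 : ℝ) ≠ 0 := by exact_mod_cast hyo
      have h3 : (cT p N o1 : ℝ) = -(∑ o ∈ S, (y o : ℝ) * (cT p N o : ℝ)) / y o1 := by
        rw [eq_div_iff hyR]; linarith
      rw [h3, ← Finset.sum_neg_distrib, Finset.sum_div]
      refine Finset.sum_congr rfl fun o _ => ?_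
      push_cast
      ring

/-- **Several relations**: `c` of the numbers are affine combinations with algebraic coefficients of
the `d` other ones, `R > 1 + d / c`. -/
theorem no_rep_multi (hU : (U : Filter ℕ) ≤ atTop) {d c K : ℕ} (hc : 1 ≤ c) (b : Fin (d + c) → ℕ)
    (hb : ∀ i, 2 ≤ b i) (x : Fin (d + c) → ℝ)
    (hind : ∀ (q : Fin (d + c) → ℤ) (q0 : ℤ), ∑ i, (q i : ℝ) * x i + q0 = 0 →
      (∀ i, q i = 0) ∧ q0 = 0)
    (β : Fin c → Fin d → ℝ) (hβ : ∀ s i, IsAlgebraic ℚ (β s i)) (γ : Fin c → ℝ)
    (hγ : ∀ s, IsAlgebraic ℚ (γ s))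
    (hrel : ∀ s, x (Fin.natAdd d s) = ∑ i, β s i * x (Fin.castAdd c i) + γ s)
    {R : ℝ} (hR : ((d + c : ℕ) : ℝ) < c * R) (p : ∀ i, Rep U (b i) (x i) R K) : False := by
  classical
  have hc0 : (0 : ℝ) < c := by exact_mod_cast hc
  have hR0 : 0 < R := by
    have h1 : (0 : ℝ) ≤ ((d + c : ℕ) : ℝ) := Nat.cast_nonneg _
    by_contra h
    push Not at h
    nlinarith
  obtain ⟨S, hS1, hS2, hS3⟩ := exists_basis p
  choose ρ hρ using fun (i : Fin (d + c)) (r : {r : Fin (K + 1) // r ≠ 0}) => hS3 i r.1 r.2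
  let ρ' : Fin (d + c) → Fin (K + 1) → Ix (d + c) K → ℚ := fun i r o =>
    if h : r ≠ 0 then ρ i ⟨r, h⟩ o else 0
  have hρ' : ∀ᶠ N : ℕ in U, ∀ i r, r ≠ 0 → (cT p N (some (i, r)) : ℝ) =
      ∑ o ∈ S, (ρ' i r o : ℝ) * cT p N o := by
    refine eventually_all.2 fun i => eventually_all.2 fun r => ?_
    by_cases h : r = 0
    · exact Eventually.of_forall fun N h' => absurd h h'
    · filter_upwards [hρ i ⟨r, h⟩] with N hN _
      simp only [ρ', h, ne_eq, not_false_iff, dif_pos]
      exact hN
  -- the index types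
  let π : Type := Option (Fin d ⊕ {o // o ∈ S})
  let idx : π ⊕ Fin c → Ix (d + c) K := fun w => match w with
    | Sum.inl none => none
    | Sum.inl (some (Sum.inl i)) => some (Fin.castAdd c i, 0)
    | Sum.inl (some (Sum.inr o)) => o.1
    | Sum.inr s => some (Fin.natAdd d s, 0)
  -- sums of the small terms
  have hrowS : ∀ᶠ N : ℕ in U, ∀ i, ∑ r, (cT p N (some (i, r)) : ℝ) = cT p N (some (i, 0)) +
      ∑ o ∈ S, (∑ r ∈ Finset.univ.erase (0 : Fin (K + 1)), (ρ' i r o : ℝ)) * cT p N o := by
    filter_upwards [hρ'] with N hN i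
    rw [← Finset.add_sum_erase Finset.univ _ (Finset.mem_univ (0 : Fin (K + 1)))]
    congr 1
    rw [Finset.sum_congr rfl fun r hr => hN i r (Finset.ne_of_mem_erase hr), Finset.sum_comm]
    refine Finset.sum_congr rfl fun o _ => ?_
    rw [Finset.sum_mul]
  let σ : Fin (d + c) → Ix (d + c) K → ℝ := fun i o =>
    ∑ r ∈ Finset.univ.erase (0 : Fin (K + 1)), (ρ' i r o : ℝ)
  have hσ : ∀ i o, IsAlgebraic ℚ (σ i o) := by
    intro i o
    have : σ i o = algebraMap ℚ ℝ (∑ r ∈ Finset.univ.erase (0 : Fin (K + 1)), ρ' i r o) := by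
      simp [σ]
    rw [this]
    exact isAlgebraic_algebraMap _
  let μ : Fin c → π → ℝ := fun s w => match w with
    | none => -γ s
    | some (Sum.inl i) => -β s i
    | some (Sum.inr o) => σ (Fin.natAdd d s) o.1 - ∑ i, β s i * σ (Fin.castAdd c i) o.1
  have hμ : ∀ s w, IsAlgebraic ℚ (μ s w) := by
    rintro s (_ | i | o)
    · exact (hγ s).neg
    · exact (hβ s i).neg
    · exact (hσ _ _).sub (alg_sum _ fun i _ => (hβ s i).mul (hσ _ _))
  -- the forms
  have hformeq : ∀ᶠ N : ℕ in U, ∀ s, (cT p N (idx (Sum.inr s)) : ℝ) +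
      ∑ w : π, μ s w * (cT p N (idx (Sum.inl w)) : ℝ) =
      cG p N * (((p (Fin.natAdd d s)).val N : ℝ) -
        ∑ i, β s i * ((p (Fin.castAdd c i)).val N : ℝ) - γ s) := by
    filter_upwards [hrowS, c_nV hU hb hR0.le p] with N hN1 hN2 s
    rw [Fintype.sum_option, Fintype.sum_sum_type]
    simp only [idx, μ]
    rw [cT_none]
    have h1 := cT_row hb p hN2 (Fin.natAdd d s)
    rw [hN1] at h1
    have h2 : ∀ i : Fin d, (cT p N (some (Fin.castAdd c i, 0)) : ℝ) =
        cG p N * ((p (Fin.castAdd c i)).val N : ℝ) -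
        ∑ o ∈ S, σ (Fin.castAdd c i) o * (cT p N o : ℝ) := by
      intro i
      have h3 := cT_row hb p hN2 (Fin.castAdd c i)
      rw [hN1] at h3
      simp only [σ]
      linarith
    have h3 : ∑ o : {o // o ∈ S}, (σ (Fin.natAdd d s) o.1 - ∑ i, β s i * σ (Fin.castAdd c i) o.1) *
        (cT p N o.1 : ℝ) = ∑ o ∈ S, σ (Fin.natAdd d s) o * (cT p N o : ℝ) -
          ∑ i, β s i * ∑ o ∈ S, σ (Fin.castAdd c i) o * (cT p N o : ℝ) := by
      rw [Finset.sum_coe_sort S (fun o => (σ (Fin.natAdd d s) o -
        ∑ i, β s i * σ (Fin.castAdd c i) o) * (cT p N o : ℝ))]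
      simp only [sub_mul, Finset.sum_sub_distrib, Finset.mul_sum, Finset.sum_mul]
      congr 1
      rw [Finset.sum_comm]
      refine Finset.sum_congr rfl fun i _ => Finset.sum_congr rfl fun o _ => ?_
      ring
    rw [h3]
    simp only [h2]
    have h4 : (cT p N (some (Fin.natAdd d s, 0)) : ℝ) =
        cG p N * ((p (Fin.natAdd d s)).val N : ℝ) -
        ∑ o ∈ S, σ (Fin.natAdd d s) o * (cT p N o : ℝ) := by
      simp only [σ]
      linarith
    rw [h4]
    simp only [mul_sub, neg_mul, Finset.sum_sub_distrib, Finset.sum_neg_distrib, Finset.mul_sum]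
    have h5 : ∑ i, β s i * (cG p N * ((p (Fin.castAdd c i)).val N : ℝ)) =
        ∑ i, cG p N * (β s i * ((p (Fin.castAdd c i)).val N : ℝ)) :=
      Finset.sum_congr rfl fun i _ => by ring
    rw [h5]
    ring
  -- smallness
  have herr : ∀ s, Sz U (fun N => ((p (Fin.natAdd d s)).val N : ℝ) -
        ∑ i, β s i * ((p (Fin.castAdd c i)).val N : ℝ) - γ s) (-R) := by
    intro s
    have h1 : Sz U (fun N => ∑ w : Option (Fin d), (match w with
        | none => (-1 : ℝ) * (x (Fin.natAdd d s) - ((p (Fin.natAdd d s)).val N : ℝ))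
        | some i => β s i * (x (Fin.castAdd c i) - ((p (Fin.castAdd c i)).val N : ℝ)))) (-R) := by
      refine Sz.sum hU _ fun w _ => ?_
      rcases w with _ | i
      · have h2 := (Sz.const hU (-1 : ℝ)).mul (p (Fin.natAdd d s)).err
        rw [zero_add] at h2
        exact h2
      · have h2 := (Sz.const hU (β s i)).mul (p (Fin.castAdd c i)).err
        rw [zero_add] at h2
        exact h2
    refine h1.of_le (Eventually.of_forall fun N => le_of_eq ?_)
    rw [Fintype.sum_option]
    congr 1
    simp only [mul_sub, Finset.sum_sub_distrib]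
    have := hrel s
    linarith
  have hGsz : Sz U (cG p) (((d + c : ℕ) : ℝ) * R) := by
    have h1 := (Eq.toSz (cW_eq (b := b) hU hb hR0.le)).mul (cQ_sz hU p Finset.univ)
    rw [add_zero] at h1
    refine h1.of_le (Eventually.of_forall fun N => le_of_eq ?_)
    unfold cG
    push_cast
    rfl
  have hform : ∀ s, Sz U (fun N => (cT p N (idx (Sum.inr s)) : ℝ) +
      ∑ w : π, μ s w * (cT p N (idx (Sum.inl w)) : ℝ)) (((d + c : ℕ) : ℝ) * R + -R) := by
    intro s
    refine (hGsz.mul (herr s)).of_le ?_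
    filter_upwards [hformeq] with N hN
    rw [hN s]
  -- the subspace theorem
  obtain ⟨y, hy0, hy⟩ := ultra_sub_sum (π := π) hc U hU (B := 2 * ∏ i, b i)
    (by
      have : 0 < ∏ i, b i := Finset.prod_pos fun i _ => by have := hb i; omega
      omega)
    (⌈R / Real.log 2⌉₊ + 1) (fun N w => cT p N (idx w)) (fun N w => cD p N (idx w))
    (fun w => cD_dvd hU hb hR0.le p (idx w))
    (fun w => Eventually.of_forall fun N => Dvd.intro _ rfl)
    (fun w => cφ (idx w)) (fun w => cd p (idx w))
    (by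
      intro w
      have h1 := (Eq.toSz (cD_eq hU hb hR0.le p (idx (Sum.inl w)))).mul
        (cS_sz hU p (idx (Sum.inl w)))
      rw [add_comm (cd p (idx (Sum.inl w))) _] at h1
      refine h1.of_le (Eventually.of_forall fun N => le_of_eq ?_)
      simp only [cT]
      push_cast
      rfl)
    (fun w => cD_eq hU hb hR0.le p (idx w)) (((d + c : ℕ) : ℝ) * R + -R) μ hμ hform
    (by
      rw [Fintype.sum_option, Fintype.sum_sum_type]
      have h1 : ∑ o : {o // o ∈ S}, cφ (idx (Sum.inl (some (Sum.inr o)))) = 0 := by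
        refine Finset.sum_eq_zero fun o _ => ?_
        obtain ⟨i, r, hr, ho⟩ := hS1 o.1 o.2
        simp only [idx]
        rw [ho]
        simp only [cφ]
        rw [if_neg hr]
      rw [h1]
      simp only [idx, cφ, cd, if_true]
      have h2 : ∀ s : Fin c, (p (Fin.natAdd d s)).τ 0 = 1 := fun s => (p _).hτ0
      simp only [h2, Finset.sum_const, Finset.card_univ, Fintype.card_fin, nsmul_eq_mul, mul_one,
        zero_add, add_zero]
      push_cast at hR ⊢
      nlinarith)
  -- back to all the coordinates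
  have hinj : Function.Injective idx := by
    have hSne : ∀ o : {o // o ∈ S}, ∀ i, o.1 ≠ some (i, 0) := by
      intro o i h
      obtain ⟨i', r, hr, ho⟩ := hS1 o.1 o.2
      rw [ho] at h
      simp only [Option.some.injEq, Prod.mk.injEq] at h
      exact hr h.2
    have hSnone : ∀ o : {o // o ∈ S}, o.1 ≠ none := by
      intro o h
      obtain ⟨i', r, hr, ho⟩ := hS1 o.1 o.2
      rw [ho] at h
      simp at h
    rintro ((_ | i | o) | s) ((_ | i' | o') | s') h
    · rfl
    · simp [idx] at h
    · exact absurd h.symm (hSnone o')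
    · simp [idx] at h
    · simp [idx] at h
    · simp only [idx, Option.some.injEq, Prod.mk.injEq, and_true] at h
      rw [Fin.castAdd_injective d c h]
    · exact absurd h.symm (hSne o' _)
    · simp only [idx, Option.some.injEq, Prod.mk.injEq, and_true] at h
      have := congrArg Fin.val h
      simp at this
      omega
    · exact absurd h (hSnone o)
    · exact absurd h (hSne o _)
    · simp only [idx] at h
      rw [Subtype.ext h]
    · exact absurd h (hSne o _)
    · simp [idx] at h
    · simp only [idx, Option.some.injEq, Prod.mk.injEq, and_true] at h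
      have := congrArg Fin.val h
      simp at this
      omega
    · exact absurd h.symm (hSne o' _)
    · simp only [idx, Option.some.injEq, Prod.mk.injEq, and_true] at h
      rw [Fin.natAdd_injective c d h]
  let Y : Ix (d + c) K → ℤ := Function.extend idx y 0
  have hYrel : ∀ᶠ N : ℕ in U, ∑ o, Y o * cT p N o = 0 := by
    filter_upwards [hy] with N hN
    have h1 : ∑ o, Y o * cT p N o = ∑ w, Y (idx w) * cT p N (idx w) := by
      rw [← Finset.sum_image (f := fun o => Y o * cT p N o) (g := idx) (fun a _ b _ h => hinj h)]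
      symm
      apply Finset.sum_subset (Finset.subset_univ _)
      intro o _ ho
      have h2 : Y o = 0 := by
        simp only [Y]
        rw [Function.extend_apply']
        · rfl
        · rintro ⟨w, rfl⟩
          exact ho (Finset.mem_image_of_mem _ (Finset.mem_univ w))
      rw [h2, zero_mul]
    rw [h1, ← hN]
    exact Finset.sum_congr rfl fun w _ => by simp only [Y]; rw [hinj.extend_apply]
  obtain ⟨hYn, hYb⟩ := rel_big hU hb hR0 p hind Y hYrel
  have hY0 : Y = 0 := by
    refine hS2 Y ?_ hYrel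
    intro o ho
    by_cases h1 : ∃ w, idx w = o
    · obtain ⟨w, rfl⟩ := h1
      rcases w with (_ | i | o') | s
      · exact hYn
      · exact hYb _
      · exact absurd o'.2 ho
      · exact hYb _
    · simp only [Y]
      rw [Function.extend_apply' _ _ _ h1]
      rfl
  apply hy0
  funext w
  have h1 := congrFun hY0 (idx w)
  simp only [Y, Pi.zero_apply] at h1
  rw [hinj.extend_apply] at h1
  exact h1

/-- **Several relations, windows.** -/
theorem scatteredL_multi {d c : ℕ} (hc : 1 ≤ c) (b : Fin (d + c) → ℕ)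
    (hb : ∀ i, 2 ≤ b i) (x : Fin (d + c) → ℝ)
    (hind : ∀ (q : Fin (d + c) → ℤ) (q0 : ℤ), ∑ i, (q i : ℝ) * x i + q0 = 0 →
      (∀ i, q i = 0) ∧ q0 = 0)
    (β : Fin c → Fin d → ℝ) (hβ : ∀ s i, IsAlgebraic ℚ (β s i)) (γ : Fin c → ℝ)
    (hγ : ∀ s, IsAlgebraic ℚ (γ s))
    (hrel : ∀ s, x (Fin.natAdd d s) = ∑ i, β s i * x (Fin.castAdd c i) + γ s)
    {R : ℝ} (hR : 1 + (d : ℝ) / c < R) : ScatteredL b x R := by
  have hc0 : (0 : ℝ) < c := by exact_mod_cast hc
  have hd0 : (0 : ℝ) ≤ (d : ℝ) / c := by positivity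
  refine scatteredL_of b hb x (R1 := (1 + (d : ℝ) / c + R) / 2) (by linarith) (by linarith) ?_
  intro U hU K hrep
  refine no_rep_multi hU hc b hb x hind β hβ γ hγ hrel (R := (1 + (d : ℝ) / c + R) / 2) ?_
    (fun i => (hrep i).some)
  have h1 : 1 + (d : ℝ) / c < (1 + (d : ℝ) / c + R) / 2 := by linarith
  have h2 : (c : ℝ) * (1 + (d : ℝ) / c) = d + c := by field_simp; ring
  push_cast
  nlinarith

end Pool.Agent.V5helper55.TB
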