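import Mathlib
import Pool.Agent.V5helper55.TB.Main

/-!
# Digit changes
-/

set_option autoImplicit false

open Filter Topology Finset

namespace Pool.Agent.V5helper55.TB

/-- the number of digit changes among the digits with indices `m + 1, ..., M` -/
noncomputable def chg (b : ℕ) (x : ℝ) (m M : ℕ) : ℕ :=
  ((Finset.Ico (m + 1) M).filter fun j => digit b x (j + 1) ≠ digit b x j).card

lemma cut_of_chg (d : ℕ → ℤ) (m M : ℕ) (hm : m ≤ M) :
    Cut d m M (((Finset.Ico (m + 1) M).filter fun j => d (j + 1) ≠ d j).card + 1) 1 := by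
  induction M, hm using Nat.le_induction with
  | base =>
    refine ⟨fun _ => m, fun _ _ _ => le_refl _, rfl, rfl, fun r _ => ⟨1, le_refl _, by simp, ?_⟩⟩
    intro n h1 h2
    beta_reduce at h1 h2
    omega
  | succ M hM ih =>
    set E := ((Finset.Ico (m + 1) M).filter fun j => d (j + 1) ≠ d j).card with hE
    obtain ⟨c, hc1, hc2, hc3, hc4⟩ := ih
    by_cases hch : m + 1 ≤ M ∧ d (M + 1) ≠ d M
    · -- a new change
      have hcard : ((Finset.Ico (m + 1) (M + 1)).filter fun j => d (j + 1) ≠ d j).card = E + 1 := by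
        rw [Finset.Ico_add_one_right_eq_Icc, ← Finset.Ico_insert_right hch.1, Finset.filter_insert,
          if_pos hch.2, Finset.card_insert_of_notMem]
        simp
      rw [hcard]
      refine ⟨fun r => if r ≤ E + 1 then c r else M + 1, ?_, ?_, ?_, ?_⟩
      · intro r s hrs
        dsimp only
        split_ifs with h1 h2 h2
        · exact hc1 hrs
        · have := hc1 h1
          omega
        · omega
        · exact le_refl _
      · simp [hc2]
      · simp
      · intro r hr
        by_cases h1 : r ≤ E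
        · obtain ⟨s, h3, h4, h5⟩ := hc4 r (by omega)
          refine ⟨s, h3, h4, ?_⟩
          simp only [show r ≤ E + 1 by omega, show r + 1 ≤ E + 1 by omega, if_true]
          exact h5
        · refine ⟨1, le_refl _, by simp, fun n h2 h3 => ?_⟩
          have hrE : r = E + 1 := by omega
          subst hrE
          simp only [le_refl, if_true, show ¬ (E + 1 + 1 ≤ E + 1) by omega, if_false] at h2 h3
          omega
    · have hcard : ((Finset.Ico (m + 1) (M + 1)).filter fun j => d (j + 1) ≠ d j).card = E := by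
        by_cases h1 : m + 1 ≤ M
        · have h2 : ¬ d (M + 1) ≠ d M := fun h => hch ⟨h1, h⟩
          rw [Finset.Ico_add_one_right_eq_Icc, ← Finset.Ico_insert_right h1, Finset.filter_insert,
            if_neg h2]
        · rw [Finset.Ico_eq_empty (by omega), hE, Finset.Ico_eq_empty (by omega)]
      rw [hcard]
      refine ⟨fun r => if r ≤ E then c r else M + 1, ?_, ?_, ?_, ?_⟩
      · intro r s hrs
        dsimp only
        split_ifs with h1 h2 h2
        · exact hc1 hrs
        · have := hc1 (show r ≤ E + 1 by omega)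
          omega
        · omega
        · exact le_refl _
      · simp [hc2]
      · simp
      · intro r hr
        by_cases h1 : r < E
        · obtain ⟨s, h3, h4, h5⟩ := hc4 r (by omega)
          refine ⟨s, h3, h4, ?_⟩
          simp only [show r ≤ E by omega, show r + 1 ≤ E by omega, if_true]
          exact h5
        · have hrE : r = E := by omega
          subst hrE
          obtain ⟨s, h3, h4, h5⟩ := hc4 E (by omega)
          have hs1 : s = 1 := by
            have : s ≤ 1 := by exact_mod_cast h4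
            omega
          subst hs1
          refine ⟨1, le_refl _, by simp, fun n h2 h6 => ?_⟩
          simp only [le_refl, if_true, show ¬ (E + 1 ≤ E) by omega, if_false] at h2 h6
          rw [hc3] at h5
          rcases Nat.lt_or_ge n M with h7 | h7
          · exact h5 n h2 (by omega)
          · have h8 : n = M := by omega
            subst h8
            by_contra h9
            refine hch ⟨?_, h9⟩
            have := hc1 (Nat.zero_le E)
            omega

/-- digit changes in windows -/
theorem chg_window {k : ℕ} (b : Fin k → ℕ) (x : Fin k → ℝ) {R : ℝ}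
    (hb : ∀ i, 2 ≤ b i) (hR : 1 < R) (h : Scattered b x R) (K : ℕ) :
    ∃ T0 : ℝ, ∀ T : ℝ, T0 ≤ T → ∀ m M : Fin k → ℕ,
      (∀ i, (b i : ℝ) ^ m i ≤ T ∧ T ^ R ≤ (b i : ℝ) ^ M i) →
      K ≤ ∑ i, chg (b i) (x i) (m i) (M i) := by
  obtain ⟨ε, hε, T0, hT0⟩ := h K
  refine ⟨max T0 (Real.exp (1 / ε)), fun T hT m M hmM => ?_⟩
  by_contra hlt
  push Not at hlt
  have hT1 := (le_max_left _ _).trans hT
  have hT2 := (le_max_right _ _).trans hT
  have hTpos : 0 < T := lt_of_lt_of_le (Real.exp_pos _) hT2
  have hlog : 1 ≤ ε * Real.log T := by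
    rw [← Real.le_log_iff_exp_le hTpos, div_le_iff₀ hε] at hT2
    linarith
  have hT1' : 1 < T := by
    refine lt_of_lt_of_le ?_ hT2
    rw [Real.one_lt_exp_iff]; positivity
  refine hT0 T hT1 m M hmM fun i => ?_
  have h1 : chg (b i) (x i) (m i) (M i) + 1 ≤ K := by
    have : chg (b i) (x i) (m i) (M i) ≤ ∑ i, chg (b i) (x i) (m i) (M i) :=
      Finset.single_le_sum (f := fun i => chg (b i) (x i) (m i) (M i)) (fun _ _ => Nat.zero_le _)
        (Finset.mem_univ i)
    omega
  have hmMi : m i ≤ M i := by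
    by_contra hgt
    push Not at hgt
    have hb1 : (1 : ℝ) < b i := by have := hb i; exact_mod_cast (by omega : 1 < b i)
    have h2 : (b i : ℝ) ^ M i < (b i : ℝ) ^ m i := pow_lt_pow_right₀ hb1 hgt
    have h3 : T ≤ T ^ R := by
      nth_rewrite 1 [← Real.rpow_one T]
      exact Real.rpow_le_rpow_of_exponent_le hT1'.le hR.le
    have := hmM i
    linarith [this.1, this.2]
  exact ((cut_of_chg (digit (b i) (x i)) (m i) (M i) hmMi).succ_pieces h1 (le_refl _)).mono hlog

/-- smallest exponent with `T ≤ b ^ n` -/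
noncomputable def cl (b : ℕ) (T : ℝ) : ℕ := ⌈Real.log T / Real.log b⌉₊

lemma cl_spec {b : ℕ} (hb : 2 ≤ b) {T : ℝ} (hT : 1 ≤ T) :
    T ≤ (b : ℝ) ^ cl b T ∧ (b : ℝ) ^ cl b T ≤ b * T := by
  have hb0 : (0 : ℝ) < b := by exact_mod_cast (by omega : 0 < b)
  have hL : 0 < Real.log b := Real.log_pos (by exact_mod_cast (by omega : 1 < b))
  have hT0 : 0 < T := by linarith
  have h1 : Real.log T / Real.log b ≤ cl b T := Nat.le_ceil _
  have h2 : (cl b T : ℝ) < Real.log T / Real.log b + 1 :=
    Nat.ceil_lt_add_one (div_nonneg (Real.log_nonneg hT) hL.le)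
  have h3 : (b : ℝ) ^ cl b T = Real.exp (cl b T * Real.log b) := by
    rw [← Real.rpow_natCast, Real.rpow_def_of_pos hb0]; congr 1; ring
  rw [h3]
  rw [div_le_iff₀ hL] at h1
  constructor
  · rw [← Real.log_le_iff_le_exp hT0]; exact h1
  · have h4 : (cl b T : ℝ) * Real.log b ≤ Real.log T + Real.log b := by
      have := mul_lt_mul_of_pos_right h2 hL
      have h5 : (Real.log T / Real.log b + 1) * Real.log b = Real.log T + Real.log b := by
        field_simp
      linarith
    calc Real.exp (cl b T * Real.log b) ≤ Real.exp (Real.log T + Real.log b) :=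
          Real.exp_le_exp.2 h4
      _ = b * T := by rw [Real.exp_add, Real.exp_log hT0, Real.exp_log hb0, mul_comm]

lemma chg_add {b : ℕ} {x : ℝ} {m M : ℕ} (h : m ≤ M) : chg b x 0 m + chg b x m M ≤ chg b x 0 M := by
  unfold chg
  rw [← Finset.card_union_of_disjoint]
  · apply Finset.card_le_card
    intro j hj
    simp only [Finset.mem_union, Finset.mem_filter, Finset.mem_Ico] at hj ⊢
    rcases hj with hj | hj
    · exact ⟨by omega, hj.2⟩
    · exact ⟨by omega, hj.2⟩
  · rw [Finset.disjoint_left]
    intro j hj hj'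
    simp only [Finset.mem_filter, Finset.mem_Ico] at hj hj'
    omega

lemma chg_mono {b : ℕ} {x : ℝ} {m M : ℕ} (h : m ≤ M) : chg b x 0 m ≤ chg b x 0 M :=
  le_trans (Nat.le_add_right _ _) (chg_add h)

/-- **The total number of digit changes.** -/
theorem chg_total {k : ℕ} (b : Fin k → ℕ) (x : Fin k → ℝ) {R : ℝ} (hb : ∀ i, 2 ≤ b i)
    (hR : 1 < R) (h : Scattered b x R) (C : ℝ) :
    ∃ T0 : ℝ, ∀ T : ℝ, T0 ≤ T → ∀ n : Fin k → ℕ, (∀ i, T ≤ (b i : ℝ) ^ n i) →
      C * Real.log (Real.log T) ≤ ((∑ i, chg (b i) (x i) 0 (n i) : ℕ) : ℝ) := by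
  set S : ℝ := R + 1 with hS
  have hS1 : 1 < S := by linarith
  have hLS : 0 < Real.log S := Real.log_pos hS1
  set K : ℕ := ⌈2 * |C| * Real.log S⌉₊ with hK
  have hKC : 2 * |C| * Real.log S ≤ K := Nat.le_ceil _
  obtain ⟨T0, hT0⟩ := chg_window b x hb hR h K
  set B : ℝ := ∏ i, (b i : ℝ) with hB
  have hprod : ∀ s : Finset (Fin k), (1 : ℝ) ≤ ∏ j ∈ s, (b j : ℝ) := by
    intro s
    have h1 : 0 < ∏ j ∈ s, b j := Finset.prod_pos fun i _ => by have := hb i; omega
    have h2 : 1 ≤ ∏ j ∈ s, b j := h1
    exact_mod_cast h2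
  have hB1 : 1 ≤ B := hprod _
  have hbB : ∀ i, (b i : ℝ) ≤ B := by
    intro i
    rw [hB, ← Finset.mul_prod_erase Finset.univ (fun i => (b i : ℝ)) (Finset.mem_univ i)]
    have h1 : (1 : ℝ) ≤ ∏ j ∈ Finset.univ.erase i, (b j : ℝ) := hprod _
    have h2 : (0 : ℝ) ≤ b i := Nat.cast_nonneg _
    nlinarith
  set T1 : ℝ := max (max T0 3) (B ^ R) with hT1
  have hT13 : 3 ≤ T1 := (le_max_right _ _).trans (le_max_left _ _)
  let F : ℝ → ℕ := fun T => ∑ i, chg (b i) (x i) 0 (cl (b i) T)
  have hclmono : ∀ i, ∀ T T' : ℝ, 1 ≤ T → T ≤ T' → cl (b i) T ≤ cl (b i) T' := by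
    intro i T T' h1 h2
    unfold cl
    apply Nat.ceil_le_ceil
    exact div_le_div_of_nonneg_right (Real.log_le_log (by linarith) h2)
      (Real.log_natCast_nonneg _)
  have hstep : ∀ T : ℝ, T1 ≤ T → F T + K ≤ F (T ^ S) := by
    intro T hT
    have hT3 : 3 ≤ T := hT13.trans hT
    have hTT : T ≤ T ^ S := by
      nth_rewrite 1 [← Real.rpow_one T]
      exact Real.rpow_le_rpow_of_exponent_le (by linarith) hS1.le
    have h1 := hT0 (B * T) (by
      have h2 : T0 ≤ T := (le_max_left _ _).trans ((le_max_left _ _).trans hT)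
      nlinarith) (fun i => cl (b i) T) (fun i => cl (b i) (T ^ S)) (fun i => by
      constructor
      · refine (cl_spec (hb i) (by linarith)).2.trans ?_
        exact mul_le_mul_of_nonneg_right (hbB i) (by linarith)
      · refine le_trans ?_ (cl_spec (hb i) (by linarith)).1
        rw [Real.mul_rpow (by linarith) (by linarith), hS, Real.rpow_add (by linarith),
          Real.rpow_one, mul_comm]
        exact mul_le_mul_of_nonneg_left ((le_max_right _ _).trans hT)
          (Real.rpow_nonneg (by linarith) _))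
    have h2 : F T + ∑ i, chg (b i) (x i) (cl (b i) T) (cl (b i) (T ^ S)) ≤ F (T ^ S) := by
      simp only [F]
      rw [← Finset.sum_add_distrib]
      exact Finset.sum_le_sum fun i _ => chg_add (hclmono i T _ (by linarith) hTT)
    omega
  have hiter : ∀ j : ℕ, j * K ≤ F (T1 ^ (S ^ j)) := by
    intro j
    induction j with
    | zero => simp
    | succ j ih =>
      have h1 : T1 ≤ T1 ^ (S ^ j) := by
        nth_rewrite 1 [← Real.rpow_one T1]
        exact Real.rpow_le_rpow_of_exponent_le (by linarith) (one_le_pow₀ hS1.le)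
      have h2 := hstep _ h1
      rw [← Real.rpow_mul (by linarith), ← pow_succ] at h2
      rw [Nat.succ_mul]
      omega
  -- the final bound
  set c1 : ℝ := Real.log (Real.log T1) with hc1
  have hlogT1 : 0 < Real.log T1 := Real.log_pos (by linarith)
  set T2 : ℝ := Real.exp (Real.exp (2 * (|c1| + Real.log S) + 1)) with hT2
  refine ⟨max T1 T2, fun T hT n hn => ?_⟩
  have hTT1 : T1 ≤ T := (le_max_left _ _).trans hT
  have hTT2 : T2 ≤ T := (le_max_right _ _).trans hT
  have hTpos : 0 < T := by linarith
  have hlogT : 0 < Real.log T := Real.log_pos (by linarith)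
  have hll : 2 * (|c1| + Real.log S) + 1 ≤ Real.log (Real.log T) := by
    rw [Real.le_log_iff_exp_le hlogT, Real.le_log_iff_exp_le hTpos]
    exact hTT2
  set y : ℝ := (Real.log (Real.log T) - c1) / Real.log S with hy
  have hc1ab := le_abs_self c1
  have hy0 : 0 ≤ y := by
    apply div_nonneg _ hLS.le
    have := abs_nonneg c1
    linarith
  set j : ℕ := ⌊y⌋₊ with hj
  have hj1 : (j : ℝ) ≤ y := Nat.floor_le hy0
  have hj2 : y < j + 1 := Nat.lt_floor_add_one y
  have hTj : T1 ^ (S ^ j) ≤ T := by
    rw [← Real.log_le_log_iff (Real.rpow_pos_of_pos (by linarith) _) hTpos,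
      Real.log_rpow (by linarith)]
    rw [← Real.log_le_log_iff (by positivity) hlogT, Real.log_mul (by positivity) hlogT1.ne',
      Real.log_pow]
    have h1 : (j : ℝ) * Real.log S ≤ Real.log (Real.log T) - c1 := by
      rw [hy, le_div_iff₀ hLS] at hj1
      exact hj1
    linarith
  have hFT : j * K ≤ ∑ i, chg (b i) (x i) 0 (n i) := by
    refine (hiter j).trans ?_
    simp only [F]
    refine Finset.sum_le_sum fun i _ => chg_mono ?_
    have h1 : 1 ≤ T1 ^ (S ^ j) := Real.one_le_rpow (by linarith) (by positivity)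
    refine (hclmono i _ _ h1 hTj).trans ?_
    unfold cl
    apply Nat.ceil_le.2
    have hL : 0 < Real.log (b i) := Real.log_pos (by have := hb i; exact_mod_cast (by omega : 1 < b i))
    rw [div_le_iff₀ hL]
    have h2 := Real.log_le_log hTpos (hn i)
    rwa [Real.log_pow] at h2
  have hfin : C * Real.log (Real.log T) ≤ ((j * K : ℕ) : ℝ) := by
    push_cast
    have hll0 : 0 ≤ Real.log (Real.log T) := by
      have := abs_nonneg c1
      linarith
    have h1 : C * Real.log (Real.log T) ≤ |C| * Real.log (Real.log T) :=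
      mul_le_mul_of_nonneg_right (le_abs_self C) hll0
    refine h1.trans ?_
    have h2 : y - 1 ≤ j := by linarith
    have h3 : Real.log (Real.log T) / (2 * Real.log S) ≤ y - 1 := by
      have h4 : y - 1 = (Real.log (Real.log T) - c1 - Real.log S) / Real.log S := by
        rw [hy]; field_simp
      rw [h4, div_le_div_iff₀ (by positivity) hLS]
      nlinarith
    have hj0 : (0 : ℝ) ≤ j := Nat.cast_nonneg _
    calc |C| * Real.log (Real.log T)
        = (2 * |C| * Real.log S) * (Real.log (Real.log T) / (2 * Real.log S)) := by field_simp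
      _ ≤ (2 * |C| * Real.log S) * j :=
          mul_le_mul_of_nonneg_left (h3.trans h2) (by positivity)
      _ ≤ K * j := mul_le_mul_of_nonneg_right hKC hj0
      _ = j * K := mul_comm _ _
  exact hfin.trans (by exact_mod_cast hFT)

end Pool.Agent.V5helper55.TB
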