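import Mathlib
import Pool.Agent.V5helper55.TB.Chg

/-!
# Finite state predictors
-/

set_option autoImplicit false

open Filter Topology Finset

namespace Pool.Agent.V5helper55.TB

lemma Cut.append {d : ℕ → ℤ} {m m' M K K' : ℕ} {p : ℝ} (h : Cut d m m' K p)
    (h' : Cut d m' M K' p) : Cut d m M (K + K') p := by
  obtain ⟨c, hc1, hc2, hc3, hc4⟩ := h
  obtain ⟨e, he1, he2, he3, he4⟩ := h'
  refine ⟨fun r => if r ≤ K then c r else e (r - K), ?_, ?_, ?_, ?_⟩
  · intro r s hrs
    dsimp only
    split_ifs with h1 h2 h2
    · exact hc1 hrs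
    · have h3 := hc1 h1
      have h4 := he1 (Nat.zero_le (s - K))
      omega
    · omega
    · exact he1 (by omega)
  · simp [hc2]
  · by_cases h1 : K' = 0
    · subst h1
      simp only [add_zero, le_refl, if_true]
      rw [hc3, ← he2, he3]
    · simp only [show ¬ (K + K' ≤ K) by omega, if_false]
      rw [show K + K' - K = K' by omega, he3]
  · intro r hr
    by_cases h1 : r < K
    · obtain ⟨s, h3, h4, h5⟩ := hc4 r h1
      refine ⟨s, h3, h4, ?_⟩
      simp only [show r ≤ K by omega, show r + 1 ≤ K by omega, if_true]
      exact h5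
    · obtain ⟨s, h3, h4, h5⟩ := he4 (r - K) (by omega)
      refine ⟨s, h3, h4, ?_⟩
      have h6 : (if r ≤ K then c r else e (r - K)) = e (r - K) := by
        split_ifs with h7
        · have : r = K := by omega
          subst this
          rw [hc3, Nat.sub_self, he2]
        · rfl
      simp only [h6, show ¬ (r + 1 ≤ K) by omega, if_false]
      rw [show r + 1 - K = r - K + 1 by omega]
      exact h5

/-- the state after reading `d 1, ..., d n` -/
def st {S : ℕ} (step : Fin S → ℤ → Fin S) (start : Fin S) (d : ℕ → ℤ) : ℕ → Fin S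
  | 0 => start
  | n + 1 => step (st step start d n) (d (n + 1))

lemma cut_free {S : ℕ} (out : Fin S → ℤ) (step : Fin S → ℤ → Fin S) (start : Fin S) (d : ℕ → ℤ)
    {m M : ℕ} (hmM : m ≤ M) (h : ∀ n, m ≤ n → n < M → out (st step start d n) = d (n + 1)) :
    Cut d m M 2 S := by
  have hS : 1 ≤ S := Nat.one_le_iff_ne_zero.2 (by rintro rfl; exact start.elim0)
  by_cases hlen : M - m ≤ S
  · refine ⟨fun r => if r = 0 then m else M, ?_, by simp, by simp, ?_⟩
    · intro r s hrs
      dsimp only
      split_ifs <;> omega
    · intro r hr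
      refine ⟨S, hS, le_refl _, fun n h1 h2 => ?_⟩
      by_cases hr0 : r = 0
      · subst hr0
        simp only [if_true, zero_add, one_ne_zero, if_false] at h1 h2
        omega
      · have : r = 1 := by omega
        subst this
        simp only [one_ne_zero, if_false, Nat.reduceAdd, OfNat.ofNat_ne_zero] at h1 h2
        omega
  · push Not at hlen
    -- a repetition
    have h1 : ∃ i j : ℕ, i < j ∧ j ≤ S ∧ st step start d (m + i) = st step start d (m + j) := by
      have h2 : ∃ x y : Fin (S + 1), x ≠ y ∧
          (fun i : Fin (S + 1) => st step start d (m + i)) x =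
          (fun i : Fin (S + 1) => st step start d (m + i)) y :=
        Fintype.exists_ne_map_eq_of_card_lt _ (by simp)
      obtain ⟨x, y, hxy, he⟩ := h2
      rcases lt_or_gt_of_ne hxy with h3 | h3
      · exact ⟨x, y, h3, by omega, he⟩
      · exact ⟨y, x, h3, by omega, he.symm⟩
    obtain ⟨i, j, hij, hjS, he⟩ := h1
    have hper : ∀ n, m + i ≤ n → n + (j - i) ≤ M →
        st step start d (n + (j - i)) = st step start d n := by
      intro n hn
      induction n, hn using Nat.le_induction with
      | base =>
        intro _
        rw [show m + i + (j - i) = m + j by omega, he]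
      | succ n hn ih =>
        intro h2
        have h3 := ih (by omega)
        rw [show n + 1 + (j - i) = (n + (j - i)) + 1 by ring]
        show step (st step start d (n + (j - i))) (d (n + (j - i) + 1)) =
          step (st step start d n) (d (n + 1))
        rw [← h (n + (j - i)) (by omega) (by omega), ← h n (by omega) (by omega), h3]
    refine ⟨fun r => if r = 0 then m else if r = 1 then m + i else M, ?_, by simp, by simp, ?_⟩
    · intro r s hrs
      dsimp only
      split_ifs <;> omega
    · intro r hr
      by_cases hr0 : r = 0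
      · subst hr0
        refine ⟨S, hS, le_refl _, fun n h2 h3 => ?_⟩
        simp only [if_true, zero_add, one_ne_zero, if_false] at h2 h3
        omega
      · have : r = 1 := by omega
        subst this
        refine ⟨j - i, by omega, by exact_mod_cast (by omega : j - i ≤ S), fun n h2 h3 => ?_⟩
        simp only [one_ne_zero, if_false, if_true, Nat.reduceAdd, OfNat.ofNat_ne_zero,
          OfNat.ofNat_ne_one] at h2 h3
        have h4 := hper (n - 1) (by omega) (by omega)
        have h5 := h (n - 1) (by omega) (by omega)
        have h6 := h (n - 1 + (j - i)) (by omega) (by omega)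
        rw [h4, h5] at h6
        rw [show n - 1 + (j - i) + 1 = n + (j - i) by omega, show n - 1 + 1 = n by omega] at h6
        exact h6.symm

/-- the number of wrong predictions of the digits with indices `m + 1, ..., M` -/
def errs {S : ℕ} (out : Fin S → ℤ) (step : Fin S → ℤ → Fin S) (start : Fin S) (d : ℕ → ℤ)
    (m M : ℕ) : ℕ :=
  ((Finset.Ico m M).filter fun n => out (st step start d n) ≠ d (n + 1)).card

lemma cut_errs {S : ℕ} (out : Fin S → ℤ) (step : Fin S → ℤ → Fin S) (start : Fin S) (d : ℕ → ℤ)
    (E : ℕ) : ∀ {m M : ℕ}, m ≤ M → errs out step start d m M = E → Cut d m M (3 * E + 2) S := by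
  have hS : 1 ≤ S := Nat.one_le_iff_ne_zero.2 (by rintro rfl; exact start.elim0)
  induction E with
  | zero =>
    intro m M hmM h
    refine cut_free out step start d hmM fun n h1 h2 => ?_
    by_contra h3
    have h4 : n ∈ (Finset.Ico m M).filter fun n => out (st step start d n) ≠ d (n + 1) := by
      simp [h1, h2, h3]
    rw [errs, Finset.card_eq_zero] at h
    rw [h] at h4
    simp at h4
  | succ E ih =>
    intro m M hmM h
    -- the last error
    have hne : ((Finset.Ico m M).filter fun n => out (st step start d n) ≠ d (n + 1)).Nonempty := by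
      rw [← Finset.card_pos]
      unfold errs at h
      omega
    obtain ⟨n0, hn0, hmax⟩ := Finset.exists_max_image _ id hne
    simp only [Finset.mem_filter, Finset.mem_Ico, id] at hn0 hmax
    have h1 : errs out step start d m n0 = E := by
      have h2 : (Finset.Ico m M).filter (fun n => out (st step start d n) ≠ d (n + 1)) =
          insert n0 ((Finset.Ico m n0).filter fun n => out (st step start d n) ≠ d (n + 1)) := by
        ext n
        simp only [Finset.mem_filter, Finset.mem_Ico, Finset.mem_insert]
        constructor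
        · intro h3
          have h4 := hmax n h3
          rcases Nat.lt_or_ge n n0 with h5 | h5
          · exact Or.inr ⟨⟨h3.1.1, h5⟩, h3.2⟩
          · exact Or.inl (by omega)
        · rintro (rfl | h3)
          · exact hn0
          · exact ⟨⟨h3.1.1, by omega⟩, h3.2⟩
      unfold errs at h ⊢
      rw [h2, Finset.card_insert_of_notMem (by simp)] at h
      omega
    have c1 := ih hn0.1.1 h1
    have c2 : Cut d n0 (n0 + 1) 1 S := by
      refine ⟨fun r => n0 + min r 1, ?_, by simp, by simp, ?_⟩
      · intro r s hrs
        dsimp only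
        omega
      · intro r hr
        have : r = 0 := by omega
        subst this
        refine ⟨S, hS, le_refl _, fun n h2 h3 => ?_⟩
        beta_reduce at h2 h3
        omega
    have c3 : Cut d (n0 + 1) M 2 S := by
      refine cut_free out step start d (by omega) fun n h2 h3 => ?_
      by_contra h4
      have := hmax n ⟨⟨by omega, h3⟩, h4⟩
      omega
    have c4 := (c1.append c2).append c3
    rw [show 3 * (E + 1) + 2 = 3 * E + 2 + 1 + 2 by ring]
    exact c4

/-- **Predictors**: small finite state predictors make many errors in all the windows. -/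
theorem pred_window {k : ℕ} (b : Fin k → ℕ) (x : Fin k → ℝ) {R : ℝ}
    (hb : ∀ i, 2 ≤ b i) (hR : 1 < R) (h : Scattered b x R) (K : ℕ) :
    ∃ ε : ℝ, 0 < ε ∧ ∃ T0 : ℝ, ∀ T : ℝ, T0 ≤ T → ∀ m M : Fin k → ℕ,
      (∀ i, (b i : ℝ) ^ m i ≤ T ∧ T ^ R ≤ (b i : ℝ) ^ M i) →
      ∀ S : ℕ, (S : ℝ) ≤ ε * Real.log T → ∀ (out : Fin k → Fin S → ℤ)
        (step : Fin k → Fin S → ℤ → Fin S) (start : Fin k → Fin S),
      K ≤ ∑ i, errs (out i) (step i) (start i) (digit (b i) (x i)) (m i) (M i) := by
  obtain ⟨ε, hε, T0, hT0⟩ := h (3 * K + 2)
  refine ⟨ε, hε, max T0 (Real.exp (1 / ε)), fun T hT m M hmM S hS out step start => ?_⟩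
  by_contra hlt
  push Not at hlt
  have hT1 := (le_max_left _ _).trans hT
  have hT2 := (le_max_right _ _).trans hT
  have hTpos : 0 < T := lt_of_lt_of_le (Real.exp_pos _) hT2
  have hT1' : 1 < T := by
    refine lt_of_lt_of_le ?_ hT2
    rw [Real.one_lt_exp_iff]; positivity
  refine hT0 T hT1 m M hmM fun i => ?_
  have h1 : errs (out i) (step i) (start i) (digit (b i) (x i)) (m i) (M i) ≤ K := by
    have : errs (out i) (step i) (start i) (digit (b i) (x i)) (m i) (M i) ≤
        ∑ i, errs (out i) (step i) (start i) (digit (b i) (x i)) (m i) (M i) :=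
      Finset.single_le_sum (f := fun i => errs (out i) (step i) (start i) (digit (b i) (x i))
        (m i) (M i)) (fun _ _ => Nat.zero_le _) (Finset.mem_univ i)
    omega
  have hmMi : m i ≤ M i := by
    by_contra hgt
    push Not at hgt
    have hb1 : (1 : ℝ) < b i := by have := hb i; exact_mod_cast (by omega : 1 < b i)
    have h2 : (b i : ℝ) ^ M i < (b i : ℝ) ^ m i := pow_lt_pow_right₀ hb1 hgt
    have h3 : T ≤ T ^ R := by
      nth_rewrite 1 [← Real.rpow_one T]
      exact Real.rpow_le_rpow_of_exponent_le hT1'.le hR.le
    have := hmM i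
    linarith [this.1, this.2]
  have hS1 : (1 : ℝ) ≤ S := by
    have : 1 ≤ S := Nat.one_le_iff_ne_zero.2 (by rintro rfl; exact (start i).elim0)
    exact_mod_cast this
  exact ((cut_errs (out i) (step i) (start i) (digit (b i) (x i)) _ hmMi rfl).succ_pieces
    (by omega) hS1).mono hS

end Pool.Agent.V5helper55.TB
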