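import Mathlib
import Pool.Agent.V5helper55.TB.Chg
import Pool.Agent.V5helper55.TB.Main2
import Pool.Agent.H326R2.Pi.Top
import Pool.Agent.H43R2.Cplx.EMeas

/-!
# Two numbers `z` and `α z + β`; the numbers `e` and `π`
-/

set_option autoImplicit false

open Filter Topology Finset

namespace Pool.Agent.V5helper55.TB

/-- `z` and `α z + β`, not both of `α`, `β` rational, any bases -/
theorem scattered_affine {a b : ℕ} (ha : 2 ≤ a) (hb : 2 ≤ b) {z α β : ℝ} (hz : Irrational z)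
    (hα : IsAlgebraic ℚ α) (hβ : IsAlgebraic ℚ β) (h : Irrational α ∨ Irrational β) {R : ℝ}
    (hR : 2 < R) : ScatteredL ![a, b] ![z, α * z + β] R := by
  refine scatteredL_unique ![a, b] (by intro i; fin_cases i; exacts [ha, hb]) ![z, α * z + β]
    ![α, -1] ?_ hβ.neg ?_ ?_ ⟨0, hz⟩ (by norm_num; exact hR)
  · intro i
    fin_cases i
    · exact hα
    · exact isAlgebraic_one.neg
  · rw [Fin.sum_univ_two]
    simp
  · intro q q' h1 h2
    rw [Fin.sum_univ_two] at h1 h2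
    simp only [Matrix.cons_val_zero, Matrix.cons_val_one] at h1 h2
    rcases h with h | h
    · have h3 : α * ((q 0 - q' 0 : ℚ) : ℝ) = ((q 1 - q' 1 : ℚ) : ℝ) := by
        push_cast; linarith
      have h4 : q 0 = q' 0 := by
        by_contra hne
        have h5 : ((q 0 - q' 0 : ℚ) : ℝ) ≠ 0 := by
          exact_mod_cast sub_ne_zero.2 hne
        apply h
        refine ⟨(q 1 - q' 1) / (q 0 - q' 0), ?_⟩
        push_cast at h3 h5 ⊢
        rw [div_eq_iff h5]
        linarith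
      have h5 : q 1 = q' 1 := by
        rw [h4] at h1
        have : ((q 1 : ℚ) : ℝ) = q' 1 := by linarith
        exact_mod_cast this
      funext i
      fin_cases i
      · exact h4
      · exact h5
    · by_cases hα2 : Irrational α
      · have h3 : α * ((q 0 - q' 0 : ℚ) : ℝ) = ((q 1 - q' 1 : ℚ) : ℝ) := by
          push_cast; linarith
        have h4 : q 0 = q' 0 := by
          by_contra hne
          have h5 : ((q 0 - q' 0 : ℚ) : ℝ) ≠ 0 := by
            exact_mod_cast sub_ne_zero.2 hne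
          apply hα2
          refine ⟨(q 1 - q' 1) / (q 0 - q' 0), ?_⟩
          push_cast at h3 h5 ⊢
          rw [div_eq_iff h5]
          linarith
        have h5 : q 1 = q' 1 := by
          rw [h4] at h1
          have : ((q 1 : ℚ) : ℝ) = q' 1 := by linarith
          exact_mod_cast this
        funext i
        fin_cases i
        · exact h4
        · exact h5
      · exfalso
        unfold Irrational at hα2
        push Not at hα2
        obtain ⟨r, hr⟩ := hα2
        apply h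
        refine ⟨q 1 - r * q 0, ?_⟩
        push_cast
        rw [hr]
        linarith

/-- `z` and `α z + β`, `α ≠ 0` and `β` rational, multiplicatively independent bases -/
theorem scattered_rat0 {a b : ℕ} (ha : 2 ≤ a) (hb : 2 ≤ b)
    (hab : ∀ k l : ℕ, a ^ k = b ^ l → k = 0 ∧ l = 0) {z : ℝ} {α β : ℚ} (hα : α ≠ 0) {μ c R : ℝ}
    (hμ0 : 0 ≤ μ) (hc : 0 < c)
    (hmeas : ∀ q : ℕ, 1 ≤ q → ∀ r : ℤ, c ≤ |z - r / q| * (q : ℝ) ^ μ) (hμ : μ < R) (hR : 2 < R) :
    ScatteredL ![a, b] ![z, α * z + β] R := by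
  have hαd : (α.den : ℤ) ≠ 0 := by exact_mod_cast α.den_ne_zero
  have hβd : (β.den : ℤ) ≠ 0 := by exact_mod_cast β.den_ne_zero
  refine scatteredL_indep ha hb hab (q1 := α.num * β.den) (q2 := -(α.den * β.den))
    (q3 := -(β.num * α.den)) (mul_ne_zero (Rat.num_ne_zero.2 hα) hβd)
    (neg_ne_zero.2 (mul_ne_zero hαd hβd)) ?_ hμ0 hc hmeas hμ hR
  have h1 : (α : ℝ) = α.num / α.den := by exact_mod_cast (Rat.num_div_den α).symm
  have h2 : (β : ℝ) = β.num / β.den := by exact_mod_cast (Rat.num_div_den β).symm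
  have h3 : (α.den : ℝ) ≠ 0 := by exact_mod_cast α.den_ne_zero
  have h4 : (β.den : ℝ) ≠ 0 := by exact_mod_cast β.den_ne_zero
  push_cast
  rw [h1, h2]
  field_simp
  ring

/-- the same without the condition `0 ≤ μ` -/
theorem scattered_rat {a b : ℕ} (ha : 2 ≤ a) (hb : 2 ≤ b)
    (hab : ∀ k l : ℕ, a ^ k = b ^ l → k = 0 ∧ l = 0) {z : ℝ} {α β : ℚ} (hα : α ≠ 0) {μ c R : ℝ}
    (hc : 0 < c)
    (hmeas : ∀ q : ℕ, 1 ≤ q → ∀ r : ℤ, c ≤ |z - r / q| * (q : ℝ) ^ μ) (hμ : μ < R) (hR : 2 < R) :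
    ScatteredL ![a, b] ![z, α * z + β] R := by
  rcases le_or_gt 0 μ with h0 | h0
  · exact scattered_rat0 ha hb hab hα h0 hc hmeas hμ hR
  · refine scattered_rat0 ha hb hab hα (le_refl 0) hc (fun q hq r => (hmeas q hq r).trans ?_)
      (by linarith) hR
    have h1 : (1 : ℝ) ≤ q := by exact_mod_cast hq
    exact mul_le_mul_of_nonneg_left (Real.rpow_le_rpow_of_exponent_le h1 h0.le) (abs_nonneg _)

/-- from large denominators to all denominators -/
lemma meas_all {z : ℝ} {μ : ℝ} {q0 : ℕ}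
    (h : ∀ q : ℕ, q0 ≤ q → ∀ r : ℤ, (q : ℝ) ^ (-μ) ≤ |z - r / q|) :
    ∃ c : ℝ, 0 < c ∧ ∀ q : ℕ, 1 ≤ q → ∀ r : ℤ, c ≤ |z - r / q| * (q : ℝ) ^ μ := by
  -- use a multiple of the denominator
  set Q : ℕ := max q0 1 with hQ
  have hQ1 : 1 ≤ Q := le_max_right _ _
  have hQ0 : (0 : ℝ) < Q := by exact_mod_cast hQ1
  refine ⟨(Q : ℝ) ^ (-μ), Real.rpow_pos_of_pos hQ0 _, fun q hq r => ?_⟩
  have hq0 : (0 : ℝ) < q := by exact_mod_cast hq
  have h1 := h (Q * q) (le_trans (le_max_left _ _) (Nat.le_mul_of_pos_right _ hq)) (Q * r)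
  push_cast at h1
  rw [mul_div_mul_left _ _ hQ0.ne', Real.mul_rpow hQ0.le hq0.le] at h1
  have h2 : (q : ℝ) ^ (-μ) * (q : ℝ) ^ μ = 1 := by
    rw [← Real.rpow_add hq0]; simp
  have h3 : 0 < (q : ℝ) ^ μ := Real.rpow_pos_of_pos hq0 _
  calc (Q : ℝ) ^ (-μ) = (Q : ℝ) ^ (-μ) * ((q : ℝ) ^ (-μ) * (q : ℝ) ^ μ) := by rw [h2, mul_one]
    _ = ((Q : ℝ) ^ (-μ) * (q : ℝ) ^ (-μ)) * (q : ℝ) ^ μ := by ring
    _ ≤ |z - r / q| * (q : ℝ) ^ μ := mul_le_mul_of_nonneg_right h1 h3.le

/-- the measure of `π` -/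
theorem meas_pi : ∃ c : ℝ, 0 < c ∧ ∀ q : ℕ, 1 ≤ q → ∀ r : ℤ,
    c ≤ |Real.pi - r / q| * (q : ℝ) ^ (6.05 : ℝ) := by
  obtain ⟨q0, hq0⟩ := Pool.Agent.H326R2.Pi.main
  exact meas_all hq0

/-- the measure of `e` -/
theorem meas_e {μ : ℝ} (hμ : 2 < μ) : ∃ c : ℝ, 0 < c ∧ ∀ q : ℕ, 1 ≤ q → ∀ r : ℤ,
    c ≤ |Real.exp 1 - r / q| * (q : ℝ) ^ μ := by
  obtain ⟨c, hc, h⟩ := Pool.Agent.H43R2.Cplx.EMeas.measure (μ - 2) (by linarith)
  refine ⟨c, hc, fun q hq r => (h q hq r).trans (le_of_eq ?_)⟩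
  have hq0 : (0 : ℝ) < q := by exact_mod_cast hq
  have h1 : (q : ℝ) * Real.exp 1 - r = q * (Real.exp 1 - r / q) := by field_simp
  rw [h1, abs_mul, Nat.abs_cast]
  have h2 : (q : ℝ) ^ μ = (q : ℝ) ^ (1 + (μ - 2)) * q := by
    nth_rewrite 3 [← Real.rpow_one (q : ℝ)]
    rw [← Real.rpow_add hq0]
    congr 1
    ring
  rw [h2]
  ring

/-- **The numbers `e` and `π`.** -/
theorem e_pi {a b : ℕ} (ha : 2 ≤ a) (hb : 2 ≤ b) {α β : ℝ} (hα : IsAlgebraic ℚ α)
    (hβ : IsAlgebraic ℚ β) (hα0 : α ≠ 0)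
    (h : (∀ k l : ℕ, a ^ k = b ^ l → k = 0 ∧ l = 0) ∨ Irrational α ∨ Irrational β) :
    (∀ R : ℝ, 2 < R → ScatteredL ![a, b] ![Real.exp 1, α * Real.exp 1 + β] R) ∧
    (∀ R : ℝ, 6.05 < R → ScatteredL ![a, b] ![Real.pi, α * Real.pi + β] R) := by
  by_cases hirr : Irrational α ∨ Irrational β
  · have he : Irrational (Real.exp 1) := by
      rintro ⟨r, hr⟩
      obtain ⟨c, hc, hm⟩ := meas_e (μ := 3) (by norm_num)
      have h1 := hm r.den r.pos r.num
      have h2 : (Real.exp 1) = (r.num : ℝ) / r.den := by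
        rw [← hr]
        exact_mod_cast (Rat.num_div_den r).symm
      rw [h2, sub_self, abs_zero, zero_mul] at h1
      linarith
    exact ⟨fun R hR => scattered_affine ha hb he hα hβ hirr hR,
      fun R hR => scattered_affine ha hb irrational_pi hα hβ hirr (by linarith)⟩
  · have hab := h.resolve_right hirr
    push Not at hirr
    obtain ⟨h1, h2⟩ := hirr
    unfold Irrational at h1 h2
    push Not at h1 h2
    obtain ⟨α', rfl⟩ := h1
    obtain ⟨β', rfl⟩ := h2
    have hα' : α' ≠ 0 := by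
      rintro rfl
      simp at hα0
    constructor
    · intro R hR
      obtain ⟨c, hc, hm⟩ := meas_e (μ := (2 + R) / 2) (by linarith)
      exact scattered_rat ha hb hab hα' hc hm (by linarith) hR
    · intro R hR
      obtain ⟨c, hc, hm⟩ := meas_pi
      exact scattered_rat ha hb hab hα' hc hm hR (by linarith)

/-- at most one class of exceptional bases -/
theorem one_class (z : ℝ) (h : ∀ a b : ℕ, 2 ≤ a → 2 ≤ b →
      (∀ k l : ℕ, a ^ k = b ^ l → k = 0 ∧ l = 0) → ∃ R : ℝ, 1 < R ∧ Scattered ![a, b] ![z, z] R) :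
    ∃ c : ℕ, 2 ≤ c ∧ ∀ b : ℕ, 2 ≤ b → (∀ k l : ℕ, b ^ k = c ^ l → k = 0 ∧ l = 0) →
      ∀ C : ℝ, ∀ n0 : ℕ, ∃ n : ℕ, n0 ≤ n ∧ C * Real.log n < chg b z 0 n := by
  by_cases htame : ∃ c : ℕ, 2 ≤ c ∧ ∃ C : ℝ, ∃ n0 : ℕ, ∀ n : ℕ, n0 ≤ n →
      (chg c z 0 n : ℝ) ≤ C * Real.log n
  · obtain ⟨c, hc, C, n1, hC⟩ := htame
    refine ⟨c, hc, fun b hb hbc C' n0 => ?_⟩
    obtain ⟨R, hR, hS⟩ := h b c hb hc hbc
    have hb0 : (0 : ℝ) < b := by exact_mod_cast (by omega : 0 < b)
    have hLb : 0 < Real.log b := Real.log_pos (by exact_mod_cast (by omega : 1 < b))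
    have hLc : 0 < Real.log c := Real.log_pos (by exact_mod_cast (by omega : 1 < c))
    obtain ⟨T0, hT0⟩ := chg_total ![b, c] ![z, z] (by intro i; fin_cases i; exacts [hb, hc]) hR hS
      (|C| + |C'| + 1)
    -- constants
    set D : ℝ := Real.log b / Real.log c + 1 with hD
    have hD1 : 1 ≤ D := by
      have : 0 ≤ Real.log b / Real.log c := by positivity
      linarith
    set E : ℝ := (|C| + |C'| + 1) * |Real.log (Real.log b)| + |C| * Real.log D with hE
    -- choice of n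
    have h1 : ∀ᶠ n : ℕ in atTop, T0 ≤ (b : ℝ) ^ n := by
      have hb1 : (1 : ℝ) < b := by exact_mod_cast (by omega : 1 < b)
      exact (tendsto_pow_atTop_atTop_of_one_lt hb1).eventually_ge_atTop _
    have h2 : ∀ᶠ n : ℕ in atTop, E < Real.log n :=
      (Real.tendsto_log_atTop.comp tendsto_natCast_atTop_atTop).eventually_gt_atTop _
    have h3 : ∀ᶠ n : ℕ in atTop, (n1 : ℝ) ≤ n * (Real.log b / Real.log c) := by
      have h4 : Tendsto (fun n : ℕ => (n : ℝ) * (Real.log b / Real.log c)) atTop atTop :=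
        tendsto_natCast_atTop_atTop.atTop_mul_const (by positivity)
      exact h4.eventually_ge_atTop _
    obtain ⟨n, a1, a2, a3, a4, a5⟩ := (h1.and (h2.and (h3.and ((eventually_ge_atTop n0).and
      (eventually_ge_atTop 1))))).exists
    refine ⟨n, a4, ?_⟩
    have hn1 : (1 : ℝ) ≤ n := by exact_mod_cast a5
    have hlogn : 0 ≤ Real.log n := Real.log_nonneg hn1
    set n' : ℕ := ⌈(n : ℝ) * (Real.log b / Real.log c)⌉₊ with hn'
    have hn'1 : (n : ℝ) * (Real.log b / Real.log c) ≤ n' := Nat.le_ceil _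
    have hn'2 : (n' : ℝ) < (n : ℝ) * (Real.log b / Real.log c) + 1 :=
      Nat.ceil_lt_add_one (by positivity)
    have hTc : (b : ℝ) ^ n ≤ (c : ℝ) ^ n' := by
      have hc0 : (0 : ℝ) < c := by exact_mod_cast (by omega : 0 < c)
      rw [← Real.log_le_log_iff (by positivity) (by positivity), Real.log_pow, Real.log_pow]
      have h5 : (n : ℝ) * Real.log b = (n : ℝ) * (Real.log b / Real.log c) * Real.log c := by
        field_simp
      rw [h5]
      exact mul_le_mul_of_nonneg_right hn'1 hLc.le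
    have hmain := hT0 ((b : ℝ) ^ n) a1 ![n, n'] (by
      intro i
      fin_cases i
      · exact le_refl _
      · exact hTc)
    rw [Fin.sum_univ_two] at hmain
    simp only [Matrix.cons_val_zero, Matrix.cons_val_one] at hmain
    rw [Real.log_pow, Real.log_mul (by positivity) hLb.ne'] at hmain
    have hn1n' : n1 ≤ n' := by exact_mod_cast a3.trans hn'1
    have h5 := hC n' hn1n'
    have hn'pos : (0 : ℝ) < n' := by
      have : 0 < (n : ℝ) * (Real.log b / Real.log c) := by positivity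
      linarith
    have h6 : Real.log n' ≤ Real.log n + Real.log D := by
      rw [← Real.log_mul (by positivity) (by positivity)]
      apply Real.log_le_log hn'pos
      rw [hD]
      nlinarith
    have hlogn' : 0 ≤ Real.log n' := Real.log_natCast_nonneg _
    have h7 : C * Real.log n' ≤ |C| * (Real.log n + Real.log D) := by
      calc C * Real.log n' ≤ |C| * Real.log n' :=
            mul_le_mul_of_nonneg_right (le_abs_self C) hlogn'
        _ ≤ |C| * (Real.log n + Real.log D) := mul_le_mul_of_nonneg_left h6 (abs_nonneg _)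
    have h8 : (|C| + |C'| + 1) * (Real.log n + Real.log (Real.log b)) ≥
        (|C| + |C'| + 1) * Real.log n - (|C| + |C'| + 1) * |Real.log (Real.log b)| := by
      have h9 := neg_abs_le (Real.log (Real.log b))
      have h10 : 0 ≤ |C| + |C'| + 1 := by positivity
      nlinarith
    push_cast at hmain
    have h9 : C' * Real.log n ≤ |C'| * Real.log n :=
      mul_le_mul_of_nonneg_right (le_abs_self C') hlogn
    have h10 : E = (|C| + |C'| + 1) * |Real.log (Real.log b)| + |C| * Real.log D := hE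
    nlinarith
  · push Not at htame
    refine ⟨2, le_refl _, fun b hb _ C n0 => ?_⟩
    exact htame b hb C n0

end Pool.Agent.V5helper55.TB
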